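import Pool.Agent.RelGap.Defs

/-!
# The rows of a subcomplex of a contractible 2-complex are independent modulo every prime
-/

set_option autoImplicit false

open scoped BigOperators

namespace Pool.Agent.RelGap.Contr

open Pool.Agent.FoxAsph

variable {X ι : Type}

/-- exponent sum of the generator `x` -/
noncomputable def ex (x : X) : FreeGroup X →* Multiplicative ℤ := by
  classical
  exact FreeGroup.lift fun y => Multiplicative.ofAdd (if y = x then 1 else 0)

open Classical in
theorem ex_true (x y : X) : (ex x (FreeGroup.mk [(y, true)])).toAdd = if y = x then 1 else 0 := by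
  show (ex x (FreeGroup.of y)).toAdd = _
  unfold ex
  rw [FreeGroup.lift_apply_of]
  rfl

open Classical in
theorem ex_false (x y : X) :
    (ex x (FreeGroup.mk [(y, false)])).toAdd = -(if y = x then 1 else 0) := by
  have h : (FreeGroup.mk [(y, false)] : FreeGroup X) = (FreeGroup.mk [(y, true)])⁻¹ := by
    rw [FreeGroup.inv_mk]; rfl
  rw [h, map_inv, toAdd_inv, ex_true]

theorem mk_cons (l : X × Bool) (w : Word X) :
    (FreeGroup.mk (l :: w) : FreeGroup X) = FreeGroup.mk [l] * FreeGroup.mk w := by
  rw [FreeGroup.mul_mk]; rfl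

/-- If the group is trivial then Fox derivatives are exponent sums. -/
theorem fox_eq (rel : ι → Word X) (h : Subsingleton (Grp rel)) (x : X) (w : Word X) :
    fox rel x w = (((ex x (FreeGroup.mk w)).toAdd : ℤ) : MonoidAlgebra ℤ (Grp rel)) := by
  have h1 : ∀ g : Grp rel, MonoidAlgebra.of ℤ (Grp rel) g = 1 := fun g => by
    rw [Subsingleton.elim g 1, map_one]
  induction w with
  | nil =>
    rw [fox, show (FreeGroup.mk [] : FreeGroup X) = 1 from rfl, map_one, toAdd_one, Int.cast_zero]
  | cons l w ih =>
    obtain ⟨y, b⟩ := l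
    rw [mk_cons, map_mul, toAdd_mul, Int.cast_add, ← ih]
    cases b
    · rw [fox, ex_false, h1, one_mul]
      congr 1
      rw [Int.cast_neg]
      congr 1
      by_cases h2 : y = x <;> simp [h2]
    · rw [fox, ex_true, h1, one_mul]
      congr 1
      by_cases h2 : y = x <;> simp [h2]

theorem cast_inj {G : Type} [Group G] {n : ℤ} (h : (n : MonoidAlgebra ℤ G) = 0) : n = 0 := by
  have h1 := congrArg (MonoidAlgebra.lift ℤ ℤ G (1 : G →* ℤ)) h
  rw [map_intCast, map_zero] at h1
  exact_mod_cast h1

/-- the matrix of exponent sums is injective -/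
theorem inj_int [Fintype ι] (rel : ι → Word X) (h : Contractible rel) (c : ι → ℤ)
    (hc : ∀ x, ∑ i, c i * (ex x (FreeGroup.mk (rel i))).toAdd = 0) : c = 0 := by
  have h1 := h.2 (fun i => (c i : MonoidAlgebra ℤ (Grp rel))) (by
    intro x
    have h2 : ∀ i, (c i : MonoidAlgebra ℤ (Grp rel)) * fox rel x (rel i) =
        ((c i * (ex x (FreeGroup.mk (rel i))).toAdd : ℤ) : MonoidAlgebra ℤ (Grp rel)) := fun i => by
      rw [fox_eq rel h.1, Int.cast_mul]
    rw [Finset.sum_congr rfl fun i _ => h2 i, ← Int.cast_sum, hc x, Int.cast_zero])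
  funext i
  exact cast_inj (congrFun h1 i)

/-- a homomorphism from the free group to an abelian group in terms of exponent sums -/
theorem hom_eq [Fintype X] {A : Type} [AddCommGroup A] (f : FreeGroup X →* Multiplicative A)
    (w : FreeGroup X) : (f w).toAdd = ∑ x, (ex x w).toAdd • (f (FreeGroup.of x)).toAdd := by
  classical
  let P : FreeGroup X →* Multiplicative A :=
    { toFun := fun w => Multiplicative.ofAdd (∑ x, (ex x w).toAdd • (f (FreeGroup.of x)).toAdd)
      map_one' := by
        rw [← ofAdd_zero]
        congr 1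
        apply Finset.sum_eq_zero
        intro x _
        rw [map_one, toAdd_one, zero_smul]
      map_mul' := fun a b => by
        rw [← ofAdd_add]
        congr 1
        rw [← Finset.sum_add_distrib]
        refine Finset.sum_congr rfl fun x _ => ?_
        rw [map_mul (ex x), toAdd_mul, add_smul] }
  have h : f = P := by
    apply FreeGroup.ext_hom
    intro y
    apply Multiplicative.toAdd.injective
    show (f (FreeGroup.of y)).toAdd =
      ∑ x, (ex x (FreeGroup.of y)).toAdd • (f (FreeGroup.of x)).toAdd
    rw [Finset.sum_eq_single y]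
    · have := ex_true y y
      rw [if_pos rfl] at this
      rw [show FreeGroup.of y = FreeGroup.mk [(y, true)] from rfl, this, one_smul]
    · intro x _ hx
      have := ex_true x y
      rw [if_neg (Ne.symm hx)] at this
      rw [show FreeGroup.of y = FreeGroup.mk [(y, true)] from rfl, this, zero_smul]
    · intro h; exact absurd (Finset.mem_univ _) h
  exact congrArg Multiplicative.toAdd (DFunLike.congr_fun h w)

/-- the matrix of exponent sums is surjective -/
theorem surj_int [Fintype X] [Fintype ι] (rel : ι → Word X) (h : Subsingleton (Grp rel))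
    (y : X → ℤ) : ∃ z : ι → ℤ, ∀ x, y x = ∑ i, z i * (ex x (FreeGroup.mk (rel i))).toAdd := by
  classical
  let M : (ι → ℤ) →+ (X → ℤ) :=
    { toFun := fun z x => ∑ i, z i * (ex x (FreeGroup.mk (rel i))).toAdd
      map_zero' := by
        funext x
        simp
      map_add' := fun a b => by
        funext x
        simp [add_mul, Finset.sum_add_distrib] }
  let A : Type := (X → ℤ) ⧸ M.range
  let q : (X → ℤ) →+ A := QuotientAddGroup.mk' M.range
  let f : FreeGroup X →* Multiplicative A :=
    FreeGroup.lift fun x => Multiplicative.ofAdd (q (Pi.single x 1))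
  have hf : ∀ x, (f (FreeGroup.of x)).toAdd = q (Pi.single x 1) := fun x => by
    show (FreeGroup.lift (fun x => Multiplicative.ofAdd (q (Pi.single x 1)))
      (FreeGroup.of x)).toAdd = _
    rw [FreeGroup.lift_apply_of]; rfl
  have hf2 : ∀ w, (f w).toAdd = q (fun x => (ex x w).toAdd) := by
    intro w
    rw [hom_eq f w]
    have h2 : (fun x => (ex x w).toAdd) = ∑ x, (ex x w).toAdd • (Pi.single x (1 : ℤ) : X → ℤ) := by
      funext x
      rw [Finset.sum_apply, Finset.sum_eq_single x]
      · simp
      · intro b _ hb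
        simp [Pi.single_eq_of_ne (Ne.symm hb)]
      · intro h; exact absurd (Finset.mem_univ _) h
    rw [h2, map_sum]
    refine Finset.sum_congr rfl fun x _ => ?_
    rw [hf, map_zsmul]
  have hrel : ∀ r ∈ Set.range (fun i => FreeGroup.mk (rel i)),
      FreeGroup.lift (fun x => Multiplicative.ofAdd (q (Pi.single x 1))) r = 1 := by
    rintro _ ⟨i, rfl⟩
    apply Multiplicative.toAdd.injective
    show (f (FreeGroup.mk (rel i))).toAdd = 0
    rw [hf2]
    refine (QuotientAddGroup.eq_zero_iff _).2 ⟨Pi.single i 1, ?_⟩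
    funext x
    show ∑ j, (Pi.single i 1 : ι → ℤ) j * _ = _
    rw [Finset.sum_eq_single i]
    · rw [Pi.single_eq_same, one_mul]
    · intro b _ hb
      rw [Pi.single_eq_of_ne hb, zero_mul]
    · intro h; exact absurd (Finset.mem_univ _) h
  let Ψ : Grp rel →* Multiplicative A := PresentedGroup.toGroup hrel
  have h0 : ∀ x, q (Pi.single x 1) = 0 := by
    intro x
    have h1 : Ψ (PresentedGroup.mk _ (FreeGroup.of x)) = 1 := by
      rw [Subsingleton.elim (PresentedGroup.mk (Set.range fun i => FreeGroup.mk (rel i))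
        (FreeGroup.of x)) 1, map_one]
    have h2 : Ψ (PresentedGroup.mk _ (FreeGroup.of x)) = f (FreeGroup.of x) := rfl
    rw [h2] at h1
    rw [← hf, h1]; rfl
  have h3 : q y = 0 := by
    have h4 : y = ∑ x, y x • (Pi.single x (1 : ℤ) : X → ℤ) := by
      funext x
      rw [Finset.sum_apply, Finset.sum_eq_single x]
      · simp
      · intro b _ hb
        simp [Pi.single_eq_of_ne (Ne.symm hb)]
      · intro h; exact absurd (Finset.mem_univ _) h
    rw [h4, map_sum]
    apply Finset.sum_eq_zero
    intro x _
    rw [map_zsmul, h0, smul_zero]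
  obtain ⟨z, hz⟩ := (QuotientAddGroup.eq_zero_iff _).1 h3
  exact ⟨z, fun x => (congrFun hz x).symm⟩

/-- **Independence of all rows modulo `p`.** -/
theorem inj_mod [Fintype X] [Fintype ι] (rel : ι → Word X) (h : Contractible rel) (p : ℕ)
    [Fact p.Prime] (c : ι → ZMod p)
    (hc : ∀ ψ : FreeGroup X →* Multiplicative (ZMod p),
      ∑ i, c i * (ψ (FreeGroup.mk (rel i))).toAdd = 0) : c = 0 := by
  classical
  have hp : (p : ℤ) ≠ 0 := by exact_mod_cast (Fact.out : p.Prime).ne_zero
  choose c' hc' using fun i => ZMod.intCast_surjective (c i)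
  have h1 : ∀ x, ∃ y : ℤ, ∑ i, c' i * (ex x (FreeGroup.mk (rel i))).toAdd = p * y := by
    intro x
    have h2 : ∀ w : FreeGroup X, (((ex x w).toAdd : ℤ) : ZMod p) =
        (FreeGroup.lift (fun y => Multiplicative.ofAdd (if y = x then (1 : ZMod p) else 0)) w).toAdd := by
      intro w
      have h3 : (AddMonoidHom.toMultiplicative (Int.castAddHom (ZMod p))).comp (ex x) =
          FreeGroup.lift (fun y => Multiplicative.ofAdd (if y = x then (1 : ZMod p) else 0)) := by
        apply FreeGroup.ext_hom
        intro y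
        rw [FreeGroup.lift_apply_of]
        apply Multiplicative.toAdd.injective
        show (((ex x (FreeGroup.of y)).toAdd : ℤ) : ZMod p) = _
        rw [show FreeGroup.of y = FreeGroup.mk [(y, true)] from rfl, ex_true]
        by_cases h4 : y = x <;> simp [h4]
      exact congrArg Multiplicative.toAdd (DFunLike.congr_fun h3 w)
    have h5 := hc (FreeGroup.lift (fun y => Multiplicative.ofAdd (if y = x then (1 : ZMod p) else 0)))
    have h6 : ((∑ i, c' i * (ex x (FreeGroup.mk (rel i))).toAdd : ℤ) : ZMod p) = 0 := by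
      rw [Int.cast_sum, ← h5]
      refine Finset.sum_congr rfl fun i _ => ?_
      rw [Int.cast_mul, hc', h2]
    obtain ⟨y, hy⟩ := (ZMod.intCast_zmod_eq_zero_iff_dvd _ _).1 h6
    exact ⟨y, hy⟩
  choose y hy using h1
  obtain ⟨z, hz⟩ := surj_int rel h.1 y
  have h7 := inj_int rel h (fun i => c' i - p * z i) (by
    intro x
    have h8 : ∀ i, (c' i - p * z i) * (ex x (FreeGroup.mk (rel i))).toAdd =
        c' i * (ex x (FreeGroup.mk (rel i))).toAdd -
          p * (z i * (ex x (FreeGroup.mk (rel i))).toAdd) := fun i => by ring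
    rw [Finset.sum_congr rfl fun i _ => h8 i, Finset.sum_sub_distrib, hy, ← Finset.mul_sum, ← hz,
      sub_self])
  funext i
  have h9 : c' i = p * z i := sub_eq_zero.1 (congrFun h7 i)
  rw [← hc' i, h9, Int.cast_mul, Int.cast_natCast, ZMod.natCast_self, zero_mul]
  rfl

/-- **Independence of the rows of a subcomplex.** -/
theorem rows_independent {Y κ : Type} [Fintype X] [Fintype Y] [Fintype ι] [Fintype κ]
    (rel : ι → Word X) (extra : κ → Word (X ⊕ Y))
    (h : Contractible (Sum.elim (fun i => (rel i).map (Prod.map Sum.inl id)) extra)) (p : ℕ)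
    [Fact p.Prime] (c : ι → ZMod p)
    (hc : ∀ ψ : FreeGroup X →* Multiplicative (ZMod p),
      ∑ i, c i * (ψ (FreeGroup.mk (rel i))).toAdd = 0) : ∀ i, c i = 0 := by
  have h1 := inj_mod _ h p (Sum.elim c 0) (by
    intro ψ
    rw [Fintype.sum_sum_type]
    simp only [Sum.elim_inl, Sum.elim_inr, Pi.zero_apply, zero_mul, Finset.sum_const_zero, add_zero]
    rw [← hc (ψ.comp (FreeGroup.map Sum.inl))]
    rfl)
  exact fun i => congrFun h1 (Sum.inl i)

end Pool.Agent.RelGap.Contr
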