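import Pool.Agent.FoxAsph.Defs

/-!
# A weight-one group with torsion, and contractible presentation complexes

The group `G = ⟨s, u, t ∣ s³ = u³ = (s u)², (s⁻³ t s² t⁻¹)² = 1⟩`, two elements of the free group on
`s, u, t`, and counterexamples to Whitehead's question in the form of presentations.
-/

set_option autoImplicit false

namespace Pool.Agent.RelGap

open Pool.Agent.FoxAsph

/-- The free group on the three generators `s, u, t`. -/
abbrev F : Type := FreeGroup (Fin 3)

/-- first generator -/
def s : F := FreeGroup.of 0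

/-- second generator -/
def u : F := FreeGroup.of 1

/-- third generator -/
def t : F := FreeGroup.of 2

/-- `z = s³` -/
def z : F := s ^ 3

/-- `e = s³ u⁻³` -/
def e : F := z * (u ^ 3)⁻¹

/-- `d = t s² t⁻¹` -/
def d : F := t * s ^ 2 * t⁻¹

/-- `y = s⁻³ t s² t⁻¹` -/
def y : F := z⁻¹ * d

/-- `f = t e t⁻¹` -/
def f : F := t * e * t⁻¹

/-- `v = (s u)² s⁻³` -/
def v : F := (s * u) ^ 2 * z⁻¹

/-- `w = y² (d z⁻² d⁻¹ · d³ · f⁻¹ · d f⁻¹ d⁻¹ · z f z⁻¹)⁻¹` -/
def w : F := y ^ 2 * (d * (z ^ 2)⁻¹ * d⁻¹ * d ^ 3 * f⁻¹ * (d * f⁻¹ * d⁻¹) * (z * f * z⁻¹))⁻¹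

/-- The normal closure in `F` of `s³ u⁻³`, `(s u)² s⁻³` and `(s⁻³ t s² t⁻¹)²`. -/
def N : Subgroup F := Subgroup.normalClosure {e, v, y ^ 2}

instance : N.Normal := Subgroup.normalClosure_normal

/-- The group `G = F / N`. -/
abbrev G : Type := F ⧸ N

/-- The relators `rel i` together with the relator `r`: the presentation complex of `rel` with one
more 2-cell. -/
def addRel {X ι : Type} (rel : ι → Word X) (r : Word X) : Option ι → Word X
  | none => r
  | some i => rel i

/-- The finite presentation complex of `rel` is contractible: its fundamental group is trivial and the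
second homology of its universal covering is 0. -/
def Contractible {X ι : Type} [Fintype ι] (rel : ι → Word X) : Prop :=
  Subsingleton (Grp rel) ∧ Aspherical rel

/-- There is a finite contractible 2-complex `K` with a connected subcomplex `L` that is not
aspherical, where `K` has one vertex, `n + 1` edges and `n + 1` two-cells, and `L` is `K` without one
two-cell (attached along the word `r`). -/
def Counterexample (n : ℕ) : Prop :=
  ∃ (rel : Fin n → Word (Fin (n + 1))) (r : Word (Fin (n + 1))),
    Contractible (addRel rel r) ∧ ¬ Aspherical rel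

/-- The three relators `s³ u⁻³`, `(s u)² s⁻³`, `(s⁻³ t s² t⁻¹)²` of `G` as reduced words. -/
def relators : Fin 3 → Word (Fin 3) := ![e.toWord, v.toWord, (y ^ 2).toWord]

end Pool.Agent.RelGap
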