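import Pool.Agent.FoxAsph.Kernel
import Pool.Agent.RelGap.Defs

/-!
# Fox derivatives of elements of the normal closure, torsion, contractibility
-/

set_option autoImplicit false

open scoped BigOperators

namespace Pool.Agent.RelGap

open Pool.Agent.FoxAsph MonoidAlgebra

section involution

variable {Q : Type} [Group Q]

theorem coeff_of_mul (g : Q) (a : MonoidAlgebra ℤ Q) (h : Q) :
    (MonoidAlgebra.of ℤ Q g * a).coeff h = a.coeff (g⁻¹ * h) := by
  rw [MonoidAlgebra.of_apply, MonoidAlgebra.coeff_single_mul_apply, one_mul]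

theorem exists_half (g : Q) (hg : g ≠ 1) (hg2 : g * g = 1) (a : MonoidAlgebra ℤ Q) :
    ∃ b : MonoidAlgebra ℤ Q,
      (∀ h, a.coeff (g * h) = a.coeff h → (b + MonoidAlgebra.of ℤ Q g * b).coeff h = a.coeff h) ∧
      (∀ h, a.coeff (g * h) = - a.coeff h → (b - MonoidAlgebra.of ℤ Q g * b).coeff h = a.coeff h) := by
  classical
  have hgi : g⁻¹ = g := inv_eq_of_mul_eq_one_right hg2
  have hne : ∀ h : Q, h ≠ g * h := fun h e => hg (by
    have : g * h = 1 * h := by rw [one_mul]; exact e.symm
    exact mul_right_cancel this)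
  have hgg : ∀ h : Q, g * (g * h) = h := fun h => by rw [← mul_assoc, hg2, one_mul]
  let T : Q → Prop := fun h => WellOrderingRel h (g * h)
  have hT : ∀ h, (T h ∧ ¬ T (g * h)) ∨ (¬ T h ∧ T (g * h)) := by
    intro h
    have h1 : T (g * h) ↔ WellOrderingRel (g * h) h := by
      show WellOrderingRel (g * h) (g * (g * h)) ↔ _
      rw [hgg]
    rw [h1]
    rcases trichotomous_of WellOrderingRel h (g * h) with h2 | h2 | h2
    · exact Or.inl ⟨h2, fun h3 => asymm h2 h3⟩
    · exact absurd h2 (hne h)
    · exact Or.inr ⟨fun h3 => asymm h2 h3, h2⟩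
  refine ⟨MonoidAlgebra.ofCoeff (a.coeff.filter T), ?_, ?_⟩
  · intro h hh
    rw [MonoidAlgebra.coeff_add, Finsupp.add_apply, coeff_of_mul, hgi]
    show (a.coeff.filter T) h + (a.coeff.filter T) (g * h) = _
    rcases hT h with ⟨h1, h2⟩ | ⟨h1, h2⟩
    · rw [Finsupp.filter_apply_pos T _ h1, Finsupp.filter_apply_neg T _ h2, add_zero]
    · rw [Finsupp.filter_apply_neg T _ h1, Finsupp.filter_apply_pos T _ h2, zero_add, hh]
  · intro h hh
    rw [MonoidAlgebra.coeff_sub, Finsupp.sub_apply, coeff_of_mul, hgi]
    show (a.coeff.filter T) h - (a.coeff.filter T) (g * h) = _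
    rcases hT h with ⟨h1, h2⟩ | ⟨h1, h2⟩
    · rw [Finsupp.filter_apply_pos T _ h1, Finsupp.filter_apply_neg T _ h2, sub_zero]
    · rw [Finsupp.filter_apply_neg T _ h1, Finsupp.filter_apply_pos T _ h2, zero_sub, hh, neg_neg]

theorem exists_add (g : Q) (hg : g ≠ 1) (hg2 : g * g = 1) (a : MonoidAlgebra ℤ Q)
    (ha : (1 - MonoidAlgebra.of ℤ Q g) * a = 0) :
    ∃ b, a = (1 + MonoidAlgebra.of ℤ Q g) * b := by
  have hgi : g⁻¹ = g := inv_eq_of_mul_eq_one_right hg2
  obtain ⟨b, hb, _⟩ := exists_half g hg hg2 a
  refine ⟨b, ?_⟩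
  rw [sub_mul, one_mul, sub_eq_zero] at ha
  apply MonoidAlgebra.ext
  apply Finsupp.ext
  intro h
  rw [add_mul, one_mul]
  refine (hb h ?_).symm
  have := congrArg (fun x : MonoidAlgebra ℤ Q => x.coeff h) ha
  simp only [coeff_of_mul, hgi] at this
  exact this.symm

theorem exists_sub (g : Q) (hg : g ≠ 1) (hg2 : g * g = 1) (a : MonoidAlgebra ℤ Q)
    (ha : (1 + MonoidAlgebra.of ℤ Q g) * a = 0) :
    ∃ b, a = (1 - MonoidAlgebra.of ℤ Q g) * b := by
  have hgi : g⁻¹ = g := inv_eq_of_mul_eq_one_right hg2
  obtain ⟨b, _, hb⟩ := exists_half g hg hg2 a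
  refine ⟨b, ?_⟩
  rw [add_mul, one_mul, add_eq_zero_iff_eq_neg] at ha
  apply MonoidAlgebra.ext
  apply Finsupp.ext
  intro h
  rw [sub_mul, one_mul]
  refine (hb h ?_).symm
  have := congrArg (fun x : MonoidAlgebra ℤ Q => x.coeff h) ha
  rw [MonoidAlgebra.coeff_neg, Finsupp.neg_apply, coeff_of_mul, hgi] at this
  rw [this, neg_neg]

end involution

variable {X ι : Type}

theorem val_inv_letter (rel : ι → Word X) (x : X) :
    val rel [(x, false)] = (val rel [(x, true)])⁻¹ := by
  rw [eq_inv_iff_mul_eq_one, ← val_append]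
  unfold val
  have : FreeGroup.mk ([(x, false)] ++ [(x, true)]) = 1 := by
    rw [← FreeGroup.mul_mk, FreeGroup.one_eq_mk]
    have h : FreeGroup.mk [(x, false)] = (FreeGroup.mk [(x, true)])⁻¹ := by
      rw [FreeGroup.inv_mk]; rfl
    rw [h, inv_mul_cancel]
    rfl
  rw [this, map_one]

/-- the row of Fox derivatives of a word -/
noncomputable def row (rel : ι → Word X) (w : Word X) : X → MonoidAlgebra ℤ (Grp rel) :=
  fun x => fox rel x w

theorem fox_append (rel : ι → Word X) (x : X) (a b : Word X) :
    fox rel x (a ++ b) = fox rel x a + MonoidAlgebra.of ℤ (Grp rel) (val rel a) * fox rel x b := by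
  induction a with
  | nil => rw [List.nil_append, val_nil, map_one, one_mul, fox, zero_add]
  | cons l a ih =>
    obtain ⟨y, b'⟩ := l
    cases b' with
    | true =>
      rw [List.cons_append, fox, fox, ih, val_cons rel (y, true) a, map_mul]
      simp only [mul_add, mul_assoc, add_assoc]
    | false =>
      rw [List.cons_append, fox, fox, ih, val_cons rel (y, false) a, map_mul]
      simp only [mul_add, mul_assoc, add_assoc]

theorem fox_cancel (rel : ι → Word X) (x y : X) (b : Bool) : fox rel x [(y, b), (y, !b)] = 0 := by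
  cases b with
  | true =>
    show fox rel x [(y, true), (y, false)] = 0
    simp only [fox, mul_zero, add_zero]
    by_cases h : y = x
    · simp only [if_pos h]
      rw [mul_neg, ← map_mul, val_inv_letter, mul_inv_cancel, map_one, add_neg_cancel]
    · simp only [if_neg h, neg_zero, mul_zero, add_zero]
  | false =>
    show fox rel x [(y, false), (y, true)] = 0
    simp only [fox, mul_zero, add_zero]
    by_cases h : y = x
    · simp only [if_pos h]
      rw [mul_one, neg_add_cancel]
    · simp only [if_neg h, neg_zero, mul_zero, add_zero]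

theorem val_cancel (rel : ι → Word X) (y : X) (b : Bool) : val rel [(y, b), (y, !b)] = 1 := by
  have : ([(y, b), (y, !b)] : Word X) = [(y, b)] ++ [(y, !b)] := rfl
  rw [this, val_append]
  cases b with
  | true =>
    show val rel [(y, true)] * val rel [(y, false)] = 1
    rw [val_inv_letter, mul_inv_cancel]
  | false =>
    show val rel [(y, false)] * val rel [(y, true)] = 1
    rw [val_inv_letter, inv_mul_cancel]

/-- Fox derivatives of elements of the free group -/
noncomputable def D (rel : ι → Word X) : FreeGroup X → (X → MonoidAlgebra ℤ (Grp rel)) :=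
  Quot.lift (row rel) (by
    intro a b h
    funext x
    rcases h with ⟨⟩
    rename_i L₁ L₂ y b'
    show fox rel x (L₁ ++ (y, b') :: (y, !b') :: L₂) = fox rel x (L₁ ++ L₂)
    have h1 : (L₁ ++ (y, b') :: (y, !b') :: L₂ : Word X) = L₁ ++ ([(y, b'), (y, !b')] ++ L₂) := rfl
    rw [h1, fox_append, fox_append, fox_append rel x L₁ L₂, fox_cancel, val_cancel, zero_add, map_one,
      one_mul])

theorem D_mk (rel : ι → Word X) (w : Word X) : D rel (FreeGroup.mk w) = row rel w := rfl

/-- the value of an element of the free group -/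
def valF (rel : ι → Word X) : FreeGroup X →* Grp rel := PresentedGroup.mk _

theorem D_mul (rel : ι → Word X) (a b : FreeGroup X) :
    D rel (a * b) = D rel a + MonoidAlgebra.of ℤ (Grp rel) (valF rel a) • D rel b := by
  induction a using Quot.induction_on with | _ a =>
  induction b using Quot.induction_on with | _ b =>
  show D rel (FreeGroup.mk a * FreeGroup.mk b) = D rel (FreeGroup.mk a) +
    MonoidAlgebra.of ℤ (Grp rel) (valF rel (FreeGroup.mk a)) • D rel (FreeGroup.mk b)
  rw [FreeGroup.mul_mk, D_mk, D_mk, D_mk]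
  funext x
  exact fox_append rel x a b

theorem D_one (rel : ι → Word X) : D rel 1 = 0 := by
  rw [FreeGroup.one_eq_mk, D_mk]
  funext x
  rfl

theorem D_inv (rel : ι → Word X) (a : FreeGroup X) :
    D rel a⁻¹ = - (MonoidAlgebra.of ℤ (Grp rel) (valF rel a)⁻¹ • D rel a) := by
  have h := D_mul rel a⁻¹ a
  rw [inv_mul_cancel, D_one, map_inv] at h
  rw [eq_neg_iff_add_eq_zero, ← h]

/-- Fox derivatives of elements with trivial value: closure properties -/
def closed (rel : ι → Word X) (S : Submodule (MonoidAlgebra ℤ (Grp rel))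
    (X → MonoidAlgebra ℤ (Grp rel))) : Subgroup (FreeGroup X) where
  carrier := {a | valF rel a = 1 ∧ D rel a ∈ S}
  one_mem' := ⟨map_one _, by rw [D_one]; exact S.zero_mem⟩
  mul_mem' := by
    rintro a b ⟨ha, ha'⟩ ⟨hb, hb'⟩
    refine ⟨by rw [map_mul, ha, hb, one_mul], ?_⟩
    rw [D_mul]
    exact S.add_mem ha' (S.smul_mem _ hb')
  inv_mem' := by
    rintro a ⟨ha, ha'⟩
    refine ⟨by rw [map_inv, ha, inv_one], ?_⟩
    rw [D_inv]
    exact S.neg_mem (S.smul_mem _ ha')

theorem D_conj (rel : ι → Word X) (g a : FreeGroup X) (ha : valF rel a = 1) :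
    D rel (g * a * g⁻¹) = MonoidAlgebra.of ℤ (Grp rel) (valF rel g) • D rel a := by
  rw [D_mul, D_mul, D_inv, map_mul, ha, mul_one, smul_neg, smul_smul, ← map_mul, mul_inv_cancel,
    map_one, one_smul]
  abel

instance closed_normal (rel : ι → Word X) (S : Submodule (MonoidAlgebra ℤ (Grp rel))
    (X → MonoidAlgebra ℤ (Grp rel))) : (closed rel S).Normal where
  conj_mem := by
    rintro a ⟨ha, ha'⟩ g
    refine ⟨by rw [map_mul, map_mul, ha, mul_one, map_inv, mul_inv_cancel], ?_⟩
    rw [D_conj rel g a ha]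
    exact S.smul_mem _ ha'

theorem valF_rel (rel : ι → Word X) (i : ι) : valF rel (FreeGroup.mk (rel i)) = 1 :=
  PresentedGroup.one_of_mem ⟨i, rfl⟩

theorem valF_eq_one_iff (rel : ι → Word X) (a : FreeGroup X) :
    valF rel a = 1 ↔ a ∈ Subgroup.normalClosure (Set.range fun i => FreeGroup.mk (rel i)) :=
  QuotientGroup.eq_one_iff a

/-- the Fox derivatives of an element with trivial value are in the module generated by the rows of
the relators -/
theorem D_mem_of_rel (rel : ι → Word X) (S : Submodule (MonoidAlgebra ℤ (Grp rel))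
    (X → MonoidAlgebra ℤ (Grp rel))) (hS : ∀ i, row rel (rel i) ∈ S) (a : FreeGroup X)
    (ha : valF rel a = 1) : D rel a ∈ S := by
  have h : Subgroup.normalClosure (Set.range fun i => FreeGroup.mk (rel i)) ≤ closed rel S := by
    apply Subgroup.normalClosure_le_normal
    rintro _ ⟨i, rfl⟩
    exact ⟨valF_rel rel i, hS i⟩
  exact (h ((valF_eq_one_iff rel a).mp ha)).2

theorem valF_surjective (rel : ι → Word X) : Function.Surjective (valF rel) :=
  QuotientGroup.mk'_surjective _

/-- the fundamental formula of the Fox calculus -/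
theorem fundamental [Fintype X] (rel : ι → Word X) (w : Word X) :
    ∑ x, fox rel x w * (MonoidAlgebra.of ℤ (Grp rel) (val rel [(x, true)]) - 1) =
      MonoidAlgebra.of ℤ (Grp rel) (val rel w) - 1 := by
  classical
  induction w with
  | nil => simp only [fox, zero_mul, Finset.sum_const_zero, val_nil, map_one, sub_self]
  | cons l w ih =>
    obtain ⟨y, b⟩ := l
    rw [val_cons]
    cases b with
    | true =>
      simp only [fox, add_mul, mul_assoc]
      rw [Finset.sum_add_distrib, ← Finset.mul_sum, ih, Finset.sum_eq_single y]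
      · rw [if_pos rfl, one_mul, mul_sub, mul_one, map_mul]
        abel
      · intro x _ hx
        rw [if_neg (fun h => hx h.symm), zero_mul]
      · intro h; exact absurd (Finset.mem_univ y) h
    | false =>
      simp only [fox, add_mul, mul_assoc]
      rw [Finset.sum_add_distrib, ← Finset.mul_sum, ih, Finset.sum_eq_single y]
      · rw [if_pos rfl, mul_sub, mul_one, map_mul, neg_mul, mul_sub, mul_one, ← map_mul,
          val_inv_letter, inv_mul_cancel, map_one]
        abel
      · intro x _ hx
        rw [if_neg (fun h => hx h.symm), neg_zero, zero_mul]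
      · intro h; exact absurd (Finset.mem_univ y) h

end Pool.Agent.RelGap
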