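import Pool.Agent.RelGap.Fox

/-!
# Torsion makes the Fox rows dependent; balanced presentations of the trivial group are contractible
-/

set_option autoImplicit false

open scoped BigOperators

namespace Pool.Agent.RelGap

open Pool.Agent.FoxAsph MonoidAlgebra

variable {X ι : Type}

/-- augmentation -/
noncomputable def aug (Q : Type) [Group Q] : MonoidAlgebra ℤ Q →+* ℤ :=
  (MonoidAlgebra.lift ℤ ℤ Q (1 : Q →* ℤ)).toRingHom

theorem aug_of (Q : Type) [Group Q] (g : Q) : aug Q (MonoidAlgebra.of ℤ Q g) = 1 := by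
  unfold aug
  simp

theorem fundamentalF [Fintype X] (rel : ι → Word X) (a : FreeGroup X) :
    ∑ x, D rel a x * (MonoidAlgebra.of ℤ (Grp rel) (val rel [(x, true)]) - 1) =
      MonoidAlgebra.of ℤ (Grp rel) (valF rel a) - 1 := by
  induction a using Quot.induction_on with | _ a =>
  exact fundamental rel a

theorem dependent [Fintype X] {κ : Type} [Fintype κ] (rel : ι → Word X) (m : κ → FreeGroup X)
    (hm : ∀ k, valF rel (m k) = 1)
    (hspan : ∀ i, row rel (rel i) ∈ Submodule.span (MonoidAlgebra ℤ (Grp rel))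
      (Set.range fun k => D rel (m k)))
    (g : Grp rel) (hg : g ≠ 1) (hg2 : g * g = 1) :
    ∃ z : κ → MonoidAlgebra ℤ (Grp rel), z ≠ 0 ∧ ∑ k, z k • D rel (m k) = 0 := by
  classical
  by_contra hcon
  have hinj : ∀ z : κ → MonoidAlgebra ℤ (Grp rel), ∑ k, z k • D rel (m k) = 0 → z = 0 := by
    intro z hz
    by_contra hne
    exact hcon ⟨z, hne, hz⟩
  obtain ⟨W, hW⟩ := valF_surjective rel g
  have hWW : valF rel (W * W) = 1 := by rw [map_mul, hW, hg2]
  have hmem := D_mem_of_rel rel _ hspan (W * W) hWW
  rw [Submodule.mem_span_range_iff_exists_fun] at hmem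
  obtain ⟨a, ha⟩ := hmem
  have hD : D rel (W * W) = (1 + MonoidAlgebra.of ℤ (Grp rel) g) • D rel W := by
    rw [D_mul, hW, add_smul, one_smul]
  rw [hD] at ha
  set γ := MonoidAlgebra.of ℤ (Grp rel) g with hγ
  have hγγ : γ * γ = 1 := by rw [hγ, ← map_mul, hg2, map_one]
  have h1 : (1 - γ) * (1 + γ) = 0 := by
    rw [mul_add, sub_mul, sub_mul, hγγ]
    simp
  have ha0 : ∀ k, (1 - γ) * a k = 0 := by
    have := hinj (fun k => (1 - γ) * a k) (by
      have h2 := congrArg (fun x => (1 - γ) • x) ha
      simp only [Finset.smul_sum, smul_smul, h1, zero_smul] at h2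
      exact h2)
    intro k
    exact congrFun this k
  choose b hb using fun k => exists_add g hg hg2 (a k) (ha0 k)
  have h3 : (1 + γ) • (D rel W - ∑ k, b k • D rel (m k)) = 0 := by
    rw [smul_sub, ← ha, Finset.smul_sum, sub_eq_zero]
    refine Finset.sum_congr rfl (fun k _ => ?_)
    rw [smul_smul]
    congr 1
    exact hb k
  have h4 : ∀ x, (1 + γ) * (D rel W - ∑ k, b k • D rel (m k)) x = 0 := fun x => congrFun h3 x
  choose c hc using fun x => exists_sub g hg hg2 _ (h4 x)
  have h5 : ∑ x, (D rel W - ∑ k, b k • D rel (m k)) x *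
      (MonoidAlgebra.of ℤ (Grp rel) (val rel [(x, true)]) - 1) = γ - 1 := by
    have h6 : ∀ x, (D rel W - ∑ k, b k • D rel (m k)) x *
        (MonoidAlgebra.of ℤ (Grp rel) (val rel [(x, true)]) - 1) =
        D rel W x * (MonoidAlgebra.of ℤ (Grp rel) (val rel [(x, true)]) - 1) -
        ∑ k, b k * (D rel (m k) x * (MonoidAlgebra.of ℤ (Grp rel) (val rel [(x, true)]) - 1)) := by
      intro x
      rw [Pi.sub_apply, Finset.sum_apply, sub_mul, Finset.sum_mul]
      congr 1
      refine Finset.sum_congr rfl (fun k _ => ?_)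
      rw [Pi.smul_apply, smul_eq_mul, mul_assoc]
    rw [Finset.sum_congr rfl (fun x _ => h6 x), Finset.sum_sub_distrib, fundamentalF, hW,
      Finset.sum_comm]
    have h7 : ∀ k, ∑ x, b k * (D rel (m k) x *
        (MonoidAlgebra.of ℤ (Grp rel) (val rel [(x, true)]) - 1)) = 0 := by
      intro k
      rw [← Finset.mul_sum, fundamentalF, hm, map_one, sub_self, mul_zero]
    rw [Finset.sum_congr rfl (fun k _ => h7 k), Finset.sum_const_zero, sub_zero]
  have h8 : (1 - γ) * (1 + ∑ x, c x *
      (MonoidAlgebra.of ℤ (Grp rel) (val rel [(x, true)]) - 1)) = 0 := by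
    have h9 : ∑ x, (D rel W - ∑ k, b k • D rel (m k)) x *
        (MonoidAlgebra.of ℤ (Grp rel) (val rel [(x, true)]) - 1) =
        (1 - γ) * ∑ x, c x * (MonoidAlgebra.of ℤ (Grp rel) (val rel [(x, true)]) - 1) := by
      rw [Finset.mul_sum]
      refine Finset.sum_congr rfl (fun x _ => ?_)
      rw [hc x, mul_assoc]
    rw [mul_add, mul_one, ← h9, h5]
    abel
  obtain ⟨b', hb'⟩ := exists_add g hg hg2 _ h8
  have h10 := congrArg (aug (Grp rel)) hb'
  rw [map_mul, map_add, map_add, map_one, map_sum, aug_of] at h10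
  have h11 : ∀ x, aug (Grp rel) (c x * (MonoidAlgebra.of ℤ (Grp rel) (val rel [(x, true)]) - 1)) = 0 := by
    intro x
    rw [map_mul, map_sub, aug_of, map_one, sub_self, mul_zero]
  rw [Finset.sum_congr rfl (fun x _ => h11 x), Finset.sum_const_zero] at h10
  omega

/-- A presentation of a group with an element of order two is not aspherical. -/
theorem not_aspherical [Fintype X] [Fintype ι] (rel : ι → Word X) (g : Grp rel) (hg : g ≠ 1)
    (hg2 : g * g = 1) : ¬ Aspherical rel := by
  intro h
  obtain ⟨z, hz, hz0⟩ := dependent rel (fun i => FreeGroup.mk (rel i)) (fun i => valF_rel rel i)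
    (fun i => Submodule.subset_span ⟨i, rfl⟩) g hg hg2
  apply hz
  apply h
  intro x
  have := congrFun hz0 x
  rw [Finset.sum_apply] at this
  exact this

theorem aspherical_of_trivial [Fintype X] [Fintype ι] (rel : ι → Word X)
    (hcard : Fintype.card ι = Fintype.card X) (hsub : Subsingleton (Grp rel)) : Aspherical rel := by
  classical
  have hinj : ∀ a : MonoidAlgebra ℤ (Grp rel), aug (Grp rel) a = 0 → a = 0 := by
    intro a ha
    have h1 : a = MonoidAlgebra.single 1 (a.coeff 1) := by
      apply MonoidAlgebra.ext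
      apply Finsupp.ext
      intro h
      rw [Subsingleton.elim h 1, MonoidAlgebra.coeff_single]
      simp
    have h2 : aug (Grp rel) (MonoidAlgebra.single 1 (a.coeff 1)) = a.coeff 1 := by
      unfold aug
      simp
    rw [h1] at ha
    rw [h2] at ha
    rw [h1, ha, MonoidAlgebra.single_zero]
  let L : (ι → ℤ) →ₗ[ℤ] (X → ℤ) :=
    { toFun := fun z x => ∑ i, z i * aug (Grp rel) (fox rel x (rel i))
      map_add' := by
        intro a b
        funext x
        simp only [Pi.add_apply, add_mul, Finset.sum_add_distrib]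
      map_smul' := by
        intro r a
        funext x
        simp only [Pi.smul_apply, smul_eq_mul, RingHom.id_apply, mul_assoc, Finset.mul_sum] }
  have hL : ∀ z x, L z x = ∑ i, z i * aug (Grp rel) (fox rel x (rel i)) := fun z x => rfl
  have hgen : ∀ x0 : X, ∃ a : ι → ℤ, L a = Pi.single x0 1 := by
    intro x0
    have hv : valF rel (FreeGroup.mk [(x0, true)]) = 1 := Subsingleton.elim _ _
    have hmem := D_mem_of_rel rel (Submodule.span (MonoidAlgebra ℤ (Grp rel))
      (Set.range fun i => row rel (rel i))) (fun i => Submodule.subset_span ⟨i, rfl⟩) _ hv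
    rw [Submodule.mem_span_range_iff_exists_fun] at hmem
    obtain ⟨a, ha⟩ := hmem
    refine ⟨fun i => aug _ (a i), ?_⟩
    funext x
    have h := congrArg (aug (Grp rel)) (congrFun ha x)
    rw [Finset.sum_apply, map_sum] at h
    rw [hL]
    have h2 : ∀ i, aug (Grp rel) ((a i • row rel (rel i)) x) =
        aug (Grp rel) (a i) * aug (Grp rel) (fox rel x (rel i)) := by
      intro i
      rw [Pi.smul_apply, smul_eq_mul, map_mul]
      rfl
    rw [Finset.sum_congr rfl (fun i _ => h2 i)] at h
    rw [h]
    show aug (Grp rel) (fox rel x [(x0, true)]) = _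
    simp only [fox, mul_zero, add_zero]
    by_cases hx : x0 = x
    · rw [if_pos hx, map_one, hx, Pi.single_eq_same]
    · rw [if_neg hx, map_zero, Pi.single_eq_of_ne (fun h => hx h.symm)]
  have hsurj : Function.Surjective L := by
    intro y
    choose a ha using hgen
    refine ⟨∑ x0, y x0 • a x0, ?_⟩
    rw [map_sum]
    simp only [map_smul, ha]
    funext x
    rw [Finset.sum_apply, Finset.sum_eq_single x]
    · rw [Pi.smul_apply, Pi.single_eq_same, smul_eq_mul, mul_one]
    · intro x0 _ hx0
      rw [Pi.smul_apply, Pi.single_eq_of_ne (fun h => hx0 h.symm), smul_zero]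
    · intro h; exact absurd (Finset.mem_univ x) h
  have heq : Nonempty (X ≃ ι) := Fintype.card_eq.mp hcard.symm
  obtain ⟨eq⟩ := heq
  let E : (X → ℤ) ≃ₗ[ℤ] (ι → ℤ) := LinearEquiv.funCongrLeft ℤ ℤ eq.symm
  have hinjL : Function.Injective L := by
    have h1 : Function.Surjective (L.comp (E : (X → ℤ) →ₗ[ℤ] (ι → ℤ))) := by
      rw [LinearMap.coe_comp]
      exact hsurj.comp E.surjective
    have h2 := OrzechProperty.injective_of_surjective_endomorphism _ h1
    intro a b hab
    have h3 := @h2 (E.symm a) (E.symm b) (by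
      simp only [LinearMap.comp_apply, LinearEquiv.coe_coe, LinearEquiv.apply_symm_apply]
      exact hab)
    exact E.symm.injective h3
  intro z hz
  have h0 : L (fun i => aug _ (z i)) = 0 := by
    funext x
    rw [hL]
    have h := congrArg (aug (Grp rel)) (hz x)
    rw [map_sum, map_zero] at h
    rw [Pi.zero_apply, ← h]
    refine Finset.sum_congr rfl (fun i _ => ?_)
    rw [map_mul]
  have h1 := hinjL (h0.trans (map_zero L).symm)
  funext i
  exact hinj _ (congrFun h1 i)

/-- A presentation with one relator less than generators, of a group that is trivial after adding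
one more relator, gives a contractible complex with this relator. -/
theorem contractible_addRel {n : ℕ} (rel : Fin n → Word (Fin (n + 1))) (r : Word (Fin (n + 1)))
    (h : Subsingleton (Grp (addRel rel r))) : Contractible (addRel rel r) := by
  refine ⟨h, aspherical_of_trivial _ ?_ h⟩
  simp

end Pool.Agent.RelGap
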