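import Pool.Agent.RelGap.Final

/-!
# Exactness of the Fox complex at the generators

For a presentation of a group `Q` with finitely many generators, a vector `r` over `ℤ[Q]` with
`∑ r x * (x - 1) = 0` lies in every submodule that contains the Fox rows of all elements with trivial
value. For the group `G` this submodule can be taken to be generated by the rows of `v` and `w`.
-/

set_option autoImplicit false

open scoped BigOperators

namespace Pool.Agent.RelGap

open Pool.Agent.FoxAsph MonoidAlgebra

variable {X ι : Type}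

theorem D_of [DecidableEq X] (rel : ι → Word X) (x : X) :
    D rel (FreeGroup.of x) = Pi.single x 1 := by
  funext x'
  show fox rel x' [(x, true)] = _
  unfold fox fox
  rw [mul_zero, add_zero]
  by_cases h : x = x'
  · rw [h, if_pos rfl, Pi.single_eq_same]
  · rw [if_neg h, Pi.single_eq_of_ne (fun h' => h h'.symm)]

/-- exactness of `ℤ[Q]^κ → ℤ[Q]^X → ℤ[Q]` in the middle -/
theorem exact_general [Fintype X] (rel : ι → Word X)
    (S : Submodule (MonoidAlgebra ℤ (Grp rel)) (X → MonoidAlgebra ℤ (Grp rel)))
    (hS : ∀ a, valF rel a = 1 → D rel a ∈ S) (r : X → MonoidAlgebra ℤ (Grp rel))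
    (hr : ∑ x, r x * (MonoidAlgebra.of ℤ (Grp rel) (val rel [(x, true)]) - 1) = 0) : r ∈ S := by
  classical
  let σ : Grp rel → FreeGroup X := Function.surjInv (valF_surjective rel)
  have hσ : ∀ g, valF rel (σ g) = g := Function.surjInv_eq (valF_surjective rel)
  let lam : Grp rel → (X → MonoidAlgebra ℤ (Grp rel)) ⧸ S := fun g => S.mkQ (D rel (σ g))
  have hlam : ∀ a, S.mkQ (D rel a) = lam (valF rel a) := by
    intro a
    show S.mkQ (D rel a) = S.mkQ (D rel (σ (valF rel a)))
    have h1 : D rel a = D rel (σ (valF rel a)) +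
        MonoidAlgebra.of ℤ (Grp rel) (valF rel a) • D rel ((σ (valF rel a))⁻¹ * a) := by
      conv_lhs => rw [← mul_inv_cancel_left (σ (valF rel a)) a]
      rw [D_mul, hσ]
    have h2 : D rel ((σ (valF rel a))⁻¹ * a) ∈ S := by
      apply hS
      rw [map_mul, map_inv, hσ, inv_mul_cancel]
    rw [h1, map_add, map_smul]
    have h3 : S.mkQ (D rel ((σ (valF rel a))⁻¹ * a)) = 0 := by
      rw [Submodule.mkQ_apply, Submodule.Quotient.mk_eq_zero]; exact h2
    rw [h3, smul_zero, add_zero]
  have hmul : ∀ g h, lam (g * h) = lam g + MonoidAlgebra.of ℤ (Grp rel) g • lam h := by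
    intro g h
    have h1 := hlam (σ g * σ h)
    rw [map_mul, hσ, hσ] at h1
    rw [← h1, D_mul, hσ, map_add, map_smul]
  let Lam : MonoidAlgebra ℤ (Grp rel) →+ (X → MonoidAlgebra ℤ (Grp rel)) ⧸ S :=
    (Finsupp.liftAddHom fun g => zmultiplesHom _ (lam g)).comp coeffAddEquiv.toAddMonoidHom
  have hLam : ∀ (g : Grp rel) (n : ℤ), Lam (single g n) = n • lam g := by
    intro g n
    show Finsupp.liftAddHom (fun g => zmultiplesHom _ (lam g)) (Finsupp.single g n) = _
    rw [Finsupp.liftAddHom_apply_single, zmultiplesHom_apply]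
  have hkey : ∀ (h : Grp rel) (α : MonoidAlgebra ℤ (Grp rel)),
      Lam (α * (MonoidAlgebra.of ℤ (Grp rel) h - 1)) = α • lam h := by
    intro h α
    induction α using MonoidAlgebra.induction_linear with
    | zero => rw [zero_mul, map_zero, zero_smul]
    | add a b ha hb => rw [add_mul, map_add, ha, hb, add_smul]
    | single g n =>
      have h1 : (single g n : MonoidAlgebra ℤ (Grp rel)) * (MonoidAlgebra.of ℤ (Grp rel) h - 1) =
          single (g * h) n - single g n := by
        rw [mul_sub, mul_one, MonoidAlgebra.of_apply, MonoidAlgebra.single_mul_single, mul_one]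
      have h2 : (single g n : MonoidAlgebra ℤ (Grp rel)) =
          n • MonoidAlgebra.of ℤ (Grp rel) g := by
        rw [MonoidAlgebra.of_apply, MonoidAlgebra.smul_single, smul_eq_mul, mul_one]
      rw [h1, map_sub, hLam, hLam, hmul, smul_add, add_sub_cancel_left, h2, smul_assoc]
  have h1 : Lam (∑ x, r x * (MonoidAlgebra.of ℤ (Grp rel) (val rel [(x, true)]) - 1)) = 0 := by
    rw [hr, map_zero]
  rw [map_sum] at h1
  have h2 : ∀ x, Lam (r x * (MonoidAlgebra.of ℤ (Grp rel) (val rel [(x, true)]) - 1)) =
      S.mkQ (r x • Pi.single x 1) := by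
    intro x
    rw [hkey, map_smul, ← D_of rel x, hlam]
    rfl
  rw [Finset.sum_congr rfl fun x _ => h2 x, ← map_sum] at h1
  have h3 : ∑ x, r x • (Pi.single x 1 : X → MonoidAlgebra ℤ (Grp rel)) = r := by
    funext y
    rw [Finset.sum_apply, Finset.sum_eq_single y]
    · rw [Pi.smul_apply, Pi.single_eq_same, smul_eq_mul, mul_one]
    · intro x _ hx
      rw [Pi.smul_apply, Pi.single_eq_of_ne (fun h => hx h.symm), smul_zero]
    · intro h; exact absurd (Finset.mem_univ y) h
  rw [h3, Submodule.mkQ_apply, Submodule.Quotient.mk_eq_zero] at h1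
  exact h1

/-- The rows of `v` and `w` generate the kernel of `ℤ[G]³ → ℤ[G]`, `r ↦ ∑ r x * (x - 1)`: together
with this map they form an algebraic 2-complex `ℤ[G]² → ℤ[G]³ → ℤ[G]` of Euler characteristic `0`. -/
theorem exact_vw (r : Fin 3 → MonoidAlgebra ℤ (Grp relators)) :
    ∑ x, r x * (MonoidAlgebra.of ℤ (Grp relators) (val relators [(x, true)]) - 1) = 0 ↔
      ∃ a b : MonoidAlgebra ℤ (Grp relators), ∀ x,
        r x = a * fox relators x v.toWord + b * fox relators x w.toWord := by
  constructor
  · intro hr
    have h := exact_general relators (Submodule.span _ {D relators v, D relators w})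
      (fun a ha => span_vw _ (Submodule.subset_span (by simp)) (Submodule.subset_span (by simp)) a
        ((valF_iff a).mp ha)) r hr
    rw [Submodule.mem_span_pair] at h
    obtain ⟨a, b, hab⟩ := h
    refine ⟨a, b, fun x => ?_⟩
    have h1 := congrFun hab x
    rw [← row_toWord, ← row_toWord] at h1
    exact h1.symm
  · rintro ⟨a, b, hab⟩
    have hv : ∑ x, fox relators x v.toWord *
        (MonoidAlgebra.of ℤ (Grp relators) (val relators [(x, true)]) - 1) = 0 := by
      rw [fundamental]
      have h1 : val relators v.toWord = 1 := by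
        have h2 := (valF_iff v).mpr v_mem
        rw [← FreeGroup.mk_toWord (x := v)] at h2
        exact h2
      rw [h1, map_one, sub_self]
    have hw : ∑ x, fox relators x w.toWord *
        (MonoidAlgebra.of ℤ (Grp relators) (val relators [(x, true)]) - 1) = 0 := by
      rw [fundamental]
      have h1 : val relators w.toWord = 1 := by
        have h2 := (valF_iff w).mpr w_mem
        rw [← FreeGroup.mk_toWord (x := w)] at h2
        exact h2
      rw [h1, map_one, sub_self]
    have h3 : ∀ x, r x * (MonoidAlgebra.of ℤ (Grp relators) (val relators [(x, true)]) - 1) =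
        a * (fox relators x v.toWord *
          (MonoidAlgebra.of ℤ (Grp relators) (val relators [(x, true)]) - 1)) +
        b * (fox relators x w.toWord *
          (MonoidAlgebra.of ℤ (Grp relators) (val relators [(x, true)]) - 1)) := by
      intro x
      rw [hab x, add_mul, mul_assoc, mul_assoc]
    rw [Finset.sum_congr rfl fun x _ => h3 x, Finset.sum_add_distrib, ← Finset.mul_sum,
      ← Finset.mul_sum, hv, hw, mul_zero, mul_zero, add_zero]

end Pool.Agent.RelGap
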