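import Pool.Agent.RelGap.Module

/-!
# `G` has an element of order two
-/

set_option autoImplicit false

namespace Pool.Agent.RelGap

/-- permutation for `s` -/
def ps : Equiv.Perm (Fin 8) :=
  ⟨![3, 7, 1, 2, 6, 0, 4, 5], ![5, 2, 3, 0, 6, 7, 4, 1], by decide, by decide⟩

/-- permutation for `u` -/
def pu : Equiv.Perm (Fin 8) :=
  ⟨![7, 3, 5, 4, 0, 2, 1, 6], ![4, 6, 5, 1, 3, 2, 7, 0], by decide, by decide⟩

/-- permutation for `t` -/
def pt : Equiv.Perm (Fin 8) :=
  ⟨![6, 5, 2, 0, 7, 4, 3, 1], ![3, 7, 2, 6, 5, 1, 0, 4], by decide, by decide⟩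

/-- a permutation representation of `F` -/
def rep : F →* Equiv.Perm (Fin 8) := FreeGroup.lift ![ps, pu, pt]

theorem rep_s : rep s = ps := by unfold rep s; rw [FreeGroup.lift_apply_of]; rfl
theorem rep_u : rep u = pu := by unfold rep u; rw [FreeGroup.lift_apply_of]; rfl
theorem rep_t : rep t = pt := by unfold rep t; rw [FreeGroup.lift_apply_of]; rfl

theorem N_le_ker : N ≤ rep.ker := by
  unfold N
  apply Subgroup.normalClosure_le_normal
  intro x hx
  rw [SetLike.mem_coe, MonoidHom.mem_ker]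
  rcases hx with h | h | h
  · rw [h]
    unfold e z
    simp only [map_mul, map_inv, map_pow, rep_s, rep_u]
    decide
  · rw [h]
    unfold v z
    simp only [map_mul, map_inv, map_pow, rep_s, rep_u]
    decide
  · rw [Set.mem_singleton_iff.mp h]
    unfold y d z
    simp only [map_mul, map_inv, map_pow, rep_s, rep_t]
    decide

theorem z_notMem : z ∉ N := by
  intro h
  have h1 := N_le_ker h
  rw [MonoidHom.mem_ker] at h1
  unfold z at h1
  rw [map_pow, rep_s] at h1
  revert h1
  decide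

theorem z_sq_mem_N : z ^ 2 ∈ N := by
  have hq : ∀ x : F, x ∈ N ↔ (QuotientGroup.mk' N) x = 1 := by
    intro x
    rw [← MonoidHom.mem_ker, QuotientGroup.ker_mk']
  set q := QuotientGroup.mk' N with hqd
  have hv' : (q s * q u) ^ 2 = q s ^ 3 := by
    have h := (hq v).mp v_mem
    unfold v z at h
    rw [map_mul, map_inv, mul_inv_eq_one, map_pow, map_mul, map_pow] at h
    exact h
  have he' : q s ^ 3 * (q u ^ 3)⁻¹ = 1 := by
    have h := (hq e).mp e_mem
    unfold e z at h
    rw [map_mul, map_inv, map_pow, map_pow] at h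
    exact h
  have h := z_sq_mem (⊥ : Subgroup G) (q s) (q u) hv' (by rw [he']; exact Subgroup.mem_bot.mpr rfl)
  rw [hq]
  unfold z
  rw [map_pow, map_pow]
  exact Subgroup.mem_bot.mp h

theorem torsion : ∃ g : G, g ≠ 1 ∧ g ^ 2 = 1 := by
  refine ⟨(z : G), ?_, ?_⟩
  · intro h
    exact z_notMem ((QuotientGroup.eq_one_iff z).mp h)
  · have : ((z ^ 2 : F) : G) = 1 := (QuotientGroup.eq_one_iff _).mpr z_sq_mem_N
    exact this

end Pool.Agent.RelGap
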