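import Pool.Agent.RelGap.Asph
import Pool.Agent.RelGap.Torsion

/-!
# Presentations of `G` with one relator less than generators, and the Fox rows of `v` and `w`
-/

set_option autoImplicit false

open scoped BigOperators commutatorElement

namespace Pool.Agent.RelGap

open Pool.Agent.FoxAsph MonoidAlgebra

theorem exists_word {X ι : Type} (rel : ι → Word X) (g : Grp rel) : ∃ r : Word X, val rel r = g := by
  obtain ⟨a, ha⟩ := valF_surjective rel g
  induction a using Quot.induction_on with | _ a =>
  exact ⟨a, ha⟩

theorem counterexample_of_iso (n : ℕ) (rel : Fin n → Word (Fin (n + 1))) (φ : G ≃* Grp rel) :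
    Counterexample n := by
  obtain ⟨r, hr⟩ := exists_word rel (φ (t : G))
  refine ⟨rel, r, contractible_addRel rel r ?_, ?_⟩
  · -- the group is trivial
    have hle : Subgroup.normalClosure (Set.range fun i => FreeGroup.mk (rel i)) ≤
        (Subgroup.normalClosure (Set.range fun i => FreeGroup.mk (addRel rel r i))).comap
          (MonoidHom.id _) := by
      rw [Subgroup.comap_id]
      apply Subgroup.normalClosure_mono
      rintro _ ⟨i, rfl⟩
      exact ⟨some i, rfl⟩
    let q : Grp rel →* Grp (addRel rel r) := QuotientGroup.map _ _ (MonoidHom.id _) hle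
    have hq : ∀ a : FreeGroup (Fin (n + 1)), q (valF rel a) = valF (addRel rel r) a := fun a => rfl
    let ψ : F →* Grp (addRel rel r) := (q.comp φ.toMonoidHom).comp (QuotientGroup.mk' N)
    have hker : Subgroup.normalClosure ((N : Set F) ∪ {t}) ≤ ψ.ker := by
      apply Subgroup.normalClosure_le_normal
      intro x hx
      rw [SetLike.mem_coe, MonoidHom.mem_ker]
      rcases hx with h | h
      · have h1 : (QuotientGroup.mk' N) x = 1 := (QuotientGroup.eq_one_iff x).mpr h
        show q (φ ((QuotientGroup.mk' N) x)) = 1
        rw [h1, map_one, map_one]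
      · rw [Set.mem_singleton_iff.mp h]
        show q (φ (t : G)) = 1
        rw [← hr]
        show q (valF rel (FreeGroup.mk r)) = 1
        rw [hq]
        exact valF_rel (addRel rel r) none
    rw [weight_one, top_le_iff] at hker
    have htriv : ∀ g : Grp (addRel rel r), g = 1 := by
      intro g
      obtain ⟨a, ha⟩ := valF_surjective (addRel rel r) g
      obtain ⟨b, hb⟩ := QuotientGroup.mk'_surjective N (φ.symm (valF rel a))
      have h1 : ψ b = 1 := by
        rw [← MonoidHom.mem_ker, hker]; exact Subgroup.mem_top b
      have h2 : ψ b = g := by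
        show q (φ ((QuotientGroup.mk' N) b)) = g
        rw [hb, MulEquiv.apply_symm_apply, hq, ha]
      rw [← h2, h1]
    exact ⟨fun a b => by rw [htriv a, htriv b]⟩
  · obtain ⟨g, hg, hg2⟩ := torsion
    refine not_aspherical rel (φ g) ?_ ?_
    · intro h
      exact hg (by rw [← φ.map_one] at h; exact φ.injective h)
    · rw [← map_mul, ← pow_two, hg2, map_one]

theorem counterexample_of_two (a b : F) (h : Subgroup.normalClosure {a, b} = N) : Counterexample 2 := by
  have hset : (Set.range fun i : Fin 2 => FreeGroup.mk ((![a.toWord, b.toWord] : Fin 2 → Word (Fin 3)) i)) =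
      {a, b} := by
    ext x
    simp only [Set.mem_range, Set.mem_insert_iff, Set.mem_singleton_iff]
    constructor
    · rintro ⟨i, rfl⟩
      fin_cases i
      · left; exact FreeGroup.mk_toWord
      · right; exact FreeGroup.mk_toWord
    · rintro (rfl | rfl)
      · exact ⟨0, FreeGroup.mk_toWord⟩
      · exact ⟨1, FreeGroup.mk_toWord⟩
  refine counterexample_of_iso 2 ![a.toWord, b.toWord] ?_
  exact QuotientGroup.quotientMulEquivOfEq (by rw [hset]; exact h.symm)

theorem range_relators : (Set.range fun i => FreeGroup.mk (relators i)) = {e, v, y ^ 2} := by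
  ext x
  simp only [Set.mem_range, Set.mem_insert_iff, Set.mem_singleton_iff]
  constructor
  · rintro ⟨i, rfl⟩
    fin_cases i
    · left; exact FreeGroup.mk_toWord (x := e)
    · right; left; exact FreeGroup.mk_toWord (x := v)
    · right; right; exact FreeGroup.mk_toWord (x := y ^ 2)
  · rintro (rfl | rfl | rfl)
    · exact ⟨0, FreeGroup.mk_toWord (x := e)⟩
    · exact ⟨1, FreeGroup.mk_toWord (x := v)⟩
    · exact ⟨2, show FreeGroup.mk (y ^ 2).toWord = y ^ 2 from FreeGroup.mk_toWord⟩

theorem valF_iff (a : F) : valF relators a = 1 ↔ a ∈ N := by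
  rw [valF_eq_one_iff, range_relators]
  rfl

/-- the Fox derivatives of every element of `N` are combinations of those of `v` and `w` -/
theorem span_vw (S : Submodule (MonoidAlgebra ℤ (Grp relators)) (Fin 3 → MonoidAlgebra ℤ (Grp relators)))
    (hv : D relators v ∈ S) (hw : D relators w ∈ S) (a : F) (ha : a ∈ N) : D relators a ∈ S := by
  have h : N ≤ closed relators S := by
    rw [← two_generated]
    apply sup_le
    · apply Subgroup.normalClosure_le_normal
      intro x hx
      rcases hx with h | h
      · rw [h]; exact ⟨(valF_iff v).mpr v_mem, hv⟩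
      · rw [Set.mem_singleton_iff.mp h]; exact ⟨(valF_iff w).mpr w_mem, hw⟩
    · rw [Subgroup.commutator_le]
      intro a ha b hb
      have ha' := (valF_iff a).mpr ha
      have hb' := (valF_iff b).mpr hb
      refine ⟨(valF_iff _).mpr (Subgroup.commutator_le_left N N (Subgroup.commutator_mem_commutator ha hb)), ?_⟩
      have h2 : valF relators (a * b) = 1 := by rw [map_mul, ha', hb', mul_one]
      have h1 : valF relators (a * b * a⁻¹) = 1 := by rw [map_mul, h2, map_inv, ha', inv_one, mul_one]
      have h3 : D relators ⁅a, b⁆ = 0 := by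
        rw [commutatorElement_def, D_mul, h1, D_mul, h2, D_mul, ha', D_inv, D_inv, ha', hb', inv_one]
        simp only [map_one, one_smul]
        abel
      rw [h3]
      exact S.zero_mem
  exact (h ha).2

theorem row_toWord (a : F) : row relators a.toWord = D relators a := by
  rw [← D_mk, FreeGroup.mk_toWord]

theorem rows_generate (i : Fin 3) : ∃ a b : MonoidAlgebra ℤ (Grp relators), ∀ x,
    fox relators x (relators i) = a * fox relators x v.toWord + b * fox relators x w.toWord := by
  have hmem : FreeGroup.mk (relators i) ∈ N := by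
    rw [← valF_iff]; exact valF_rel relators i
  have h := span_vw (Submodule.span _ {D relators v, D relators w})
    (Submodule.subset_span (by simp)) (Submodule.subset_span (by simp)) _ hmem
  rw [Submodule.mem_span_pair] at h
  obtain ⟨a, b, hab⟩ := h
  refine ⟨a, b, fun x => ?_⟩
  have h1 := congrFun hab x
  rw [← row_toWord, ← row_toWord] at h1
  exact h1.symm

theorem rows_dependent : ∃ a b : MonoidAlgebra ℤ (Grp relators), (a ≠ 0 ∨ b ≠ 0) ∧
    ∀ x, a * fox relators x v.toWord + b * fox relators x w.toWord = 0 := by
  obtain ⟨g, hg, hg2⟩ := torsion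
  have hiso : Nonempty (G ≃* Grp relators) :=
    ⟨QuotientGroup.quotientMulEquivOfEq (by rw [range_relators]; rfl)⟩
  obtain ⟨φ⟩ := hiso
  have hvw : ∀ k, valF relators ((![v, w] : Fin 2 → F) k) = 1 := by
    intro k
    fin_cases k
    · exact (valF_iff v).mpr v_mem
    · exact (valF_iff w).mpr w_mem
  obtain ⟨z, hz, hz0⟩ := dependent relators (![v, w] : Fin 2 → F) hvw (by
      intro i
      have hmem : FreeGroup.mk (relators i) ∈ N := by
        rw [← valF_iff]; exact valF_rel relators i
      exact span_vw _ (Submodule.subset_span (Set.mem_range_self (0 : Fin 2)))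
        (Submodule.subset_span (Set.mem_range_self (1 : Fin 2))) _ hmem)
    (φ g) (by
      intro h
      exact hg (by rw [← φ.map_one] at h; exact φ.injective h))
    (by rw [← map_mul, ← pow_two, hg2, map_one])
  refine ⟨z 0, z 1, ?_, ?_⟩
  · by_contra hcon
    push Not at hcon
    apply hz
    funext k
    fin_cases k
    · exact hcon.1
    · exact hcon.2
  · intro x
    have h := congrFun hz0 x
    rw [Fin.sum_univ_two] at h
    have hv : D relators v x = fox relators x v.toWord := congrFun (row_toWord v).symm x
    have hw : D relators w x = fox relators x w.toWord := congrFun (row_toWord w).symm x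
    rw [← hv, ← hw]
    exact h

end Pool.Agent.RelGap
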