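import Mathlib

/-!
# Crossed homomorphisms of free groups to power series, and powers of `1 + X`
-/

set_option autoImplicit false

open scoped BigOperators PowerSeries

namespace Pool.Agent.RelGap.Gap

/-- the affine group of a commutative ring -/
@[ext]
structure Aff (A : Type) [CommRing A] where
  /-- the linear part -/
  lin : Aˣ
  /-- the translation -/
  tr : A

namespace Aff

variable {A B : Type} [CommRing A] [CommRing B]

instance : Mul (Aff A) := ⟨fun x y => ⟨x.lin * y.lin, x.tr + x.lin * y.tr⟩⟩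
instance : One (Aff A) := ⟨⟨1, 0⟩⟩
instance : Inv (Aff A) := ⟨fun x => ⟨x.lin⁻¹, -((x.lin⁻¹ : Aˣ) * x.tr)⟩⟩

@[simp] theorem mul_lin (x y : Aff A) : (x * y).lin = x.lin * y.lin := rfl
@[simp] theorem mul_tr (x y : Aff A) : (x * y).tr = x.tr + x.lin * y.tr := rfl
@[simp] theorem one_lin : (1 : Aff A).lin = 1 := rfl
@[simp] theorem one_tr : (1 : Aff A).tr = 0 := rfl
@[simp] theorem inv_lin (x : Aff A) : (x⁻¹).lin = x.lin⁻¹ := rfl
@[simp] theorem inv_tr (x : Aff A) : (x⁻¹).tr = -((x.lin⁻¹ : Aˣ) * x.tr) := rfl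

instance : Group (Aff A) where
  mul_assoc x y z := by
    apply Aff.ext
    · simp [mul_assoc]
    · simp [mul_add, add_assoc, mul_assoc]
  one_mul x := by
    apply Aff.ext
    · simp
    · simp
  mul_one x := by
    apply Aff.ext
    · simp
    · simp
  inv_mul_cancel x := by
    apply Aff.ext
    · simp
    · simp

/-- the linear part -/
def linHom : Aff A →* Aˣ where
  toFun := lin
  map_one' := rfl
  map_mul' _ _ := rfl

/-- functoriality -/
def map (f : A →+* B) : Aff A →* Aff B where
  toFun x := ⟨Units.map f x.lin, f x.tr⟩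
  map_one' := by
    apply Aff.ext
    · simp
    · simp
  map_mul' x y := by
    apply Aff.ext
    · simp
    · simp

end Aff

variable (K : Type) [Field K]

/-- the unit `1 + X` -/
noncomputable def T : (K⟦X⟧)ˣ :=
  (PowerSeries.isUnit_iff_constantCoeff.mpr
    (by simp : IsUnit (PowerSeries.constantCoeff (1 + PowerSeries.X : K⟦X⟧)))).unit

theorem T_coe : ((T K : (K⟦X⟧)ˣ) : K⟦X⟧) = 1 + PowerSeries.X := rfl

theorem constantCoeff_T_zpow (n : ℤ) :
    PowerSeries.constantCoeff (((T K) ^ n : (K⟦X⟧)ˣ) : K⟦X⟧) = 1 := by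
  have h1 : Units.map (PowerSeries.constantCoeff (R := K)).toMonoidHom (T K) = 1 := by
    apply Units.ext
    show PowerSeries.constantCoeff (((T K) : (K⟦X⟧)ˣ) : K⟦X⟧) = 1
    rw [T_coe]; simp
  have h2 : Units.map (PowerSeries.constantCoeff (R := K)).toMonoidHom (T K ^ n) = 1 := by
    rw [map_zpow, h1, one_zpow]
  exact congrArg Units.val h2

/-- the powers of `1 + X` with distinct exponents are linearly independent -/
theorem T_indep {κ : Type} [Fintype κ] (c : κ → K) (ν : κ → ℤ)
    (h : ∑ k, c k • (((T K) ^ (ν k) : (K⟦X⟧)ˣ) : K⟦X⟧) = 0) (m : ℤ) :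
    ∑ k, (if ν k = m then c k else 0) = 0 := by
  classical
  -- make the exponents natural numbers
  obtain ⟨N, hN⟩ : ∃ N : ℤ, ∀ k, 0 ≤ ν k + N ∧ 0 ≤ m + N := by
    refine ⟨∑ k, |ν k| + |m|, fun k => ⟨?_, ?_⟩⟩
    · have h1 : |ν k| ≤ ∑ k, |ν k| :=
        Finset.single_le_sum (f := fun k => |ν k|) (fun i _ => abs_nonneg _) (Finset.mem_univ k)
      have h2 := neg_abs_le (ν k)
      have h3 := abs_nonneg m
      omega
    · have h1 : 0 ≤ ∑ k, |ν k| := Finset.sum_nonneg (fun i _ => abs_nonneg _)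
      have h2 := neg_abs_le m
      omega
  have h1 : ∑ k, c k • ((1 + PowerSeries.X : K⟦X⟧) ^ (ν k + N).toNat) = 0 := by
    have h2 : ∀ k, (1 + PowerSeries.X : K⟦X⟧) ^ (ν k + N).toNat =
        (((T K) ^ N : (K⟦X⟧)ˣ) : K⟦X⟧) * (((T K) ^ (ν k) : (K⟦X⟧)ˣ) : K⟦X⟧) := by
      intro k
      rw [← Units.val_mul, ← zpow_add, add_comm N (ν k), ← T_coe, ← Units.val_pow_eq_pow_val,
        ← zpow_natCast, Int.toNat_of_nonneg (hN k).1]
    simp only [h2]
    rw [← mul_zero (((T K) ^ N : (K⟦X⟧)ˣ) : K⟦X⟧), ← h, Finset.mul_sum]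
    refine Finset.sum_congr rfl fun k _ => ?_
    rw [mul_smul_comm]
  -- back to polynomials
  have h3 : (∑ k, Polynomial.monomial (ν k + N).toNat (c k)) = 0 := by
    apply Polynomial.taylor_injective (1 : K)
    rw [map_zero, map_sum]
    apply Polynomial.coe_injective K
    rw [Polynomial.coe_zero, ← h1, ← Polynomial.coeToPowerSeries.ringHom_apply, map_sum]
    refine Finset.sum_congr rfl fun k _ => ?_
    rw [Polynomial.taylor_apply, Polynomial.monomial_comp, Polynomial.coeToPowerSeries.ringHom_apply,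
      Polynomial.coe_mul, Polynomial.coe_pow, Polynomial.coe_C, Polynomial.coe_add, Polynomial.coe_X,
      Polynomial.coe_C, map_one, PowerSeries.smul_eq_C_mul, add_comm PowerSeries.X]
  have h4 := congrArg (fun q => Polynomial.coeff q (m + N).toNat) h3
  simp only [Polynomial.finsetSum_coeff, Polynomial.coeff_monomial, Polynomial.coeff_zero] at h4
  refine Eq.trans (Finset.sum_congr rfl fun k _ => ?_) h4
  have h5 : ν k = m ↔ (ν k + N).toNat = (m + N).toNat := by
    have := hN k
    omega
  by_cases h6 : ν k = m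
  · rw [if_pos h6, if_pos (h5.mp h6)]
  · rw [if_neg h6, if_neg (fun h => h6 (h5.mpr h))]

/-- every homomorphism from a free group to the additive group of `K` is the constant coefficient of a
crossed homomorphism to `K⟦X⟧`, where the group acts through the powers of `1 + X` -/
theorem exists_crossed {H : Type} [Group H] [IsFreeGroup H] (φ : H →* Multiplicative ℤ)
    (ψ : H →* Multiplicative K) : ∃ M : H →* Aff (K⟦X⟧),
      (∀ a, (M a).lin = (T K) ^ (φ a).toAdd) ∧
      ∀ a, PowerSeries.constantCoeff (M a).tr = (ψ a).toAdd := by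
  let M : H →* Aff (K⟦X⟧) := IsFreeGroup.lift fun b =>
    ⟨(T K) ^ (φ (IsFreeGroup.of b)).toAdd, PowerSeries.C (ψ (IsFreeGroup.of b)).toAdd⟩
  have hlin : Aff.linHom.comp M = (zpowersHom _ (T K)).comp φ := by
    apply IsFreeGroup.ext_hom
    intro b
    rw [MonoidHom.comp_apply, MonoidHom.comp_apply]
    show (M (IsFreeGroup.of b)).lin = _
    have : M (IsFreeGroup.of b) = ⟨(T K) ^ (φ (IsFreeGroup.of b)).toAdd,
      PowerSeries.C (ψ (IsFreeGroup.of b)).toAdd⟩ := IsFreeGroup.lift_of _ _
    rw [this, zpowersHom_apply]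
  have hlin' : ∀ a, (M a).lin = (T K) ^ (φ a).toAdd := by
    intro a
    have := DFunLike.congr_fun hlin a
    rw [MonoidHom.comp_apply, MonoidHom.comp_apply, zpowersHom_apply] at this
    exact this
  let P : H →* Aff K :=
    { toFun := fun a => ⟨1, (ψ a).toAdd⟩
      map_one' := by
        apply Aff.ext
        · simp
        · simp
      map_mul' := fun a b => by
        apply Aff.ext
        · simp
        · simp }
  have hM : (Aff.map (PowerSeries.constantCoeff (R := K))).comp M = P := by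
    apply IsFreeGroup.ext_hom
    intro b
    have : M (IsFreeGroup.of b) = ⟨(T K) ^ (φ (IsFreeGroup.of b)).toAdd,
      PowerSeries.C (ψ (IsFreeGroup.of b)).toAdd⟩ := IsFreeGroup.lift_of _ _
    rw [MonoidHom.comp_apply, this]
    apply Aff.ext
    · apply Units.ext
      exact constantCoeff_T_zpow K _
    · exact PowerSeries.constantCoeff_C _
  refine ⟨M, hlin', fun a => ?_⟩
  have := DFunLike.congr_fun hM a
  exact congrArg Aff.tr this

end Pool.Agent.RelGap.Gap
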