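import Pool.Agent.RelGap.GapWin

/-!
# Chains of binary tetrahedral groups
-/

set_option autoImplicit false

namespace Pool.Agent.RelGap.Gap

open RegularWreathProduct

/-- functions inside the wreath product -/
def base {D Q : Type} [Group D] [Group Q] : (Q → D) →* D ≀ᵣ Q where
  toFun f := ⟨f, 1⟩
  map_one' := rfl
  map_mul' f g := by
    ext x
    · simp
    · simp

theorem base_left {D Q : Type} [Group D] [Group Q] (f : Q → D) : (base f).left = f := rfl
theorem base_right {D Q : Type} [Group D] [Group Q] (f : Q → D) : (base f).right = 1 := rfl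

theorem conj_base {D Q : Type} [Group D] [Group Q] (q : Q) (f : Q → D) :
    inl q * base f * (inl q)⁻¹ = base (fun x => f (q⁻¹ * x)) := by
  ext x
  · simp [base_left, base_right]
  · simp [base_right]

theorem base_injective {D Q : Type} [Group D] [Group Q] : Function.Injective (base (D := D) (Q := Q)) := by
  intro f g h
  rw [← base_left f, h, base_left]

/-- the relations of the binary tetrahedral group -/
def IsPair {X : Type} [Group X] (s u : X) : Prop :=
  s ^ 3 = u ^ 3 ∧ (s * u) ^ 2 = s ^ 3 ∧ (s ^ 3) ^ 2 = 1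

theorem isPair_one {X : Type} [Group X] : IsPair (1 : X) 1 := by
  refine ⟨rfl, by simp, by simp⟩

theorem isPair_zero : IsPair s₀ u₀ := by
  refine ⟨?_, ?_, ?_⟩
  · rw [pow_three', pow_three', s₀_cube, u₀_cube]
  · rw [pow_two, su₀_sq, pow_three', s₀_cube]
  · rw [pow_three', s₀_cube, pow_two, z₀_sq]

theorem IsPair.inv {X : Type} [Group X] {s u : X} (h : IsPair s u) : IsPair s⁻¹ u⁻¹ := by
  obtain ⟨h1, h2, h3⟩ := h
  refine ⟨by rw [inv_pow, inv_pow, h1], ?_, ?_⟩
  · have h4 : (u * s) ^ 2 = s ^ 3 := by
      have h5 : (u * s) ^ 2 = s⁻¹ * (s * u) ^ 2 * s := by simp [pow_two, mul_assoc]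
      rw [h5, h2, pow_three']; simp [mul_assoc]
    rw [← mul_inv_rev, inv_pow, h4, inv_pow]
  · rw [inv_pow, inv_pow, h3, inv_one]

theorem IsPair.map {X Y : Type} [Group X] [Group Y] (f : X →* Y) {s u : X} (h : IsPair s u) :
    IsPair (f s) (f u) := by
  obtain ⟨h1, h2, h3⟩ := h
  refine ⟨?_, ?_, ?_⟩
  · rw [← map_pow, h1, map_pow]
  · rw [← map_mul, ← map_pow, h2, map_pow]
  · rw [← map_pow, ← map_pow, h3, map_one]

theorem isPair_pi {Q X : Type} [Group X] {s u : Q → X} (h : ∀ q, IsPair (s q) (u q)) :
    IsPair s u := by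
  refine ⟨?_, ?_, ?_⟩
  · funext q; exact (h q).1
  · funext q; exact (h q).2.1
  · funext q; exact (h q).2.2

open Classical in
/-- the function with values `s`, `s⁻¹` at `1`, `z` -/
noncomputable def two {Q X : Type} [Group Q] [Group X] (z : Q) (s : X) : Q → X :=
  fun x => if x = 1 then s else if x = z then s⁻¹ else 1

theorem two_shift {Q X : Type} [Group Q] [Group X] (z : Q) (hz : z * z = 1) (hz1 : z ≠ 1) (s : X)
    (x : Q) : two z s (z⁻¹ * x) = (two z s x)⁻¹ := by
  have hzi : z⁻¹ = z := inv_eq_of_mul_eq_one_left hz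
  unfold two
  by_cases h1 : x = 1
  · subst h1
    rw [hzi, mul_one, if_neg hz1, if_pos rfl, if_pos rfl]
  · by_cases h2 : x = z
    · subst h2
      rw [inv_mul_cancel, if_pos rfl, if_neg hz1, if_pos rfl, inv_inv]
    · rw [if_neg h1, if_neg h2, if_neg, if_neg, inv_one]
      · intro h
        apply h1
        rw [inv_mul_eq_iff_eq_mul] at h
        rw [h, hz]
      · intro h
        apply h2
        rw [inv_mul_eq_iff_eq_mul] at h
        rw [h, mul_one]

theorem isPair_two {Q X : Type} [Group Q] [Group X] (z : Q) {s u : X} (h : IsPair s u) :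
    IsPair (two z s) (two z u) := by
  apply isPair_pi
  intro q
  unfold two
  by_cases h1 : q = 1
  · rw [if_pos h1, if_pos h1]; exact h
  · rw [if_neg h1, if_neg h1]
    by_cases h2 : q = z
    · rw [if_pos h2, if_pos h2]; exact h.inv
    · rw [if_neg h2, if_neg h2]; exact isPair_one

/-- chains of pairs, in which the central element of each pair inverts the square of the first
element of the next one -/
def IsChain {X : Type} [Group X] (n : ℕ) (S U : ℕ → X) : Prop :=
  (∀ i, IsPair (S i) (U i)) ∧ (∀ i, i < n → ((S i ^ 3)⁻¹ * S (i + 1) ^ 2) ^ 2 = 1) ∧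
    S n ^ 3 ≠ 1 ∧ ∀ i, n < i → S i = 1 ∧ U i = 1

theorem chain (n : ℕ) : ∃ (X : Type) (_ : Group X), NoPerf X ∧ ∃ S U : ℕ → X, IsChain n S U := by
  induction n with
  | zero =>
    refine ⟨BT, inferInstance, noPerf_BT, fun i => if i = 0 then s₀ else 1,
      fun i => if i = 0 then u₀ else 1, ?_, ?_, ?_, ?_⟩
    · intro i
      by_cases h : i = 0
      · simp only [if_pos h]; exact isPair_zero
      · simp only [if_neg h]; exact isPair_one
    · intro i hi; exact absurd hi (Nat.not_lt_zero i)
    · show (if 0 = 0 then s₀ else 1) ^ 3 ≠ 1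
      rw [if_pos rfl, pow_three', s₀_cube]; exact z₀_ne
    · intro i hi
      have h : i ≠ 0 := by omega
      exact ⟨if_neg h, if_neg h⟩
  | succ n ih =>
    obtain ⟨X, _, hX, S, U, h1, h2, h3, h4⟩ := ih
    set z := S n ^ 3 with hz
    have hzz : z * z = 1 := by rw [← pow_two]; exact (h1 n).2.2
    let S' : ℕ → BT ≀ᵣ X := fun i => if i ≤ n then inl (S i) else if i = n + 1 then base (two z s₀) else 1
    let U' : ℕ → BT ≀ᵣ X := fun i => if i ≤ n then inl (U i) else if i = n + 1 then base (two z u₀) else 1
    have hSn : ∀ i, i ≤ n → S' i = inl (S i) := fun i hi => if_pos hi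
    have hUn : ∀ i, i ≤ n → U' i = inl (U i) := fun i hi => if_pos hi
    have hSt : S' (n + 1) = base (two z s₀) := by
      show (if n + 1 ≤ n then _ else _) = _
      rw [if_neg (by omega), if_pos rfl]
    have hUt : U' (n + 1) = base (two z u₀) := by
      show (if n + 1 ≤ n then _ else _) = _
      rw [if_neg (by omega), if_pos rfl]
    have hSo : ∀ i, n + 1 < i → S' i = 1 := by
      intro i hi
      show (if i ≤ n then _ else _) = _
      rw [if_neg (by omega), if_neg (by omega)]
    have hUo : ∀ i, n + 1 < i → U' i = 1 := by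
      intro i hi
      show (if i ≤ n then _ else _) = _
      rw [if_neg (by omega), if_neg (by omega)]
    refine ⟨BT ≀ᵣ X, inferInstance, noPerf_BT.wreath hX, S', U', ?_, ?_, ?_, ?_⟩
    · intro i
      rcases Nat.lt_trichotomy i (n + 1) with h | h | h
      · rw [hSn i (by omega), hUn i (by omega)]; exact (h1 i).map _
      · rw [h, hSt, hUt]; exact (isPair_two z isPair_zero).map _
      · rw [hSo i h, hUo i h]; exact isPair_one
    · intro i hi
      rcases Nat.lt_or_ge i n with h | h
      · rw [hSn i (by omega), hSn (i + 1) (by omega), ← map_pow, ← map_pow, ← map_inv, ← map_mul,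
          ← map_pow, h2 i h, map_one]
      · have : i = n := by omega
        subst this
        rw [hSn i le_rfl, hSt, ← map_pow, ← hz, ← map_inv]
        have hzi : z⁻¹ = z := inv_eq_of_mul_eq_one_left hzz
        have hc : inl z * base (two z s₀) * (inl z)⁻¹ = (base (two z s₀))⁻¹ := by
          rw [conj_base, ← map_inv]
          congr 1
          funext x
          exact two_shift z hzz h3 s₀ x
        have hc2 : inl z * base (two z s₀) ^ 2 * (inl z)⁻¹ = (base (two z s₀) ^ 2)⁻¹ := by
          rw [← conj_pow, hc, inv_pow]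
        have hi2 : (inl z : BT ≀ᵣ X)⁻¹ = inl z := by rw [← map_inv, hzi]
        rw [hi2] at hc2
        rw [hzi, pow_two, ← mul_assoc, hc2, inv_mul_cancel]
    · rw [hSt, ← map_pow]
      intro h
      have h5 : (two z s₀) ^ 3 = 1 := base_injective (by rw [h, map_one])
      have h6 := congrFun h5 1
      rw [Pi.pow_apply] at h6
      unfold two at h6
      rw [if_pos rfl, pow_three', s₀_cube] at h6
      exact z₀_ne h6
    · intro i hi
      exact ⟨hSo i hi, hUo i hi⟩

end Pool.Agent.RelGap.Gap
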