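import Pool.Agent.RelGap.GapChain
import Pool.Agent.RelGap.Torsion

/-!
# Homomorphisms from the kernel of `F → ℤ` to groups without perfect subgroups
-/

set_option autoImplicit false

namespace Pool.Agent.RelGap.Gap

open RegularWreathProduct

/-- a sequence, extended by `1` -/
def ext {X : Type} [Group X] (S : ℕ → X) : Multiplicative ℤ → X :=
  fun x => if 0 ≤ x.toAdd then S x.toAdd.toNat else 1

theorem isPair_ext {X : Type} [Group X] {S U : ℕ → X} (h : ∀ i, IsPair (S i) (U i)) :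
    IsPair (ext S) (ext U) := by
  apply isPair_pi
  intro q
  unfold ext
  by_cases h1 : 0 ≤ q.toAdd
  · rw [if_pos h1, if_pos h1]; exact h _
  · rw [if_neg h1, if_neg h1]; exact isPair_one

/-- the homomorphism from `F` given by two sequences and the shift -/
def Θ {X : Type} [Group X] (S U : ℕ → X) : F →* X ≀ᵣ (Multiplicative ℤ) :=
  FreeGroup.lift ![base (ext S), base (ext U), inl (Multiplicative.ofAdd (-1))]

/-- the height -/
def τ : F →* Multiplicative ℤ := FreeGroup.lift ![1, 1, Multiplicative.ofAdd (-1)]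

theorem base_pow {D Q : Type} [Group D] [Group Q] (f : Q → D) (n : ℕ) : base f ^ n = base (f ^ n) :=
  (map_pow base f n).symm

variable {X : Type} [Group X] (S U : ℕ → X)

theorem Θ_s : Θ S U s = base (ext S) := by unfold Θ s; rw [FreeGroup.lift_apply_of]; rfl
theorem Θ_u : Θ S U u = base (ext U) := by unfold Θ u; rw [FreeGroup.lift_apply_of]; rfl
theorem Θ_t : Θ S U t = inl (Multiplicative.ofAdd (-1)) := by
  unfold Θ t; rw [FreeGroup.lift_apply_of]; rfl

theorem τ_s : τ s = 1 := by unfold τ s; rw [FreeGroup.lift_apply_of]; rfl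
theorem τ_u : τ u = 1 := by unfold τ u; rw [FreeGroup.lift_apply_of]; rfl

theorem Θ_right (w : F) : (Θ S U w).right = τ w := by
  have : (rightHom.comp (Θ S U)) = τ := by
    apply FreeGroup.ext_hom
    intro a
    rw [MonoidHom.comp_apply]
    unfold Θ τ
    rw [FreeGroup.lift_apply_of, FreeGroup.lift_apply_of]
    fin_cases a <;> rfl
  exact DFunLike.congr_fun this w

theorem Θ_z : Θ S U z = base (ext S ^ 3) := by
  unfold z
  rw [map_pow, Θ_s, ← map_pow]

theorem Θ_e (h : ∀ i, IsPair (S i) (U i)) : Θ S U e = 1 := by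
  unfold e
  rw [map_mul, map_inv, Θ_z, map_pow (Θ S U) u, Θ_u, base_pow, (isPair_ext h).1, mul_inv_cancel]

theorem Θ_v (h : ∀ i, IsPair (S i) (U i)) : Θ S U v = 1 := by
  unfold v
  rw [map_mul, map_inv, Θ_z, map_pow (Θ S U) (s * u), map_mul, Θ_s, Θ_u, ← map_mul, base_pow,
    (isPair_ext h).2.1, mul_inv_cancel]

theorem Θ_y2 : Θ S U (y ^ 2) =
    base (((ext S ^ 3)⁻¹ * fun x => (ext S ^ 2) ((Multiplicative.ofAdd (-1))⁻¹ * x)) ^ 2) := by
  unfold y d
  rw [map_pow, map_mul, map_inv, Θ_z, map_mul, map_mul, map_inv, Θ_t, map_pow (Θ S U) s, Θ_s,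
    base_pow, conj_base, ← map_inv, ← map_mul, ← map_pow]

theorem Θ_y2_left (n : ℕ) (h : IsChain n S U) (i : ℤ) (hi : 0 ≤ i) :
    (Θ S U (y ^ 2)).left (Multiplicative.ofAdd i) = 1 := by
  rw [Θ_y2, base_left]
  obtain ⟨k, rfl⟩ := Int.eq_ofNat_of_zero_le hi
  have h1 : ext S (Multiplicative.ofAdd (k : ℤ)) = S k := by
    unfold ext
    rw [toAdd_ofAdd, if_pos (by omega)]
    congr 1
  have h2 : ext S ((Multiplicative.ofAdd (-1))⁻¹ * Multiplicative.ofAdd (k : ℤ)) = S (k + 1) := by
    unfold ext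
    rw [toAdd_mul, toAdd_inv, toAdd_ofAdd, toAdd_ofAdd, if_pos (by omega)]
    congr 1
    omega
  rw [Pi.pow_apply, Pi.mul_apply, Pi.inv_apply, Pi.pow_apply, h1, Pi.pow_apply, h2]
  rcases Nat.lt_or_ge k n with hk | hk
  · exact h.2.1 k hk
  · have hk1 : S (k + 1) = 1 := (h.2.2.2 (k + 1) (by omega)).1
    rw [hk1, one_pow, mul_one, inv_pow, (h.1 k).2.2, inv_one]

/-- elements of `F` whose image is trivial far from the start of the chain -/
def Far : Subgroup F where
  carrier := {w | τ w = 1 ∧ ∃ B : ℤ, ∀ (X : Type) [Group X] (n : ℕ) (S U : ℕ → X), IsChain n S U →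
    ∀ i : ℤ, B ≤ i → (Θ S U w).left (Multiplicative.ofAdd i) = 1}
  one_mem' := ⟨map_one _, 0, fun X _ n S U _ i _ => by rw [map_one]; rfl⟩
  mul_mem' := by
    rintro a b ⟨ha, A, hA⟩ ⟨hb, B, hB⟩
    refine ⟨by rw [map_mul, ha, hb, one_mul], max A B, ?_⟩
    intro X _ n S U h i hi
    rw [map_mul, mul_left, Pi.mul_apply, hA X n S U h i (le_trans (le_max_left _ _) hi), Θ_right, ha,
      inv_one]
    simp only [one_mul]
    exact hB X n S U h i (le_trans (le_max_right _ _) hi)
  inv_mem' := by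
    rintro a ⟨ha, A, hA⟩
    refine ⟨by rw [map_inv, ha, inv_one], A, ?_⟩
    intro X _ n S U h i hi
    rw [map_inv, inv_left, Θ_right, ha]
    simp only [one_mul]
    rw [Pi.inv_apply, hA X n S U h i hi, inv_one]

instance : Far.Normal where
  conj_mem := by
    rintro w ⟨hw, B, hB⟩ g
    refine ⟨by rw [map_mul, map_mul, hw, mul_one, map_inv, mul_inv_cancel], B + (τ g).toAdd, ?_⟩
    intro X _ n S U h i hi
    rw [map_mul, map_mul, map_inv]
    simp only [mul_left, inv_left, mul_right, Pi.mul_apply, Pi.inv_apply, Θ_right, hw, mul_one,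
      mul_inv_cancel_left]
    have h1 : (τ g)⁻¹ * Multiplicative.ofAdd i = Multiplicative.ofAdd (i - (τ g).toAdd) := by
      apply Multiplicative.toAdd.injective
      rw [toAdd_mul, toAdd_inv, toAdd_ofAdd, toAdd_ofAdd]
      ring
    rw [h1, hB X n S U h _ (by omega), mul_one, mul_inv_cancel]

theorem N_le_Far : N ≤ Far := by
  unfold N
  apply Subgroup.normalClosure_le_normal
  intro x hx
  rcases hx with h | h | h
  · rw [h]
    refine ⟨?_, 0, ?_⟩
    · have := Θ_right (X := BT) 1 1 e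
      rw [← this, Θ_e]
      · rfl
      · exact fun i => isPair_one
    · intro X _ n S U h i _
      rw [Θ_e S U h.1]; rfl
  · rw [h]
    refine ⟨?_, 0, ?_⟩
    · have := Θ_right (X := BT) 1 1 v
      rw [← this, Θ_v]
      · rfl
      · exact fun i => isPair_one
    · intro X _ n S U h i _
      rw [Θ_v S U h.1]; rfl
  · rw [Set.mem_singleton_iff.mp h]
    refine ⟨?_, 0, ?_⟩
    · have := Θ_right (X := BT) 1 1 (y ^ 2)
      rw [← this, Θ_y2, base_right]
    · intro X _ n S U h i hi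
      exact Θ_y2_left S U n h i hi

theorem N_le_ker_τ : N ≤ τ.ker := fun _ hx => (N_le_Far hx).1

theorem z_mem_ker_τ : z ∈ τ.ker := by
  rw [MonoidHom.mem_ker]; unfold z; rw [map_pow, τ_s, one_pow]

/-- the homomorphism from the kernel of the height given by one place -/
def θ (n : ℕ) : τ.ker →* X where
  toFun a := (Θ S U a).left (Multiplicative.ofAdd (n : ℤ))
  map_one' := by rw [Subgroup.coe_one, map_one]; rfl
  map_mul' a b := by
    have ha : τ (a : F) = 1 := a.2
    rw [Subgroup.coe_mul, map_mul, mul_left, Pi.mul_apply, Θ_right, ha, inv_one, one_mul]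

theorem θ_z (n : ℕ) (h : IsChain n S U) : θ S U n ⟨z, z_mem_ker_τ⟩ ≠ 1 := by
  show (Θ S U z).left (Multiplicative.ofAdd (n : ℤ)) ≠ 1
  rw [Θ_z, base_left, Pi.pow_apply]
  have h1 : ext S (Multiplicative.ofAdd (n : ℤ)) = S n := by
    unfold ext
    rw [toAdd_ofAdd, if_pos (by omega)]
    congr 1
  rw [h1]
  exact h.2.2.1

/-- finitely many elements of `N` are killed by a homomorphism from the kernel of the height to a
group without perfect subgroups that does not kill `z` -/
theorem exists_window (Φ : Finset F) (hΦ : ∀ w ∈ Φ, w ∈ N) :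
    ∃ (X : Type) (_ : Group X), NoPerf X ∧ ∃ θ : τ.ker →* X,
      (∀ w (h : w ∈ τ.ker), w ∈ Φ → θ ⟨w, h⟩ = 1) ∧ θ ⟨z, z_mem_ker_τ⟩ ≠ 1 := by
  have h1 : ∃ B : ℤ, ∀ w ∈ Φ, ∀ (X : Type) [Group X] (n : ℕ) (S U : ℕ → X), IsChain n S U →
      ∀ i : ℤ, B ≤ i → (Θ S U w).left (Multiplicative.ofAdd i) = 1 := by
    induction Φ using Finset.induction_on with
    | empty => exact ⟨0, fun w hw => absurd hw (Finset.notMem_empty w)⟩
    | insert a Φ _ ih =>
      obtain ⟨B, hB⟩ := ih (fun w hw => hΦ w (Finset.mem_insert_of_mem hw))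
      obtain ⟨_, A, hA⟩ := N_le_Far (hΦ a (Finset.mem_insert_self _ _))
      refine ⟨max A B, ?_⟩
      intro w hw X _ n S U h i hi
      rcases Finset.mem_insert.mp hw with h1 | h1
      · rw [h1]; exact hA X n S U h i (le_trans (le_max_left _ _) hi)
      · exact hB w h1 X n S U h i (le_trans (le_max_right _ _) hi)
  obtain ⟨B, hB⟩ := h1
  obtain ⟨X, _, hX, S, U, h⟩ := chain B.toNat
  refine ⟨X, inferInstance, hX, θ S U B.toNat, ?_, θ_z S U _ h⟩
  intro w hw hwΦ
  exact hB w hwΦ X _ S U h _ (by omega)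

end Pool.Agent.RelGap.Gap
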