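import Pool.Agent.RelGap.GapTors
import Pool.Agent.RelGap.GapTheta
import Pool.Agent.RelGap.Final

/-!
# `G` has no presentation with one relator less than generators
-/

set_option autoImplicit false

open scoped BigOperators

namespace Pool.Agent.RelGap.Gap

open Pool.Agent.FoxAsph

/-- the homomorphism with given values on the generators -/
def homOf {m p : ℕ} (v : Fin m → ZMod p) : FreeGroup (Fin m) →* Multiplicative (ZMod p) :=
  FreeGroup.lift fun x => Multiplicative.ofAdd (v x)

theorem homOf_of {m p : ℕ} (v : Fin m → ZMod p) (x : Fin m) :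
    (homOf v (FreeGroup.of x)).toAdd = v x := by
  unfold homOf; rw [FreeGroup.lift_apply_of]; rfl

theorem homOf_eq {m p : ℕ} (v : Fin m → ZMod p) (w : FreeGroup (Fin m)) :
    (homOf v w).toAdd = ∑ x, (homOf (Pi.single x (1 : ZMod p)) w).toAdd * v x := by
  let P : FreeGroup (Fin m) →* Multiplicative (ZMod p) :=
    { toFun := fun w => Multiplicative.ofAdd
        (∑ x, (homOf (Pi.single x (1 : ZMod p)) w).toAdd * v x)
      map_one' := by
        rw [← ofAdd_zero]
        congr 1
        apply Finset.sum_eq_zero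
        intro x _
        rw [map_one, toAdd_one, zero_mul]
      map_mul' := fun a b => by
        rw [← ofAdd_add]
        congr 1
        rw [← Finset.sum_add_distrib]
        refine Finset.sum_congr rfl fun x _ => ?_
        rw [map_mul (homOf (Pi.single x (1 : ZMod p))), toAdd_mul, add_mul] }
  have h : homOf v = P := by
    apply FreeGroup.ext_hom
    intro y
    apply Multiplicative.toAdd.injective
    rw [homOf_of]
    show v y = ∑ x, (homOf (Pi.single x (1 : ZMod p)) (FreeGroup.of y)).toAdd * v x
    rw [Finset.sum_eq_single y]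
    · rw [homOf_of, Pi.single_eq_same, one_mul]
    · intro x _ hx
      rw [homOf_of, Pi.single_eq_of_ne (Ne.symm hx), zero_mul]
    · intro h; exact absurd (Finset.mem_univ _) h
  exact congrArg Multiplicative.toAdd (DFunLike.congr_fun h w)

/-- the rows of the exponent matrix of the relators are independent modulo every prime: the second
homology of the presentation complex with coefficients modulo every prime is `0` -/
def Indep {m n : ℕ} (rel : Fin n → Word (Fin m)) : Prop :=
  ∀ (p : ℕ) [Fact p.Prime] (c : Fin n → ZMod p),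
    (∀ ψ : FreeGroup (Fin m) →* Multiplicative (ZMod p),
      ∑ i, c i * (ψ (FreeGroup.mk (rel i))).toAdd = 0) → ∀ i, c i = 0

/-- **Elements of finite order lie in finitely generated perfect subgroups.** -/
theorem finite_order {m n : ℕ} (rel : Fin n → Word (Fin m)) (hr : Indep rel) (x : Grp rel)
    (hx : IsOfFinOrder x) : ∃ P : Subgroup (Grp rel), P.FG ∧ ⁅P, P⁆ = P ∧ x ∈ P :=
  mem_perfect (fun i => FreeGroup.mk (rel i)) hr x hx

/-- **`G` is not presented by independent relators.** -/
theorem not_iso {m n : ℕ} (rel : Fin n → Word (Fin m)) (hr : Indep rel) : IsEmpty (G ≃* Grp rel) := by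
  constructor
  intro φ
  classical
  let r : Fin n → FreeGroup (Fin m) := fun i => FreeGroup.mk (rel i)
  let π : FreeGroup (Fin m) →* Grp rel := PresentedGroup.mk _
  have hπ : Function.Surjective π := QuotientGroup.mk'_surjective _
  have hker : ∀ w, w ∈ Subgroup.normalClosure (Set.range r) ↔ π w = 1 := fun w =>
    (QuotientGroup.eq_one_iff w).symm
  have hmk : ∀ w : F, w ∈ N ↔ (QuotientGroup.mk' N) w = 1 := fun w =>
    (QuotientGroup.eq_one_iff w).symm
  -- lift the presentation to `F`
  have hlift : ∀ x : Fin m, ∃ a : F, φ ((QuotientGroup.mk' N) a) = π (FreeGroup.of x) := by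
    intro x
    obtain ⟨a, ha⟩ := QuotientGroup.mk'_surjective N (φ.symm (π (FreeGroup.of x)))
    exact ⟨a, by rw [ha, MulEquiv.apply_symm_apply]⟩
  choose a ha using hlift
  let l : FreeGroup (Fin m) →* F := FreeGroup.lift a
  have hl : ∀ w, φ ((QuotientGroup.mk' N) (l w)) = π w := by
    have h1 : (φ.toMonoidHom.comp (QuotientGroup.mk' N)).comp l = π := by
      apply FreeGroup.ext_hom
      intro x
      rw [MonoidHom.comp_apply, FreeGroup.lift_apply_of]
      exact ha x
    exact fun w => DFunLike.congr_fun h1 w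
  have hlN : ∀ w, l w ∈ N ↔ w ∈ Subgroup.normalClosure (Set.range r) := by
    intro w
    rw [hmk, hker, ← hl, MulEquiv.map_eq_one_iff]
  obtain ⟨ζ, hζ⟩ := hπ (φ ((QuotientGroup.mk' N) z))
  have hν : z⁻¹ * l ζ ∈ N := by
    rw [hmk, map_mul, map_inv, inv_mul_eq_one]
    apply φ.injective
    rw [hl, hζ]
  have hlζ : l ζ ∈ τ.ker := by
    have h1 := τ.ker.mul_mem z_mem_ker_τ (N_le_ker_τ hν)
    rwa [mul_inv_cancel_left] at h1
  refine no_torsion r hr (τ.comp l) ?_ ζ ?_ 2 two_ne_zero ?_ ?_
  · intro w hw
    exact N_le_ker_τ ((hlN w).mpr hw)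
  · exact hlζ
  · rw [hker, map_pow, hζ, ← map_pow, ← map_pow, (hmk _).mp z_sq_mem_N, map_one]
  · intro Φ hΦ
    obtain ⟨X, _, hX, θ, h1, h2⟩ := exists_window (insert (z⁻¹ * l ζ) (Φ.image l)) (by
      intro w hw
      rcases Finset.mem_insert.mp hw with h | h
      · rw [h]; exact hν
      · obtain ⟨x, hx, rfl⟩ := Finset.mem_image.mp h
        exact (hlN x).mpr (hΦ x hx))
    refine ⟨X, inferInstance, hX,
      θ.comp ((l.comp (τ.comp l).ker.subtype).codRestrict τ.ker (fun x => x.2)), ?_, ?_⟩
    · intro w hw hwΦ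
      exact h1 (l w) hw (Finset.mem_insert_of_mem (Finset.mem_image_of_mem _ hwΦ))
    · intro h3
      apply h2
      have h4 : θ ⟨l ζ, hlζ⟩ = 1 := h3
      have h5 : θ ⟨z⁻¹ * l ζ, N_le_ker_τ hν⟩ = 1 := h1 _ _ (Finset.mem_insert_self _ _)
      have h6 : (⟨l ζ, hlζ⟩ : τ.ker) = ⟨z, z_mem_ker_τ⟩ * ⟨z⁻¹ * l ζ, N_le_ker_τ hν⟩ := by
        apply Subtype.ext
        show l ζ = z * (z⁻¹ * l ζ)
        rw [mul_inv_cancel_left]
      rw [h6, map_mul, h5, mul_one] at h4
      exact h4

/-- `n` relators on `n + 1` generators that present `G` are independent modulo every prime -/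
theorem indep_of_iso {n : ℕ} (rel : Fin n → Word (Fin (n + 1))) (φ : G ≃* Grp rel) : Indep rel := by
  classical
  let r : Fin n → FreeGroup (Fin (n + 1)) := fun i => FreeGroup.mk (rel i)
  let π : FreeGroup (Fin (n + 1)) →* Grp rel := PresentedGroup.mk _
  have hπ : Function.Surjective π := QuotientGroup.mk'_surjective _
  have hmk : ∀ w : F, w ∈ N ↔ (QuotientGroup.mk' N) w = 1 := fun w =>
    (QuotientGroup.eq_one_iff w).symm
  obtain ⟨t', ht'⟩ := hπ (φ ((QuotientGroup.mk' N) t))
  intro p _ c hc
  let ρ : Fin (n + 1) → FreeGroup (Fin (n + 1)) := Fin.cons t' r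
  let R : Matrix (Fin (n + 1)) (Fin (n + 1)) (ZMod p) := fun i x =>
    (homOf (Pi.single x (1 : ZMod p)) (ρ i)).toAdd
  have hR : ∀ v i, R.mulVec v i = (homOf v (ρ i)).toAdd := by
    intro v i
    rw [homOf_eq]
    rfl
  have hinj : Function.Injective R.mulVec := by
    have h0 : ∀ v, R.mulVec v = 0 → v = 0 := by
      intro v hv
      have h1 : ∀ i, homOf v (ρ i) = 1 := by
        intro i
        apply Multiplicative.toAdd.injective
        rw [← hR, hv]; rfl
      have h2 : ∀ x ∈ Set.range r, FreeGroup.lift (fun x => Multiplicative.ofAdd (v x)) x = 1 := by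
        rintro _ ⟨i, rfl⟩
        exact h1 i.succ
      let Ψ : Grp rel →* Multiplicative (ZMod p) := PresentedGroup.toGroup h2
      have hΨ : ∀ w, Ψ (π w) = homOf v w := fun w => rfl
      have h3 : ((Ψ.comp φ.toMonoidHom).comp (QuotientGroup.mk' N)) = 1 := by
        have h4 : Subgroup.normalClosure ((N : Set F) ∪ {t}) ≤
            ((Ψ.comp φ.toMonoidHom).comp (QuotientGroup.mk' N)).ker := by
          apply Subgroup.normalClosure_le_normal
          intro x hx
          rw [SetLike.mem_coe, MonoidHom.mem_ker]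
          rcases hx with h | h
          · show Ψ (φ ((QuotientGroup.mk' N) x)) = 1
            rw [(hmk x).mp h, map_one, map_one]
          · rw [Set.mem_singleton_iff.mp h]
            show Ψ (φ ((QuotientGroup.mk' N) t)) = 1
            rw [← ht', hΨ]
            exact h1 0
        rw [weight_one, top_le_iff] at h4
        apply MonoidHom.ext
        intro x
        have : x ∈ ((Ψ.comp φ.toMonoidHom).comp (QuotientGroup.mk' N)).ker := by
          rw [h4]; exact Subgroup.mem_top x
        exact this
      funext x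
      obtain ⟨b, hb⟩ := QuotientGroup.mk'_surjective N (φ.symm (π (FreeGroup.of x)))
      have h5 : Ψ (φ ((QuotientGroup.mk' N) b)) = 1 := DFunLike.congr_fun h3 b
      rw [hb, MulEquiv.apply_symm_apply, hΨ] at h5
      rw [← homOf_of v x, h5]
      rfl
    intro v v' h
    have h1 : R.mulVec (v - v') = 0 := by rw [Matrix.mulVec_sub, h, sub_self]
    exact sub_eq_zero.mp (h0 _ h1)
  have hinj2 := Matrix.vecMul_injective_iff_isUnit.mpr (Matrix.mulVec_injective_iff_isUnit.mp hinj)
  have h1 : Matrix.vecMul (Fin.cons 0 c : Fin (n + 1) → ZMod p) R = Matrix.vecMul 0 R := by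
    rw [Matrix.zero_vecMul]
    funext x
    show ∑ i, (Fin.cons 0 c : Fin (n + 1) → ZMod p) i * R i x = 0
    rw [Fin.sum_univ_succ]
    simp only [Fin.cons_zero, Fin.cons_succ, zero_mul, zero_add]
    exact hc (homOf (Pi.single x 1))
  have h2 := hinj2 h1
  intro i
  have h3 := congrFun h2 i.succ
  rwa [Fin.cons_succ] at h3

/-- **`G` has no presentation with `n + 1` generators and `n` relators.** -/
theorem no_presentation (n : ℕ) (rel : Fin n → Word (Fin (n + 1))) : IsEmpty (G ≃* Grp rel) :=
  ⟨fun φ => (not_iso rel (indep_of_iso rel φ)).false φ⟩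

/-- **Every finite presentation of `G` has at least as many relators as generators.** -/
theorem generators_le (m k : ℕ) (rel : Fin k → Word (Fin m)) (h : Nonempty (G ≃* Grp rel)) : m ≤ k := by
  obtain ⟨φ⟩ := h
  by_contra hlt
  obtain ⟨n, rfl⟩ : ∃ n, m = n + 1 := ⟨m - 1, by omega⟩
  let rel' : Fin n → Word (Fin (n + 1)) := fun i => if h : (i : ℕ) < k then rel ⟨i, h⟩ else []
  have h1 : Subgroup.normalClosure (Set.range fun i => FreeGroup.mk (rel i)) =
      Subgroup.normalClosure (Set.range fun i => FreeGroup.mk (rel' i)) := by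
    apply le_antisymm
    · apply Subgroup.normalClosure_mono
      rintro _ ⟨i, rfl⟩
      refine ⟨⟨i, by omega⟩, ?_⟩
      show FreeGroup.mk (if h : (i : ℕ) < k then rel ⟨i, h⟩ else []) = FreeGroup.mk (rel i)
      rw [dif_pos i.2]
    · apply Subgroup.normalClosure_le_normal
      rintro _ ⟨i, rfl⟩
      show FreeGroup.mk (if h : (i : ℕ) < k then rel ⟨i, h⟩ else []) ∈
        Subgroup.normalClosure (Set.range fun i => FreeGroup.mk (rel i))
      by_cases h : (i : ℕ) < k
      · rw [dif_pos h]
        exact Subgroup.subset_normalClosure ⟨⟨i, h⟩, rfl⟩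
      · rw [dif_neg h]
        exact Subgroup.one_mem _
  exact (no_presentation n rel').false (φ.trans (QuotientGroup.quotientMulEquivOfEq h1))

/-- **`N` is not the normal closure of two elements.** -/
theorem not_two (a b : F) : Subgroup.normalClosure {a, b} ≠ N := by
  intro h
  have hset : (Set.range fun i : Fin 2 => FreeGroup.mk ((![a.toWord, b.toWord] : Fin 2 → Word (Fin 3)) i)) =
      {a, b} := by
    ext x
    simp only [Set.mem_range, Set.mem_insert_iff, Set.mem_singleton_iff]
    constructor
    · rintro ⟨i, rfl⟩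
      fin_cases i
      · left; exact FreeGroup.mk_toWord
      · right; exact FreeGroup.mk_toWord
    · rintro (rfl | rfl)
      · exact ⟨0, FreeGroup.mk_toWord⟩
      · exact ⟨1, FreeGroup.mk_toWord⟩
  exact (no_presentation 2 ![a.toWord, b.toWord]).false
    (QuotientGroup.quotientMulEquivOfEq (by rw [hset]; exact h.symm))

end Pool.Agent.RelGap.Gap
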