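import Pool.Agent.RelGap.GapTower

/-!
# The end of a tower: a subgroup without non-trivial homomorphisms to abelian groups
-/

set_option autoImplicit false

open scoped BigOperators

namespace Pool.Agent.RelGap.Gap

variable {E : Type} [Group E] {J κ : Type} [Fintype κ] {r : J → E} {g : κ → E} {j : κ → J}

/-- a smallest good subgroup that contains `ζ` -/
theorem exists_terminal [IsFreeGroup E] (h : Good r g j (⊤ : Subgroup E)) (ζ : E)
    (hζ : ∀ (H : Subgroup E) (hs : ∀ k, sk r g j k ∈ H) (hz : ζ ∈ H) (φ : H →* Multiplicative ℤ),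
      (∀ k, φ ⟨sk r g j k, hs k⟩ = 1) → φ ⟨ζ, hz⟩ = 1) :
    ∃ H : Subgroup E, H.FG ∧ ζ ∈ H ∧ ∃ hH : Good r g j H, ∀ φ : H →* Multiplicative ℤ,
      (∀ k, φ ⟨sk r g j k, hH.mem k⟩ = 1) → φ = 1 := by
  let D : Set E := Set.range (sk r g j) ∪ Set.range (fun p : κ × κ => g p.1 * (g p.2)⁻¹) ∪ {ζ}
  have hD : D.Finite := ((Set.finite_range _).union (Set.finite_range _)).union (Set.finite_singleton ζ)
  have hDs : ∀ k, sk r g j k ∈ D := fun k => Or.inl (Or.inl ⟨k, rfl⟩)
  have hDg : ∀ k l, g k * (g l)⁻¹ ∈ D := fun k l => Or.inl (Or.inr ⟨(k, l), rfl⟩)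
  have hDζ : ζ ∈ D := Or.inr rfl
  let 𝒮 : Set (Subgroup E) := {H | (∃ S ⊆ D, H = Subgroup.closure S) ∧ ζ ∈ H ∧ Good r g j H}
  have h𝒮 : 𝒮.Finite := by
    refine Set.Finite.subset (hD.finite_subsets.image Subgroup.closure) ?_
    rintro H ⟨⟨S, hS, rfl⟩, _⟩
    exact ⟨S, hS, rfl⟩
  have hne : 𝒮.Nonempty := by
    refine ⟨Subgroup.closure D, ⟨D, le_rfl, rfl⟩, Subgroup.subset_closure hDζ,
      h.restrict le_top ?_ ?_⟩
    · exact fun k => Subgroup.subset_closure (hDs k)
    · exact fun k l _ => Subgroup.subset_closure (hDg k l)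
  obtain ⟨H, hH⟩ := h𝒮.exists_minimal hne
  obtain ⟨⟨⟨S, hS, hHS⟩, hHζ, hG⟩, hmin⟩ := hH
  refine ⟨H, ?_, hHζ, hG, ?_⟩
  · exact ⟨(hD.subset hS).toFinset, by rw [Set.Finite.coe_toFinset, hHS]⟩
  · intro φ hφ
    have : IsFreeGroup H := subgroupIsFreeOfIsFree H
    have hK := hG.cover φ hφ
    set K := φ.ker.map H.subtype with hKdef
    have hKH : K ≤ H := by
      rintro x ⟨a, _, rfl⟩
      exact a.2
    have hKζ : ζ ∈ K := ⟨⟨ζ, hHζ⟩, hζ H hG.mem hHζ φ hφ, rfl⟩
    have h1 : Subgroup.closure (D ∩ K) ≤ K := by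
      rw [Subgroup.closure_le]; exact Set.inter_subset_right
    have h2 : Subgroup.closure (D ∩ K) ∈ 𝒮 := by
      refine ⟨⟨D ∩ K, Set.inter_subset_left, rfl⟩, Subgroup.subset_closure ⟨hDζ, hKζ⟩,
        hK.restrict h1 ?_ ?_⟩
      · exact fun k => Subgroup.subset_closure ⟨hDs k, hK.mem k⟩
      · exact fun k l hkl => Subgroup.subset_closure ⟨hDg k l, hkl⟩
    have h3 : H ≤ K := le_trans (hmin h2 (le_trans h1 hKH)) h1
    apply MonoidHom.ext
    intro a
    obtain ⟨b, hb, hab⟩ := h3 a.2
    have : b = a := Subtype.ext hab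
    rw [← this]
    exact hb

/-- the abelianization, written additively -/
abbrev Ab (H : Type) [Group H] : Type := Additive (Abelianization H)

/-- the class in the abelianization -/
def ab {H : Type} [Group H] (a : H) : Ab H := Additive.ofMul (Abelianization.of a)

theorem ab_mul {H : Type} [Group H] (a b : H) : ab (a * b) = ab a + ab b := by
  unfold ab; rw [map_mul]; rfl

theorem ab_inv {H : Type} [Group H] (a : H) : ab a⁻¹ = - ab a := by
  unfold ab; rw [map_inv]; rfl

theorem ab_conj {H : Type} [Group H] (a b : H) : ab (a * b * a⁻¹) = ab b := by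
  rw [ab_mul, ab_mul, ab_inv]; abel

theorem ab_surjective {H : Type} [Group H] (x : Ab H) : ∃ a : H, ab a = x := by
  obtain ⟨a, ha⟩ := QuotientGroup.mk'_surjective (commutator H) (Additive.toMul x)
  exact ⟨a, congrArg Additive.ofMul ha⟩

theorem ab_torsionFree (H : Type) [Group H] [IsFreeGroup H] : Module.IsTorsionFree ℤ (Ab H) := by
  let e1 : Ab H ≃+ FreeAbelianGroup (IsFreeGroup.Generators H) :=
    MulEquiv.toAdditive (IsFreeGroup.toFreeGroup H).abelianizationCongr
  let e : Ab H ≃+ (IsFreeGroup.Generators H →₀ ℤ) := e1.trans (FreeAbelianGroup.equivFinsupp _)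
  exact Function.Injective.moduleIsTorsionFree e e.injective (fun n x => map_zsmul e n x)

/-- a homomorphism to an abelian group, on the abelianization -/
def abLift {H A : Type} [Group H] [CommGroup A] (f : H →* A) : Ab H →+ Additive A :=
  MonoidHom.toAdditive (Abelianization.lift f)

theorem abLift_ab {H A : Type} [Group H] [CommGroup A] (f : H →* A) (a : H) :
    abLift f (ab a) = Additive.ofMul (f a) := rfl

theorem Good.perfect {H : Subgroup E} [IsFreeGroup H] (hfg : H.FG) (hH : Good r g j H)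
    (hφ : ∀ φ : H →* Multiplicative ℤ, (∀ k, φ ⟨sk r g j k, hH.mem k⟩ = 1) → φ = 1)
    (A : Type) [CommGroup A] (f : H →* A) (hf : ∀ k, f ⟨sk r g j k, hH.mem k⟩ = 1) : f = 1 := by
  classical
  let σ : κ → Ab H := fun k => ab ⟨sk r g j k, hH.mem k⟩
  let S : Submodule ℤ (Ab H) := Submodule.span ℤ (Set.range σ)
  have : Group.FG H := (Group.fg_iff_subgroup_fg H).mpr hfg
  have hfin : Module.Finite ℤ (Ab H) := by
    rw [Module.Finite.iff_addGroup_fg]
    have : Group.FG (Abelianization H) :=
      Group.fg_of_surjective (f := Abelianization.of) (QuotientGroup.mk'_surjective (commutator H))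
    infer_instance
  have htf : Module.IsTorsionFree ℤ (Ab H) := ab_torsionFree H
  have hσ : ∀ k l, Rel g j H k l → σ k = σ l := by
    rintro k l ⟨h1, h2⟩
    have h3 : (⟨sk r g j k, hH.mem k⟩ : H) = ⟨g k * (g l)⁻¹, h2⟩ * ⟨sk r g j l, hH.mem l⟩ *
        ⟨g k * (g l)⁻¹, h2⟩⁻¹ := by
      apply Subtype.ext
      show sk r g j k = g k * (g l)⁻¹ * (g l * r (j l) * (g l)⁻¹) * (g k * (g l)⁻¹)⁻¹
      unfold sk
      rw [← h1]
      group
    show ab _ = ab _
    rw [h3, ab_conj]
  -- the quotient is torsion free at every prime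
  have hprime : ∀ p : ℕ, p.Prime → ∀ x : Ab H, (p : ℤ) • x ∈ S → x ∈ S := by
    intro p hp x hx
    have : Fact p.Prime := ⟨hp⟩
    obtain ⟨c, hc⟩ := (Submodule.mem_span_range_iff_exists_fun ℤ).mp hx
    have h1 : ∀ ψ : H →* Multiplicative (ZMod p),
        ∑ k, (c k : ZMod p) * (ψ ⟨sk r g j k, hH.mem k⟩).toAdd = 0 := by
      intro ψ
      let L : Ab H →+ ZMod p := (abLift ψ : Ab H →+ Additive (Multiplicative (ZMod p)))
      have h2 : L (∑ k, c k • σ k) = L ((p : ℤ) • x) := by rw [hc]
      rw [map_sum, map_zsmul] at h2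
      have h3 : (p : ℤ) • L x = 0 := by simp
      rw [h3] at h2
      rw [← h2]
      refine Finset.sum_congr rfl fun k _ => ?_
      rw [map_zsmul, zsmul_eq_mul]
      rfl
    have h2 := hH.ind p (fun k => (c k : ZMod p)) h1
    have h3 : ∀ d, ∃ m : ℤ, (∑ k, if Rel g j H k d then c k else 0) = p * m := by
      intro d
      have h4 := h2 d
      have h5 : ((∑ k, if Rel g j H k d then c k else 0 : ℤ) : ZMod p) = 0 := by
        rw [← h4, Int.cast_sum]
        refine Finset.sum_congr rfl fun k _ => ?_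
        by_cases h6 : Rel g j H k d
        · rw [if_pos h6, if_pos h6]
        · rw [if_neg h6, if_neg h6, Int.cast_zero]
      exact (ZMod.intCast_zmod_eq_zero_iff_dvd _ _).mp h5
    choose m hm using h3
    have h4 := sum_classes (Rel g j H) c σ hσ
    have h5 : (p : ℤ) • x = (p : ℤ) • ∑ d, (if rep (Rel g j H) d = d then m d else 0) • σ d := by
      rw [← hc, h4, Finset.smul_sum]
      refine Finset.sum_congr rfl fun d _ => ?_
      by_cases h6 : rep (Rel g j H) d = d
      · rw [if_pos h6, if_pos h6, hm d, mul_smul]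
      · rw [if_neg h6, if_neg h6, zero_smul, smul_zero]
    have hp0 : (p : ℤ) ≠ 0 := by exact_mod_cast hp.ne_zero
    have h6 : x = ∑ d, (if rep (Rel g j H) d = d then m d else 0) • σ d :=
      smul_right_injective (Ab H) hp0 h5
    rw [h6]
    exact Submodule.sum_mem _ fun d _ => Submodule.smul_mem _ _
      (Submodule.subset_span (Set.mem_range_self d))
  have hall : ∀ n : ℕ, n ≠ 0 → ∀ x : Ab H, (n : ℤ) • x ∈ S → x ∈ S := by
    intro n
    induction n using Nat.strong_induction_on with
    | _ n ih =>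
      intro hn x hx
      rcases eq_or_ne n 1 with h1 | h1
      · rw [h1] at hx; simpa using hx
      · have hp := Nat.minFac_prime h1
        obtain ⟨m, hm⟩ := Nat.minFac_dvd n
        have hm0 : m ≠ 0 := by rintro rfl; rw [mul_zero] at hm; exact hn hm
        have hmn : m < n := by
          have h2 := hp.two_le
          rw [hm]
          nlinarith [Nat.pos_of_ne_zero hm0]
        apply ih m hmn hm0
        apply hprime _ hp
        rw [← mul_smul]
        have : ((n.minFac : ℤ) * (m : ℤ)) = (n : ℤ) := by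
          rw [← Nat.cast_mul, ← hm]
        rw [this]
        exact hx
  have : Module.IsTorsionFree ℤ (Ab H ⧸ S) := by
    apply Module.IsTorsionFree.of_smul_eq_zero
    intro n x hx
    by_cases hn : n = 0
    · exact Or.inl hn
    · right
      obtain ⟨x, rfl⟩ := Submodule.Quotient.mk_surjective S x
      rw [← Submodule.Quotient.mk_smul, Submodule.Quotient.mk_eq_zero] at hx
      rw [Submodule.Quotient.mk_eq_zero]
      apply hall n.natAbs (Int.natAbs_ne_zero.mpr hn)
      rcases Int.natAbs_eq n with h1 | h1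
      · rwa [← h1]
      · have : (n.natAbs : ℤ) = -n := by omega
        rw [this, neg_smul]
        exact S.neg_mem hx
  have : Module.Free ℤ (Ab H ⧸ S) := Module.free_of_finite_type_torsion_free'
  -- the quotient is trivial
  have htriv : ∀ x : Ab H ⧸ S, x = 0 := by
    intro x
    let b := Module.Free.chooseBasis ℤ (Ab H ⧸ S)
    apply b.ext_elem
    intro i
    let L : Ab H →+ ℤ := ((b.coord i).comp S.mkQ).toAddMonoidHom
    let φ : H →* Multiplicative ℤ :=
      { toFun := fun a => Multiplicative.ofAdd (L (ab a))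
        map_one' := by
          have : ab (1 : H) = 0 := rfl
          rw [this, map_zero, ofAdd_zero]
        map_mul' := fun a c => by rw [ab_mul, map_add, ofAdd_add] }
    have h1 : φ = 1 := by
      apply hφ
      intro k
      have h2 : S.mkQ (σ k) = 0 := by
        rw [Submodule.mkQ_apply, Submodule.Quotient.mk_eq_zero]
        exact Submodule.subset_span (Set.mem_range_self k)
      show Multiplicative.ofAdd (L (σ k)) = 1
      have h3 : L (σ k) = 0 := by
        show b.coord i (S.mkQ (σ k)) = 0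
        rw [h2, map_zero]
      rw [h3, ofAdd_zero]
    obtain ⟨y, rfl⟩ := Submodule.Quotient.mk_surjective S x
    obtain ⟨a, rfl⟩ := ab_surjective y
    have h2 := DFunLike.congr_fun h1 a
    rw [map_zero]
    exact congrArg Multiplicative.toAdd h2
  apply MonoidHom.ext
  intro a
  have h1 : ab a ∈ S := by
    rw [← Submodule.Quotient.mk_eq_zero]
    exact htriv _
  have h2 : S ≤ (LinearMap.ker (abLift f).toIntLinearMap) := by
    rw [Submodule.span_le]
    rintro _ ⟨k, rfl⟩
    rw [SetLike.mem_coe, LinearMap.mem_ker]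
    show Additive.ofMul (f ⟨sk r g j k, hH.mem k⟩) = 0
    rw [hf k]; rfl
  have h3 := h2 h1
  rw [LinearMap.mem_ker] at h3
  exact congrArg Additive.toMul h3

end Pool.Agent.RelGap.Gap
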