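import Mathlib

/-!
# Groups without perfect subgroups, and chains of binary tetrahedral groups in them
-/

set_option autoImplicit false

namespace Pool.Agent.RelGap.Gap

open RegularWreathProduct

/-- If a group `H` has, modulo a set `R`, no non-trivial homomorphism to an abelian group, then it has,
modulo `R`, no non-trivial homomorphism to `X`. -/
def NoPerf (X : Type) [Group X] : Prop :=
  ∀ (H : Type) [Group H] (R : Set H),
    (∀ (A : Type) [CommGroup A] (f : H →* A), (∀ r ∈ R, f r = 1) → f = 1) →
    ∀ f : H →* X, (∀ r ∈ R, f r = 1) → f = 1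

theorem NoPerf.of_comm (X : Type) [CommGroup X] : NoPerf X := fun _ _ _ h f hf => h X f hf

theorem NoPerf.wreath {D Q : Type} [Group D] [Group Q] (hD : NoPerf D) (hQ : NoPerf Q) :
    NoPerf (D ≀ᵣ Q) := by
  intro H _ R h f hf
  have h1 : (rightHom.comp f) = 1 := hQ H R h _ (fun r hr => by
    rw [MonoidHom.comp_apply, hf r hr, map_one])
  have hr : ∀ a, (f a).right = 1 := fun a => DFunLike.congr_fun h1 a
  have h2 : ∀ q : Q, ∀ a, (f a).left q = 1 := by
    intro q
    let g : H →* D :=
      { toFun := fun a => (f a).left q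
        map_one' := by rw [map_one]; rfl
        map_mul' := fun a b => by rw [map_mul, mul_left, hr, inv_one]; simp }
    have hg : g = 1 := hD H R h g (fun r hr' => by
      show (f r).left q = 1
      rw [hf r hr']; rfl)
    intro a
    exact DFunLike.congr_fun hg a
  ext a x
  · rw [h2]; rfl
  · rw [hr]; rfl

abbrev C2 : Type := Multiplicative (ZMod 2)
abbrev C3 : Type := Multiplicative (ZMod 3)
abbrev C4 : Type := Multiplicative (ZMod 4)

/-- a group that contains the quaternion group -/
abbrev B8 : Type := C4 ≀ᵣ C2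

/-- a group that contains the binary tetrahedral group -/
abbrev BT : Type := B8 ≀ᵣ C3

theorem noPerf_BT : NoPerf BT :=
  NoPerf.wreath (NoPerf.wreath (NoPerf.of_comm _) (NoPerf.of_comm _)) (NoPerf.of_comm _)

def qi : B8 := ⟨fun x => if x = 1 then Multiplicative.ofAdd 1 else Multiplicative.ofAdd 3, 1⟩
def qj : B8 := ⟨fun x => if x = 1 then 1 else Multiplicative.ofAdd 2, Multiplicative.ofAdd 1⟩
def qm : B8 := ⟨fun _ => Multiplicative.ofAdd 2, 1⟩

/-- first generator -/
def s₀ : BT := ⟨fun _ => qm, Multiplicative.ofAdd 1⟩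

/-- second generator -/
def u₀ : BT := ⟨fun x => if x = 1 then qi else if x = Multiplicative.ofAdd 1 then qj else qi * qj,
  Multiplicative.ofAdd 2⟩

/-- central element -/
def z₀ : BT := ⟨fun _ => qm, 1⟩

theorem ext8 (a b : B8) (h1 : ∀ x, a.left x = b.left x) (h2 : a.right = b.right) : a = b :=
  RegularWreathProduct.ext (funext h1) h2

theorem extT (a b : BT) (h1 : ∀ x y, (a.left x).left y = (b.left x).left y)
    (h2 : ∀ x, (a.left x).right = (b.left x).right) (h3 : a.right = b.right) : a = b :=
  RegularWreathProduct.ext (funext fun x => ext8 _ _ (h1 x) (h2 x)) h3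

theorem s₀_cube : s₀ * s₀ * s₀ = z₀ := by
  apply extT
  · decide
  · decide
  · decide

theorem u₀_cube : u₀ * u₀ * u₀ = z₀ := by
  apply extT
  · decide
  · decide
  · decide

theorem su₀_sq : (s₀ * u₀) * (s₀ * u₀) = z₀ := by
  apply extT
  · decide
  · decide
  · decide

theorem z₀_sq : z₀ * z₀ = 1 := by
  apply extT
  · decide
  · decide
  · decide

theorem z₀_ne : z₀ ≠ 1 := by
  intro h
  have : (z₀.left 1).left 1 = ((1 : BT).left 1).left 1 := by rw [h]
  revert this
  decide

end Pool.Agent.RelGap.Gap
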