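import Pool.Agent.RelGap.GapMin
import Pool.Agent.RelGap.GapWin

/-!
# Elements of finite order modulo independent relators
-/

set_option autoImplicit false

open scoped BigOperators

namespace Pool.Agent.RelGap.Gap

variable {E : Type} [Group E] {J : Type} (r : J → E)

/-- `w` is a product of conjugates of the relators `r j` -/
def IsProd (w : E) : Prop :=
  ∃ (κ : Type) (_ : Fintype κ) (g : κ → E) (j : κ → J) (ε : κ → ℤ),
    ∀ (H : Subgroup E) (hs : ∀ k, sk r g j k ∈ H), ∃ hw : w ∈ H,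
      ∀ (A : Type) [CommGroup A] (ψ : H →* A), ψ ⟨w, hw⟩ = ∏ k, ψ ⟨sk r g j k, hs k⟩ ^ ε k

theorem isProd_one : IsProd r 1 := by
  refine ⟨Fin 0, inferInstance, fun k => k.elim0, fun k => k.elim0, fun k => k.elim0, ?_⟩
  intro H hs
  refine ⟨H.one_mem, ?_⟩
  intro A _ ψ
  rw [Fin.prod_univ_zero]
  exact map_one ψ

theorem isProd_gen (i : J) : IsProd r (r i) := by
  refine ⟨Unit, inferInstance, fun _ => 1, fun _ => i, fun _ => 1, ?_⟩
  intro H hs
  have h1 : sk r (fun _ : Unit => (1 : E)) (fun _ => i) () = r i := by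
    unfold sk; rw [one_mul, inv_one, mul_one]
  have h2 : r i ∈ H := by rw [← h1]; exact hs ()
  refine ⟨h2, ?_⟩
  intro A _ ψ
  rw [Fintype.prod_unique]
  show ψ ⟨r i, h2⟩ = ψ ⟨sk r (fun _ : Unit => (1 : E)) (fun _ => i) (), hs ()⟩ ^ (1 : ℤ)
  rw [zpow_one]
  congr 1
  exact Subtype.ext h1.symm

theorem isProd_mul {a b : E} (ha : IsProd r a) (hb : IsProd r b) : IsProd r (a * b) := by
  obtain ⟨κ, _, g, j, ε, h⟩ := ha
  obtain ⟨κ', _, g', j', ε', h'⟩ := hb
  refine ⟨κ ⊕ κ', inferInstance, Sum.elim g g', Sum.elim j j', Sum.elim ε ε', ?_⟩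
  intro H hs
  obtain ⟨h1, h2⟩ := h H (fun k => hs (Sum.inl k))
  obtain ⟨h1', h2'⟩ := h' H (fun k => hs (Sum.inr k))
  refine ⟨H.mul_mem h1 h1', ?_⟩
  intro A _ ψ
  rw [Fintype.prod_sum_type]
  have h3 : (⟨a * b, H.mul_mem h1 h1'⟩ : H) = ⟨a, h1⟩ * ⟨b, h1'⟩ := rfl
  rw [h3, map_mul, h2, h2']
  rfl

theorem isProd_inv {a : E} (ha : IsProd r a) : IsProd r a⁻¹ := by
  obtain ⟨κ, _, g, j, ε, h⟩ := ha
  refine ⟨κ, inferInstance, g, j, fun k => - ε k, ?_⟩
  intro H hs
  obtain ⟨h1, h2⟩ := h H hs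
  refine ⟨H.inv_mem h1, ?_⟩
  intro A _ ψ
  have h3 : (⟨a⁻¹, H.inv_mem h1⟩ : H) = (⟨a, h1⟩ : H)⁻¹ := rfl
  rw [h3, map_inv, h2, ← Finset.prod_inv_distrib]
  refine Finset.prod_congr rfl fun k _ => ?_
  rw [zpow_neg]

/-- conjugation, as a homomorphism between subgroups -/
def conjHom (H : Subgroup E) (x : E) : H.comap (MulAut.conj x).toMonoidHom →* H where
  toFun a := ⟨x * a * x⁻¹, a.2⟩
  map_one' := by
    apply Subtype.ext
    show x * 1 * x⁻¹ = 1
    group
  map_mul' a b := by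
    apply Subtype.ext
    show x * (a * b) * x⁻¹ = x * a * x⁻¹ * (x * b * x⁻¹)
    group

theorem isProd_conj {a : E} (ha : IsProd r a) (x : E) : IsProd r (x * a * x⁻¹) := by
  obtain ⟨κ, _, g, j, ε, h⟩ := ha
  refine ⟨κ, inferInstance, fun k => x * g k, j, ε, ?_⟩
  have hsk : ∀ k, sk r (fun k => x * g k) j k = x * sk r g j k * x⁻¹ := by
    intro k; unfold sk; group
  intro H hs
  have hs' : ∀ k, sk r g j k ∈ H.comap (MulAut.conj x).toMonoidHom := by
    intro k
    show x * sk r g j k * x⁻¹ ∈ H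
    rw [← hsk]; exact hs k
  obtain ⟨h1, h2⟩ := h _ hs'
  refine ⟨h1, ?_⟩
  intro A _ ψ
  have h3 := h2 A (ψ.comp (conjHom H x))
  have h4 : (ψ.comp (conjHom H x)) ⟨a, h1⟩ = ψ ⟨x * a * x⁻¹, h1⟩ := rfl
  rw [← h4, h3]
  refine Finset.prod_congr rfl fun k _ => ?_
  have h5 : (conjHom H x) ⟨sk r g j k, hs' k⟩ = ⟨sk r (fun k => x * g k) j k, hs k⟩ :=
    Subtype.ext (hsk k).symm
  rw [MonoidHom.comp_apply, h5]

theorem isProd_of_mem {w : E} (hw : w ∈ Subgroup.normalClosure (Set.range r)) : IsProd r w := by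
  let P : Subgroup E :=
    { carrier := {w | IsProd r w}
      one_mem' := isProd_one r
      mul_mem' := fun ha hb => isProd_mul r ha hb
      inv_mem' := fun ha => isProd_inv r ha }
  have hP : P.Normal := ⟨fun a ha x => isProd_conj r ha x⟩
  have h1 : Subgroup.normalClosure (Set.range r) ≤ P := by
    apply Subgroup.normalClosure_le_normal
    rintro _ ⟨i, rfl⟩
    exact isProd_gen r i
  exact h1 hw

theorem sk_mem {κ : Type} (g : κ → E) (j : κ → J) (k : κ) :
    sk r g j k ∈ Subgroup.normalClosure (Set.range r) :=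
  (Subgroup.normalClosure_normal (s := Set.range r)).conj_mem _
    (Subgroup.subset_normalClosure (Set.mem_range_self (j k))) _

/-- independence modulo every prime gives a good start of the tower -/
theorem good_top [Fintype J] {κ : Type} [Fintype κ] (g : κ → E) (j : κ → J)
    (hr : ∀ (p : ℕ) [Fact p.Prime] (c : J → ZMod p),
      (∀ ψ : E →* Multiplicative (ZMod p), ∑ i, c i * (ψ (r i)).toAdd = 0) → ∀ i, c i = 0) :
    Good r g j (⊤ : Subgroup E) := by
  classical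
  refine ⟨fun k => Subgroup.mem_top _, ?_⟩
  intro p _ c hc k₀
  have h1 := hr p (fun i => ∑ k, if j k = i then c k else 0) (by
    intro ψ
    have h2 := hc (ψ.comp (⊤ : Subgroup E).subtype)
    refine Eq.trans ?_ h2
    have h3 : ∀ k, ((ψ.comp (⊤ : Subgroup E).subtype) ⟨sk r g j k, Subgroup.mem_top _⟩) = ψ (r (j k)) := by
      intro k
      show ψ (g k * r (j k) * (g k)⁻¹) = _
      rw [map_mul, map_mul, map_inv, mul_comm (ψ (g k)), mul_inv_cancel_right]
    simp only [h3, Finset.sum_mul]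
    rw [Finset.sum_comm]
    refine Finset.sum_congr rfl fun k _ => ?_
    rw [Finset.sum_eq_single (j k)]
    · rw [if_pos rfl]
    · intro i _ hi
      rw [if_neg (Ne.symm hi), zero_mul]
    · intro h; exact absurd (Finset.mem_univ _) h) (j k₀)
  refine Eq.trans (Finset.sum_congr rfl fun k _ => ?_) h1
  have h2 : Rel g j (⊤ : Subgroup E) k k₀ ↔ j k = j k₀ := by
    rw [rel_def]
    exact ⟨fun h => h.1, fun h => ⟨h, Subgroup.mem_top _⟩⟩
  by_cases h3 : j k = j k₀
  · rw [if_pos h3, if_pos (h2.mpr h3)]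
  · rw [if_neg h3, if_neg (fun h => h3 (h2.mp h))]

/-- **Elements of finite order modulo independent relators.** If a power of `ζ` is a consequence of the
relators, then `ζ` lies in a finitely generated subgroup which is perfect modulo finitely many of its
elements that are consequences of the relators. -/
theorem perfect_cover [IsFreeGroup E] [Fintype J]
    (hr : ∀ (p : ℕ) [Fact p.Prime] (c : J → ZMod p),
      (∀ ψ : E →* Multiplicative (ZMod p), ∑ i, c i * (ψ (r i)).toAdd = 0) → ∀ i, c i = 0)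
    (ζ : E) (m : ℕ) (hm : m ≠ 0) (hζ : ζ ^ m ∈ Subgroup.normalClosure (Set.range r)) :
    ∃ H : Subgroup E, H.FG ∧ ζ ∈ H ∧ ∃ Φ : Finset E, (∀ x ∈ Φ, x ∈ H) ∧
      (∀ x ∈ Φ, x ∈ Subgroup.normalClosure (Set.range r)) ∧
      ∀ (A : Type) [CommGroup A] (f : H →* A), (∀ x (hx : x ∈ H), x ∈ Φ → f ⟨x, hx⟩ = 1) → f = 1 := by
  classical
  obtain ⟨κ, _, g, j, ε, hprod⟩ := isProd_of_mem r hζ
  obtain ⟨H, hfg, hHζ, hG, hterm⟩ := exists_terminal (good_top r g j hr) ζ (by
    intro H hs hz φ hφ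
    obtain ⟨h1, h2⟩ := hprod H hs
    have h3 := h2 _ φ
    simp only [hφ, one_zpow, Finset.prod_const_one] at h3
    have h4 : (⟨ζ ^ m, h1⟩ : H) = ⟨ζ, hz⟩ ^ m := rfl
    rw [h4, map_pow] at h3
    have h5 := congrArg Multiplicative.toAdd h3
    rw [toAdd_pow, toAdd_one, nsmul_eq_mul, mul_eq_zero] at h5
    rcases h5 with h5 | h5
    · exact absurd (by exact_mod_cast h5) hm
    · exact Multiplicative.toAdd.injective h5)
  have : IsFreeGroup H := subgroupIsFreeOfIsFree H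
  refine ⟨H, hfg, hHζ, Finset.univ.image (sk r g j), ?_, ?_, ?_⟩
  · intro x hx
    obtain ⟨k, _, rfl⟩ := Finset.mem_image.mp hx
    exact hG.mem k
  · intro x hx
    obtain ⟨k, _, rfl⟩ := Finset.mem_image.mp hx
    exact sk_mem r g j k
  · intro A _ f hf
    exact hG.perfect hfg hterm A f fun k => hf _ _ (Finset.mem_image_of_mem _ (Finset.mem_univ k))

/-- Elements of finite order in a group given by independent relators lie in finitely generated perfect
subgroups. -/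
theorem mem_perfect [IsFreeGroup E] [Fintype J]
    (hr : ∀ (p : ℕ) [Fact p.Prime] (c : J → ZMod p),
      (∀ ψ : E →* Multiplicative (ZMod p), ∑ i, c i * (ψ (r i)).toAdd = 0) → ∀ i, c i = 0)
    (x : E ⧸ Subgroup.normalClosure (Set.range r)) (hx : IsOfFinOrder x) :
    ∃ P : Subgroup (E ⧸ Subgroup.normalClosure (Set.range r)), P.FG ∧ ⁅P, P⁆ = P ∧ x ∈ P := by
  obtain ⟨m, hm, hxm⟩ := isOfFinOrder_iff_pow_eq_one.mp hx
  obtain ⟨ζ, rfl⟩ := QuotientGroup.mk'_surjective _ x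
  have hζ : ζ ^ m ∈ Subgroup.normalClosure (Set.range r) := by
    rw [← QuotientGroup.eq_one_iff]; exact hxm
  obtain ⟨H, hfg, hHζ, Φ, hΦH, hΦ, hA⟩ := perfect_cover r hr ζ m hm.ne' hζ
  let q := QuotientGroup.mk' (Subgroup.normalClosure (Set.range r))
  have hq : ∀ a, a ∈ Subgroup.normalClosure (Set.range r) → q a = 1 := fun a ha =>
    (QuotientGroup.eq_one_iff a).mpr ha
  have hfgH : Group.FG H := (Group.fg_iff_subgroup_fg H).mpr hfg
  refine ⟨H.map q, (Group.fg_iff_subgroup_fg _).mp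
    (Group.fg_of_surjective (q.subgroupMap_surjective H)), ?_, ⟨ζ, hHζ, rfl⟩⟩
  apply le_antisymm
  · rw [Subgroup.commutator_le]
    intro a ha b hb
    exact (H.map q).mul_mem ((H.map q).mul_mem ((H.map q).mul_mem ha hb) ((H.map q).inv_mem ha))
      ((H.map q).inv_mem hb)
  · -- the homomorphism to the abelianization of the image
    let f : H →* Abelianization (H.map q) := Abelianization.of.comp (q.subgroupMap H)
    have hf : f = 1 := by
      apply hA
      intro a ha haΦ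
      have h1 : (q.subgroupMap H) ⟨a, ha⟩ = 1 := Subtype.ext (hq a (hΦ a haΦ))
      show Abelianization.of ((q.subgroupMap H) ⟨a, ha⟩) = 1
      rw [h1, map_one]
    rintro _ ⟨a, ha, rfl⟩
    have h2 : Abelianization.of ((q.subgroupMap H) ⟨a, ha⟩) = 1 := DFunLike.congr_fun hf ⟨a, ha⟩
    have h3 : (q.subgroupMap H) ⟨a, ha⟩ ∈ commutator (H.map q) := by
      rw [← Abelianization.ker_of]; exact h2
    rw [← Subgroup.map_subtype_commutator]
    exact ⟨_, h3, rfl⟩

/-- Independent relators in a free group cannot kill a power of `ζ` if `ζ` survives in groups without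
perfect subgroups. -/
theorem no_torsion [IsFreeGroup E] [Fintype J]
    (hr : ∀ (p : ℕ) [Fact p.Prime] (c : J → ZMod p),
      (∀ ψ : E →* Multiplicative (ZMod p), ∑ i, c i * (ψ (r i)).toAdd = 0) → ∀ i, c i = 0)
    (τ : E →* Multiplicative ℤ) (hτ : Subgroup.normalClosure (Set.range r) ≤ τ.ker)
    (ζ : E) (hζ : ζ ∈ τ.ker) (m : ℕ) (hm : m ≠ 0) (hζm : ζ ^ m ∈ Subgroup.normalClosure (Set.range r))
    (hW : ∀ Φ : Finset E, (∀ w ∈ Φ, w ∈ Subgroup.normalClosure (Set.range r)) →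
      ∃ (X : Type) (_ : Group X), NoPerf X ∧ ∃ θ : τ.ker →* X,
        (∀ w (h : w ∈ τ.ker), w ∈ Φ → θ ⟨w, h⟩ = 1) ∧ θ ⟨ζ, hζ⟩ ≠ 1) : False := by
  obtain ⟨H, _, hHζ, Φ, hΦH, hΦ, hA⟩ := perfect_cover r hr ζ m hm hζm
  obtain ⟨X, _, hX, θ, hθ, hθζ⟩ := hW Φ hΦ
  have hHτ : H ≤ τ.ker := by
    have h1 := hA _ (τ.comp H.subtype) (fun x _ hxΦ => hτ (hΦ x hxΦ))
    intro x hx
    exact DFunLike.congr_fun h1 (⟨x, hx⟩ : H)
  have h1 := hX H {x | (x : E) ∈ Φ} (fun A _ f hf => hA A f (fun x hx hxΦ => hf ⟨x, hx⟩ hxΦ))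
    (θ.comp (Subgroup.inclusion hHτ)) (fun x hx => hθ x (hHτ x.2) hx)
  exact hθζ (DFunLike.congr_fun h1 (⟨ζ, hHζ⟩ : H))

end Pool.Agent.RelGap.Gap
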