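import Pool.Agent.RelGap.GapAff

/-!
# Independence of relators in subgroups of a free group (towers of infinite cyclic covers)
-/

set_option autoImplicit false

open scoped BigOperators PowerSeries

namespace Pool.Agent.RelGap.Gap

section Classes

variable {κ : Type} [Fintype κ] (R : Setoid κ)

/-- a representative of the class -/
noncomputable def rep (k : κ) : κ := Quotient.out (Quotient.mk R k)

omit [Fintype κ] in
theorem rep_rel (k : κ) : R (rep R k) k := Quotient.exact (Quotient.out_eq (Quotient.mk R k))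

omit [Fintype κ] in
theorem rep_eq {k l : κ} (h : R k l) : rep R k = rep R l := by
  unfold rep
  rw [Quotient.sound h]

omit [Fintype κ] in
theorem rep_rep (k : κ) : rep R (rep R k) = rep R k := rep_eq R (rep_rel R k)

omit [Fintype κ] in
theorem rel_iff_rep {k l : κ} : R k l ↔ rep R k = rep R l := by
  refine ⟨rep_eq R, fun h => ?_⟩
  have h1 := rep_rel R k
  rw [h] at h1
  exact R.trans (R.symm h1) (rep_rel R l)

open Classical in
/-- sums over classes -/
theorem sum_classes {A M : Type} [Semiring A] [AddCommMonoid M] [Module A M] (c : κ → A) (b : κ → M)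
    (hb : ∀ k l, R k l → b k = b l) :
    ∑ k, c k • b k = ∑ d, (if rep R d = d then (∑ k, if R k d then c k else 0) else 0) • b d := by
  have h1 : ∀ d, (if rep R d = d then (∑ k, if R k d then c k else 0) else 0) • b d =
      ∑ k, (if rep R k = d then c k • b k else 0) := by
    intro d
    by_cases hd : rep R d = d
    · rw [if_pos hd, Finset.sum_smul]
      refine Finset.sum_congr rfl fun k _ => ?_
      have h2 : R k d ↔ rep R k = d := by rw [rel_iff_rep, hd]
      by_cases h3 : R k d
      · rw [if_pos h3, if_pos (h2.mp h3), hb k d h3]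
      · rw [if_neg h3, if_neg (fun h => h3 (h2.mpr h)), zero_smul]
    · rw [if_neg hd, zero_smul]
      symm
      apply Finset.sum_eq_zero
      intro k _
      rw [if_neg]
      intro h
      apply hd
      rw [← h, rep_rep]
  simp only [h1]
  rw [Finset.sum_comm]
  refine Finset.sum_congr rfl fun k _ => ?_
  rw [Finset.sum_ite_eq Finset.univ (rep R k), if_pos (Finset.mem_univ _)]

end Classes

variable {E : Type} [Group E] {J κ : Type} [Fintype κ] (r : J → E) (g : κ → E) (j : κ → J)

/-- conjugates of the relators -/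
def sk (k : κ) : E := g k * r (j k) * (g k)⁻¹

/-- equal cells of the cover given by `H` -/
def Rel (H : Subgroup E) : Setoid κ where
  r k l := j k = j l ∧ g k * (g l)⁻¹ ∈ H
  iseqv :=
    { refl := fun k => ⟨rfl, by rw [mul_inv_cancel]; exact H.one_mem⟩
      symm := fun {k l} h => ⟨h.1.symm, by
        have := H.inv_mem h.2
        rwa [mul_inv_rev, inv_inv] at this⟩
      trans := fun {k l m} h h' => ⟨h.1.trans h'.1, by
        have := H.mul_mem h.2 h'.2
        rwa [← mul_assoc, inv_mul_cancel_right] at this⟩ }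

omit [Fintype κ] in
theorem rel_def (H : Subgroup E) (k l : κ) : Rel g j H k l ↔ j k = j l ∧ g k * (g l)⁻¹ ∈ H := Iff.rfl

open Classical in
/-- `H` contains the conjugates of the relators, and those that are different cells are independent
in the abelianization of `H`, modulo every prime -/
structure Good (H : Subgroup E) : Prop where
  mem : ∀ k, sk r g j k ∈ H
  ind : ∀ (p : ℕ) [Fact p.Prime] (c : κ → ZMod p),
    (∀ ψ : H →* Multiplicative (ZMod p), ∑ k, c k * (ψ ⟨sk r g j k, mem k⟩).toAdd = 0) →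
    ∀ k₀, (∑ k, if Rel g j H k k₀ then c k else 0) = 0

variable {r g j}

theorem Good.restrict {K H : Subgroup E} (hK : Good r g j K) (hle : H ≤ K)
    (hm : ∀ k, sk r g j k ∈ H) (hr : ∀ k l, g k * (g l)⁻¹ ∈ K → g k * (g l)⁻¹ ∈ H) :
    Good r g j H := by
  classical
  refine ⟨hm, ?_⟩
  intro p _ c hc k₀
  have h1 := hK.ind p c (fun ψ => hc (ψ.comp (Subgroup.inclusion hle))) k₀
  refine Eq.trans (Finset.sum_congr rfl fun k _ => ?_) h1
  have h2 : Rel g j H k k₀ ↔ Rel g j K k k₀ := by
    rw [rel_def, rel_def]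
    exact ⟨fun h => ⟨h.1, hle h.2⟩, fun h => ⟨h.1, hr _ _ h.2⟩⟩
  by_cases h3 : Rel g j H k k₀
  · rw [if_pos h3, if_pos (h2.mp h3)]
  · rw [if_neg h3, if_neg (fun h => h3 (h2.mpr h))]

theorem aff_conj {A : Type} [CommRing A] (x y : Aff A) (hy : y.lin = 1) :
    (x * y * x⁻¹).tr = x.lin * y.tr := by
  simp only [Aff.mul_tr, Aff.mul_lin, Aff.inv_tr, hy, mul_one]
  rw [mul_neg, ← mul_assoc, ← Units.val_mul, mul_inv_cancel, Units.val_one, one_mul]
  ring

/-- infinite cyclic covers -/
theorem Good.cover {H : Subgroup E} [IsFreeGroup H] (hH : Good r g j H)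
    (φ : H →* Multiplicative ℤ) (hφ : ∀ k, φ ⟨sk r g j k, hH.mem k⟩ = 1) :
    Good r g j (φ.ker.map H.subtype) := by
  classical
  have hmem : ∀ x, x ∈ φ.ker.map H.subtype ↔ ∃ h : x ∈ H, φ ⟨x, h⟩ = 1 := by
    intro x
    rw [Subgroup.mem_map]
    constructor
    · rintro ⟨a, ha, rfl⟩
      exact ⟨a.2, ha⟩
    · rintro ⟨h, hx⟩
      exact ⟨⟨x, h⟩, hx, rfl⟩
  refine ⟨fun k => (hmem _).mpr ⟨hH.mem k, hφ k⟩, ?_⟩
  intro p _ c hc k₀
  set R := Rel g j H with hR
  -- the element that moves the representative to `k`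
  have hh : ∀ k, g k * (g (rep R k))⁻¹ ∈ H := fun k => (R.symm (rep_rel R k)).2
  let h : κ → H := fun k => ⟨g k * (g (rep R k))⁻¹, hh k⟩
  have hconj : ∀ k, (⟨sk r g j k, hH.mem k⟩ : H) =
      h k * ⟨sk r g j (rep R k), hH.mem _⟩ * (h k)⁻¹ := by
    intro k
    apply Subtype.ext
    show sk r g j k = g k * (g (rep R k))⁻¹ * (g (rep R k) * r (j (rep R k)) * (g (rep R k))⁻¹) *
      (g k * (g (rep R k))⁻¹)⁻¹
    have hj : j (rep R k) = j k := (rep_rel R k).1
    rw [hj]
    unfold sk
    group
  let C : κ → (ZMod p)⟦X⟧ := fun d => ∑ k, if rep R k = d then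
    c k • (((T (ZMod p)) ^ (φ (h k)).toAdd : ((ZMod p)⟦X⟧)ˣ) : (ZMod p)⟦X⟧) else 0
  -- the relation in power series
  have key : ∀ M : H →* Aff ((ZMod p)⟦X⟧), (∀ a, (M a).lin = (T (ZMod p)) ^ (φ a).toAdd) →
      ∑ d, C d * (M ⟨sk r g j d, hH.mem d⟩).tr = 0 := by
    intro M hM
    have h1 : ∑ k, c k • (M ⟨sk r g j k, hH.mem k⟩).tr = 0 := by
      apply PowerSeries.ext
      intro m
      rw [map_sum, map_zero]
      have hKH : ∀ a : φ.ker.map H.subtype, (a : E) ∈ H := fun a => ((hmem a).mp a.2).choose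
      let ψ : (φ.ker.map H.subtype) →* Multiplicative (ZMod p) :=
        { toFun := fun a => Multiplicative.ofAdd
            (PowerSeries.coeff m (M ⟨a, hKH a⟩).tr)
          map_one' := by
            show Multiplicative.ofAdd (PowerSeries.coeff m (M 1).tr) = 1
            rw [map_one, Aff.one_tr, map_zero, ofAdd_zero]
          map_mul' := fun a b => by
            have ha : φ ⟨a, hKH a⟩ = 1 := ((hmem a).mp a.2).choose_spec
            show Multiplicative.ofAdd (PowerSeries.coeff m (M (⟨a, hKH a⟩ * ⟨b, hKH b⟩)).tr) = _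
            rw [← ofAdd_add, map_mul, Aff.mul_tr, hM, ha, toAdd_one, zpow_zero, Units.val_one,
              one_mul, map_add] }
      have h2 := hc ψ
      rw [← h2]
      refine Finset.sum_congr rfl fun k _ => ?_
      rw [map_smul, smul_eq_mul]
      rfl
    rw [← h1]
    have h3 : ∀ k, c k • (M ⟨sk r g j k, hH.mem k⟩).tr =
        (c k • (((T (ZMod p)) ^ (φ (h k)).toAdd : ((ZMod p)⟦X⟧)ˣ) : (ZMod p)⟦X⟧)) *
          (M ⟨sk r g j (rep R k), hH.mem _⟩).tr := by
      intro k
      rw [hconj k, map_mul, map_mul, map_inv, aff_conj, hM, smul_mul_assoc]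
      rw [hM, hφ, toAdd_one, zpow_zero]
    simp only [h3]
    simp only [C, Finset.sum_mul]
    rw [Finset.sum_comm]
    refine Finset.sum_congr rfl fun k _ => ?_
    rw [Finset.sum_eq_single (rep R k)]
    · rw [if_pos rfl]
    · intro d _ hd
      rw [if_neg (Ne.symm hd), zero_mul]
    · intro h; exact absurd (Finset.mem_univ _) h
  have hCrep : ∀ d, rep R d ≠ d → C d = 0 := by
    intro d hd
    apply Finset.sum_eq_zero
    intro k _
    rw [if_neg]
    intro h1
    apply hd
    rw [← h1, rep_rep]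
  -- divisibility by all powers of `X`
  have hdiv : ∀ n : ℕ, ∀ d, PowerSeries.X ^ n ∣ C d := by
    intro n
    induction n with
    | zero => intro d; rw [pow_zero]; exact one_dvd _
    | succ n ih =>
      choose C' hC' using ih
      have h1 : ∀ M : H →* Aff ((ZMod p)⟦X⟧), (∀ a, (M a).lin = (T (ZMod p)) ^ (φ a).toAdd) →
          ∑ d, C' d * (M ⟨sk r g j d, hH.mem d⟩).tr = 0 := by
        intro M hM
        have h2 := key M hM
        have h3 : PowerSeries.X ^ n * ∑ d, C' d * (M ⟨sk r g j d, hH.mem d⟩).tr = 0 := by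
          rw [← h2, Finset.mul_sum]
          refine Finset.sum_congr rfl fun d _ => ?_
          rw [hC' d, mul_assoc]
        rcases mul_eq_zero.mp h3 with h4 | h4
        · exact absurd h4 (pow_ne_zero _ PowerSeries.X_ne_zero)
        · exact h4
      have h2 : ∀ ψ : H →* Multiplicative (ZMod p),
          ∑ k, PowerSeries.constantCoeff (C' k) * (ψ ⟨sk r g j k, hH.mem k⟩).toAdd = 0 := by
        intro ψ
        obtain ⟨M, hM1, hM2⟩ := exists_crossed (ZMod p) φ ψ
        have h3 := congrArg (PowerSeries.constantCoeff (R := ZMod p)) (h1 M hM1)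
        rw [map_sum, map_zero] at h3
        rw [← h3]
        refine Finset.sum_congr rfl fun k _ => ?_
        rw [map_mul, hM2]
      have h3 := hH.ind p (fun k => PowerSeries.constantCoeff (C' k)) h2
      intro d
      by_cases hd : rep R d = d
      · have h4 := h3 d
        rw [Finset.sum_eq_single d] at h4
        · rw [if_pos (R.refl d)] at h4
          obtain ⟨q, hq⟩ := PowerSeries.X_dvd_iff.mpr h4
          exact ⟨q, by rw [hC' d, hq, pow_succ, mul_assoc]⟩
        · intro k _ hk
          by_cases h5 : rep R k = k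
          · rw [if_neg]
            intro h6
            apply hk
            rw [← h5, rep_eq R h6, hd]
          · have h6 : C' k = 0 := by
              have h7 := hCrep k h5
              rw [hC' k] at h7
              rcases mul_eq_zero.mp h7 with h8 | h8
              · exact absurd h8 (pow_ne_zero _ PowerSeries.X_ne_zero)
              · exact h8
            rw [h6, map_zero, ite_self]
        · intro h; exact absurd (Finset.mem_univ _) h
      · rw [hCrep d hd]; exact dvd_zero _
  have hC0 : C (rep R k₀) = 0 := by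
    apply PowerSeries.ext
    intro m
    rw [map_zero]
    exact PowerSeries.X_pow_dvd_iff.mp (hdiv (m + 1) _) m (Nat.lt_succ_self m)
  have h1 : ∑ k, (if rep R k = rep R k₀ then c k else 0) •
      (((T (ZMod p)) ^ (φ (h k)).toAdd : ((ZMod p)⟦X⟧)ˣ) : (ZMod p)⟦X⟧) = 0 := by
    rw [← hC0]
    refine Finset.sum_congr rfl fun k _ => ?_
    by_cases h2 : rep R k = rep R k₀
    · rw [if_pos h2, if_pos h2]
    · rw [if_neg h2, if_neg h2, zero_smul]
  have h2 := T_indep (ZMod p) (fun k => if rep R k = rep R k₀ then c k else 0)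
    (fun k => (φ (h k)).toAdd) h1 (φ (h k₀)).toAdd
  refine Eq.trans (Finset.sum_congr rfl fun k _ => ?_) h2
  have h3 : Rel g j (φ.ker.map H.subtype) k k₀ ↔
      (φ (h k)).toAdd = (φ (h k₀)).toAdd ∧ rep R k = rep R k₀ := by
    rw [rel_def, hmem]
    constructor
    · rintro ⟨h4, h5, h6⟩
      have h7 : R k k₀ := ⟨h4, h5⟩
      have h8 := rep_eq R h7
      refine ⟨?_, h8⟩
      have h9 : (⟨g k * (g k₀)⁻¹, h5⟩ : H) = h k * (h k₀)⁻¹ := by
        apply Subtype.ext
        show g k * (g k₀)⁻¹ = g k * (g (rep R k))⁻¹ * (g k₀ * (g (rep R k₀))⁻¹)⁻¹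
        rw [h8]
        group
      rw [h9, map_mul, map_inv, mul_inv_eq_one] at h6
      rw [h6]
    · rintro ⟨h4, h5⟩
      have h6 : R k k₀ := (rel_iff_rep R).mpr h5
      refine ⟨h6.1, h6.2, ?_⟩
      have h9 : (⟨g k * (g k₀)⁻¹, h6.2⟩ : H) = h k * (h k₀)⁻¹ := by
        apply Subtype.ext
        show g k * (g k₀)⁻¹ = g k * (g (rep R k))⁻¹ * (g k₀ * (g (rep R k₀))⁻¹)⁻¹
        rw [h5]
        group
      rw [h9, map_mul, map_inv, mul_inv_eq_one]
      exact Multiplicative.toAdd.injective h4
  by_cases h4 : Rel g j (φ.ker.map H.subtype) k k₀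
  · rw [if_pos h4, if_pos (h3.mp h4).1, if_pos (h3.mp h4).2]
  · rw [if_neg h4]
    by_cases h5 : (φ (h k)).toAdd = (φ (h k₀)).toAdd
    · rw [if_pos h5, if_neg (fun h6 => h4 (h3.mpr ⟨h5, h6⟩))]
    · rw [if_neg h5]

end Pool.Agent.RelGap.Gap
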