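import Pool.Agent.RelGap.Contr

/-!
# The complex `⟨s, u, t ∣ v, w, t⟩` is contractible

Setting `t = 1` in `v` and `w` leaves `⟨s, u ∣ (s u)² = s³, s u³ s⁻¹ u⁻³ s u⁻³⟩`, a balanced presentation
of the trivial group.
-/

set_option autoImplicit false

namespace Pool.Agent.RelGap

open Pool.Agent.FoxAsph

/-- `u s u = s²` and `s u⁻³ s = u³ s u⁻³` imply `s = u = 1` (a chain of rewriting rules). -/
theorem kill {H : Type} [Group H] (s u : H) (h₁ : u * s * u = s * s)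
    (h₂ : s * u⁻¹ * u⁻¹ * u⁻¹ * s = u * u * u * s * u⁻¹ * u⁻¹ * u⁻¹) : s = 1 ∧ u = 1 := by
  have a0 : ∀ x : H, u * (s * (u * x)) = s * (s * x) := fun x => by simpa only [mul_assoc] using congrArg (· * x) h₁
  have a1 : ∀ x : H, s * (u⁻¹ * (u⁻¹ * (u⁻¹ * (s * x)))) = u * (u * (u * (s * (u⁻¹ * (u⁻¹ * (u⁻¹ * x)))))) := fun x => by simpa only [mul_assoc] using congrArg (· * x) h₂
  have r0 : ∀ x : H, s * (s⁻¹ * x) = x := fun x => mul_inv_cancel_left s x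
  have r1 : ∀ x : H, s⁻¹ * (s * x) = x := fun x => inv_mul_cancel_left s x
  have r2 : ∀ x : H, u * (u⁻¹ * x) = x := fun x => mul_inv_cancel_left u x
  have r3 : ∀ x : H, u⁻¹ * (u * x) = x := fun x => inv_mul_cancel_left u x
  have r4 : ∀ x : H, u * (s * (u * x)) = s * (s * x) := fun x => by
    have e₀ : u * (s * (u * x)) = s * (s * x) := a0 x
    have ea : u * (s * (u * x)) = u * (s * (u * x)) := rfl
    have eb : s * (s * x) = s * (s * x) := rfl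
    exact ea.symm.trans (e₀.trans eb)
  have r5 : ∀ x : H, s * (s * (u⁻¹ * x)) = u * (s * x) := fun x => by
    have e₀ : s * (s * (u⁻¹ * x)) = u * (s * x) := (r4 (u⁻¹ * x)).symm.trans (by rw [r2 x])
    have ea : s * (s * (u⁻¹ * x)) = s * (s * (u⁻¹ * x)) := rfl
    have eb : u * (s * x) = u * (s * x) := rfl
    exact ea.symm.trans (e₀.trans eb)
  have r6 : ∀ x : H, u⁻¹ * (s * (s * x)) = s * (u * x) := fun x => by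
    have e₀ : s * (u * x) = u⁻¹ * (s * (s * x)) := (r3 (s * (u * x))).symm.trans (by rw [r4 x])
    have ea : u⁻¹ * (s * (s * x)) = u⁻¹ * (s * (s * x)) := rfl
    have eb : s * (u * x) = s * (u * x) := rfl
    exact ea.symm.trans (e₀.symm.trans eb)
  have r7 : ∀ x : H, s⁻¹ * (u * (s * x)) = s * (u⁻¹ * x) := fun x => by
    have e₀ : s * (u⁻¹ * x) = s⁻¹ * (u * (s * x)) := (r1 (s * (u⁻¹ * x))).symm.trans (by rw [r5 x])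
    have ea : s⁻¹ * (u * (s * x)) = s⁻¹ * (u * (s * x)) := rfl
    have eb : s * (u⁻¹ * x) = s * (u⁻¹ * x) := rfl
    exact ea.symm.trans (e₀.symm.trans eb)
  have r8 : ∀ x : H, s * (u * (s⁻¹ * x)) = u⁻¹ * (s * x) := fun x => by
    have e₀ : s * (u * (s⁻¹ * x)) = u⁻¹ * (s * x) := (r6 (s⁻¹ * x)).symm.trans (by rw [r0 x])
    have ea : s * (u * (s⁻¹ * x)) = s * (u * (s⁻¹ * x)) := rfl
    have eb : u⁻¹ * (s * x) = u⁻¹ * (s * x) := rfl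
    exact ea.symm.trans (e₀.trans eb)
  have r9 : ∀ x : H, s * (u⁻¹ * (s⁻¹ * x)) = s⁻¹ * (u * x) := fun x => by
    have e₀ : s * (u⁻¹ * (s⁻¹ * x)) = s⁻¹ * (u * x) := (r7 (s⁻¹ * x)).symm.trans (by rw [r0 x])
    have ea : s * (u⁻¹ * (s⁻¹ * x)) = s * (u⁻¹ * (s⁻¹ * x)) := rfl
    have eb : s⁻¹ * (u * x) = s⁻¹ * (u * x) := rfl
    exact ea.symm.trans (e₀.trans eb)
  have r10 : ∀ x : H, s⁻¹ * (u⁻¹ * (s * x)) = u * (s⁻¹ * x) := fun x => by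
    have e₀ : u * (s⁻¹ * x) = s⁻¹ * (u⁻¹ * (s * x)) := (r1 (u * (s⁻¹ * x))).symm.trans (by rw [r8 x])
    have ea : s⁻¹ * (u⁻¹ * (s * x)) = s⁻¹ * (u⁻¹ * (s * x)) := rfl
    have eb : u * (s⁻¹ * x) = u * (s⁻¹ * x) := rfl
    exact ea.symm.trans (e₀.symm.trans eb)
  have r11 : ∀ x : H, s⁻¹ * (s⁻¹ * (u * x)) = u⁻¹ * (s⁻¹ * x) := fun x => by
    have e₀ : u⁻¹ * (s⁻¹ * x) = s⁻¹ * (s⁻¹ * (u * x)) := (r1 (u⁻¹ * (s⁻¹ * x))).symm.trans (by rw [r9 x])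
    have ea : s⁻¹ * (s⁻¹ * (u * x)) = s⁻¹ * (s⁻¹ * (u * x)) := rfl
    have eb : u⁻¹ * (s⁻¹ * x) = u⁻¹ * (s⁻¹ * x) := rfl
    exact ea.symm.trans (e₀.symm.trans eb)
  have r16 : ∀ x : H, s⁻¹ * (u * (u * (s * x))) = s * (u⁻¹ * (s * (u⁻¹ * x))) := fun x => by
    have e₀ : s * (u⁻¹ * (s * (u⁻¹ * x))) = s⁻¹ * (u * (u * (s * x))) := (r7 (s * (u⁻¹ * x))).symm.trans (by rw [r5 x])
    have ea : s⁻¹ * (u * (u * (s * x))) = s⁻¹ * (u * (u * (s * x))) := rfl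
    have eb : s * (u⁻¹ * (s * (u⁻¹ * x))) = s * (u⁻¹ * (s * (u⁻¹ * x))) := rfl
    exact ea.symm.trans (e₀.symm.trans eb)
  have r17 : ∀ x : H, u⁻¹ * (s * (u⁻¹ * (s * x))) = s * (u * (u * (s⁻¹ * x))) := fun x => by
    have e₀ : s * (u * (u * (s⁻¹ * x))) = u⁻¹ * (s * (u⁻¹ * (s * x))) := (r6 (u * (s⁻¹ * x))).symm.trans (by rw [r8 x])
    have ea : u⁻¹ * (s * (u⁻¹ * (s * x))) = u⁻¹ * (s * (u⁻¹ * (s * x))) := rfl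
    have eb : s * (u * (u * (s⁻¹ * x))) = s * (u * (u * (s⁻¹ * x))) := rfl
    exact ea.symm.trans (e₀.symm.trans eb)
  have r18 : ∀ x : H, s⁻¹ * (u * (s⁻¹ * (u * x))) = s * (u⁻¹ * (u⁻¹ * (s⁻¹ * x))) := fun x => by
    have e₀ : s * (u⁻¹ * (u⁻¹ * (s⁻¹ * x))) = s⁻¹ * (u * (s⁻¹ * (u * x))) := (r7 (u⁻¹ * (s⁻¹ * x))).symm.trans (by rw [r9 x])
    have ea : s⁻¹ * (u * (s⁻¹ * (u * x))) = s⁻¹ * (u * (s⁻¹ * (u * x))) := rfl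
    have eb : s * (u⁻¹ * (u⁻¹ * (s⁻¹ * x))) = s * (u⁻¹ * (u⁻¹ * (s⁻¹ * x))) := rfl
    exact ea.symm.trans (e₀.symm.trans eb)
  have r19 : ∀ x : H, u * (s⁻¹ * (u * (s⁻¹ * x))) = s⁻¹ * (u⁻¹ * (u⁻¹ * (s * x))) := fun x => by
    have e₀ : u * (s⁻¹ * (u * (s⁻¹ * x))) = s⁻¹ * (u⁻¹ * (u⁻¹ * (s * x))) := (r10 (u * (s⁻¹ * x))).symm.trans (by rw [r8 x])
    have ea : u * (s⁻¹ * (u * (s⁻¹ * x))) = u * (s⁻¹ * (u * (s⁻¹ * x))) := rfl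
    have eb : s⁻¹ * (u⁻¹ * (u⁻¹ * (s * x))) = s⁻¹ * (u⁻¹ * (u⁻¹ * (s * x))) := rfl
    exact ea.symm.trans (e₀.trans eb)
  have r22 : ∀ x : H, u * (s * (u⁻¹ * (u⁻¹ * (s⁻¹ * x)))) = s⁻¹ * (u⁻¹ * (u⁻¹ * (s * (u * x)))) := fun x => by
    have e₀ : s⁻¹ * (u⁻¹ * (u⁻¹ * (s * (u * x)))) = u * (s * (u⁻¹ * (u⁻¹ * (s⁻¹ * x)))) := (r19 (u * x)).symm.trans (by rw [r18 x])
    have ea : u * (s * (u⁻¹ * (u⁻¹ * (s⁻¹ * x)))) = u * (s * (u⁻¹ * (u⁻¹ * (s⁻¹ * x)))) := rfl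
    have eb : s⁻¹ * (u⁻¹ * (u⁻¹ * (s * (u * x)))) = s⁻¹ * (u⁻¹ * (u⁻¹ * (s * (u * x)))) := rfl
    exact ea.symm.trans (e₀.symm.trans eb)
  have r30 : ∀ x : H, u * (u * (u * (s * (u⁻¹ * (u⁻¹ * (u⁻¹ * x)))))) = s * (u⁻¹ * (u⁻¹ * (u⁻¹ * (s * x)))) := fun x => by
    have e₀ : s * (u⁻¹ * (u⁻¹ * (u⁻¹ * (s * x)))) = u * (u * (u * (s * (u⁻¹ * (u⁻¹ * (u⁻¹ * x)))))) := a1 x
    have ea : u * (u * (u * (s * (u⁻¹ * (u⁻¹ * (u⁻¹ * x)))))) = u * (u * (u * (s * (u⁻¹ * (u⁻¹ * (u⁻¹ * x)))))) := rfl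
    have eb : s * (u⁻¹ * (u⁻¹ * (u⁻¹ * (s * x)))) = s * (u⁻¹ * (u⁻¹ * (u⁻¹ * (s * x)))) := rfl
    exact ea.symm.trans (e₀.symm.trans eb)
  have r34 : ∀ x : H, u * (u * (u * (s * (u⁻¹ * (u⁻¹ * x))))) = s * (u⁻¹ * (u⁻¹ * (u⁻¹ * (s * (u * x))))) := fun x => by
    have e₀ : s * (u⁻¹ * (u⁻¹ * (u⁻¹ * (s * (u * x))))) = u * (u * (u * (s * (u⁻¹ * (u⁻¹ * x))))) := (r30 (u * x)).symm.trans (by rw [r3 x])
    have ea : u * (u * (u * (s * (u⁻¹ * (u⁻¹ * x))))) = u * (u * (u * (s * (u⁻¹ * (u⁻¹ * x))))) := rfl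
    have eb : s * (u⁻¹ * (u⁻¹ * (u⁻¹ * (s * (u * x))))) = s * (u⁻¹ * (u⁻¹ * (u⁻¹ * (s * (u * x))))) := rfl
    exact ea.symm.trans (e₀.symm.trans eb)
  have r35 : ∀ x : H, u⁻¹ * (s * (u⁻¹ * (u⁻¹ * (u⁻¹ * (s * x))))) = u * (u * (s * (u⁻¹ * (u⁻¹ * (u⁻¹ * x))))) := fun x => by
    have e₀ : u * (u * (s * (u⁻¹ * (u⁻¹ * (u⁻¹ * x))))) = u⁻¹ * (s * (u⁻¹ * (u⁻¹ * (u⁻¹ * (s * x))))) := (r3 (u * (u * (s * (u⁻¹ * (u⁻¹ * (u⁻¹ * x))))))).symm.trans (by rw [r30 x])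
    have ea : u⁻¹ * (s * (u⁻¹ * (u⁻¹ * (u⁻¹ * (s * x))))) = u⁻¹ * (s * (u⁻¹ * (u⁻¹ * (u⁻¹ * (s * x))))) := rfl
    have eb : u * (u * (s * (u⁻¹ * (u⁻¹ * (u⁻¹ * x))))) = u * (u * (s * (u⁻¹ * (u⁻¹ * (u⁻¹ * x))))) := rfl
    exact ea.symm.trans (e₀.symm.trans eb)
  have r36 : ∀ x : H, s * (u⁻¹ * (u⁻¹ * (u⁻¹ * (s * (u * (u * x)))))) = u * (u * (u * (s * (u⁻¹ * x)))) := fun x => by
    have e₀ : s * (u⁻¹ * (u⁻¹ * (u⁻¹ * (s * (u * (u * x)))))) = u * (u * (u * (s * (u⁻¹ * x)))) := (r34 (u * x)).symm.trans (by rw [r3 x])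
    have ea : s * (u⁻¹ * (u⁻¹ * (u⁻¹ * (s * (u * (u * x)))))) = s * (u⁻¹ * (u⁻¹ * (u⁻¹ * (s * (u * (u * x)))))) := rfl
    have eb : u * (u * (u * (s * (u⁻¹ * x)))) = u * (u * (u * (s * (u⁻¹ * x)))) := rfl
    exact ea.symm.trans (e₀.trans eb)
  have r37 : ∀ x : H, u * (u * (s * (u⁻¹ * (u⁻¹ * (u⁻¹ * (s⁻¹ * x)))))) = u⁻¹ * (s * (u⁻¹ * (u⁻¹ * (u⁻¹ * x)))) := fun x => by
    have e₀ : u * (u * (s * (u⁻¹ * (u⁻¹ * (u⁻¹ * (s⁻¹ * x)))))) = u⁻¹ * (s * (u⁻¹ * (u⁻¹ * (u⁻¹ * x)))) := (r35 (s⁻¹ * x)).symm.trans (by rw [r0 x])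
    have ea : u * (u * (s * (u⁻¹ * (u⁻¹ * (u⁻¹ * (s⁻¹ * x)))))) = u * (u * (s * (u⁻¹ * (u⁻¹ * (u⁻¹ * (s⁻¹ * x)))))) := rfl
    have eb : u⁻¹ * (s * (u⁻¹ * (u⁻¹ * (u⁻¹ * x)))) = u⁻¹ * (s * (u⁻¹ * (u⁻¹ * (u⁻¹ * x)))) := rfl
    exact ea.symm.trans (e₀.trans eb)
  have r38 : ∀ x : H, u⁻¹ * (u⁻¹ * (u⁻¹ * (s * (u * (u * x))))) = s⁻¹ * (u * (u * (u * (s * (u⁻¹ * x))))) := fun x => by
    have e₀ : u⁻¹ * (u⁻¹ * (u⁻¹ * (s * (u * (u * x))))) = s⁻¹ * (u * (u * (u * (s * (u⁻¹ * x))))) := (r1 (u⁻¹ * (u⁻¹ * (u⁻¹ * (s * (u * (u * x))))))).symm.trans (by rw [r36 x])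
    have ea : u⁻¹ * (u⁻¹ * (u⁻¹ * (s * (u * (u * x))))) = u⁻¹ * (u⁻¹ * (u⁻¹ * (s * (u * (u * x))))) := rfl
    have eb : s⁻¹ * (u * (u * (u * (s * (u⁻¹ * x))))) = s⁻¹ * (u * (u * (u * (s * (u⁻¹ * x))))) := rfl
    exact ea.symm.trans (e₀.trans eb)
  have r39 : ∀ x : H, u⁻¹ * (u⁻¹ * (s * (u⁻¹ * (u⁻¹ * (u⁻¹ * x))))) = u * (s * (u⁻¹ * (u⁻¹ * (u⁻¹ * (s⁻¹ * x))))) := fun x => by
    have e₀ : u * (s * (u⁻¹ * (u⁻¹ * (u⁻¹ * (s⁻¹ * x))))) = u⁻¹ * (u⁻¹ * (s * (u⁻¹ * (u⁻¹ * (u⁻¹ * x))))) := (r3 (u * (s * (u⁻¹ * (u⁻¹ * (u⁻¹ * (s⁻¹ * x))))))).symm.trans (by rw [r37 x])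
    have ea : u⁻¹ * (u⁻¹ * (s * (u⁻¹ * (u⁻¹ * (u⁻¹ * x))))) = u⁻¹ * (u⁻¹ * (s * (u⁻¹ * (u⁻¹ * (u⁻¹ * x))))) := rfl
    have eb : u * (s * (u⁻¹ * (u⁻¹ * (u⁻¹ * (s⁻¹ * x))))) = u * (s * (u⁻¹ * (u⁻¹ * (u⁻¹ * (s⁻¹ * x))))) := rfl
    exact ea.symm.trans (e₀.symm.trans eb)
  have r41 : ∀ x : H, u * (s * (u⁻¹ * (u⁻¹ * (u⁻¹ * (s⁻¹ * (u * x)))))) = u⁻¹ * (u⁻¹ * (s * (u⁻¹ * (u⁻¹ * x)))) := fun x => by
    have e₀ : u * (s * (u⁻¹ * (u⁻¹ * (u⁻¹ * (s⁻¹ * (u * x)))))) = u⁻¹ * (u⁻¹ * (s * (u⁻¹ * (u⁻¹ * x)))) := (r39 (u * x)).symm.trans (by rw [r3 x])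
    have ea : u * (s * (u⁻¹ * (u⁻¹ * (u⁻¹ * (s⁻¹ * (u * x)))))) = u * (s * (u⁻¹ * (u⁻¹ * (u⁻¹ * (s⁻¹ * (u * x)))))) := rfl
    have eb : u⁻¹ * (u⁻¹ * (s * (u⁻¹ * (u⁻¹ * x)))) = u⁻¹ * (u⁻¹ * (s * (u⁻¹ * (u⁻¹ * x)))) := rfl
    exact ea.symm.trans (e₀.trans eb)
  have r57 : ∀ x : H, u * (s * (u⁻¹ * (u⁻¹ * (u⁻¹ * (s⁻¹ * x))))) = s⁻¹ * (u⁻¹ * (u⁻¹ * (u⁻¹ * (s * (u * x))))) := fun x => by
    have e₀ : s⁻¹ * (u⁻¹ * (u⁻¹ * (s * (u * (s⁻¹ * (u * x)))))) = u * (s * (u⁻¹ * (u⁻¹ * (u⁻¹ * (s⁻¹ * x))))) := (r22 (s⁻¹ * (u * x))).symm.trans (by rw [r11 x])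
    have ea : u * (s * (u⁻¹ * (u⁻¹ * (u⁻¹ * (s⁻¹ * x))))) = u * (s * (u⁻¹ * (u⁻¹ * (u⁻¹ * (s⁻¹ * x))))) := rfl
    have eb : s⁻¹ * (u⁻¹ * (u⁻¹ * (s * (u * (s⁻¹ * (u * x)))))) = s⁻¹ * (u⁻¹ * (u⁻¹ * (u⁻¹ * (s * (u * x))))) := by rw [r8 (u * x)]
    exact ea.symm.trans (e₀.symm.trans eb)
  have r58 : ∀ x : H, u * (s⁻¹ * (u⁻¹ * (u⁻¹ * (u⁻¹ * (s * (u * x)))))) = u⁻¹ * (s * (u⁻¹ * (u⁻¹ * (u⁻¹ * x)))) := fun x => by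
    have e₀ : u * (u * (s * (u⁻¹ * (u⁻¹ * (u⁻¹ * (s⁻¹ * x)))))) = u⁻¹ * (s * (u⁻¹ * (u⁻¹ * (u⁻¹ * x)))) := r37 x
    have ea : u * (u * (s * (u⁻¹ * (u⁻¹ * (u⁻¹ * (s⁻¹ * x)))))) = u * (s⁻¹ * (u⁻¹ * (u⁻¹ * (u⁻¹ * (s * (u * x)))))) := by rw [r57 (x)]
    have eb : u⁻¹ * (s * (u⁻¹ * (u⁻¹ * (u⁻¹ * x)))) = u⁻¹ * (s * (u⁻¹ * (u⁻¹ * (u⁻¹ * x)))) := rfl
    exact ea.symm.trans (e₀.trans eb)
  have r59 : ∀ x : H, s * (u * (u * (s⁻¹ * (u⁻¹ * (u⁻¹ * x))))) = u⁻¹ * (u⁻¹ * (s * (u⁻¹ * (u⁻¹ * x)))) := fun x => by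
    have e₀ : u * (s * (u⁻¹ * (u⁻¹ * (u⁻¹ * (s⁻¹ * (u * x)))))) = u⁻¹ * (u⁻¹ * (s * (u⁻¹ * (u⁻¹ * x)))) := r41 x
    have ea : u * (s * (u⁻¹ * (u⁻¹ * (u⁻¹ * (s⁻¹ * (u * x)))))) = s * (u * (u * (s⁻¹ * (u⁻¹ * (u⁻¹ * x))))) := by rw [r57 (u * x), r38 (x), r11 (u * (u * (s * (u⁻¹ * x)))), r16 (u⁻¹ * x), r17 (u⁻¹ * (u⁻¹ * x))]
    have eb : u⁻¹ * (u⁻¹ * (s * (u⁻¹ * (u⁻¹ * x)))) = u⁻¹ * (u⁻¹ * (s * (u⁻¹ * (u⁻¹ * x)))) := rfl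
    exact ea.symm.trans (e₀.trans eb)
  have r61 : ∀ x : H, s * (u * (u * (s⁻¹ * (u⁻¹ * x)))) = u⁻¹ * (u⁻¹ * (s * (u⁻¹ * x))) := fun x => by
    have e₀ : u⁻¹ * (u⁻¹ * (s * (u⁻¹ * (u⁻¹ * (u * x))))) = s * (u * (u * (s⁻¹ * (u⁻¹ * x)))) := (r59 (u * x)).symm.trans (by rw [r3 x])
    have ea : s * (u * (u * (s⁻¹ * (u⁻¹ * x)))) = s * (u * (u * (s⁻¹ * (u⁻¹ * x)))) := rfl
    have eb : u⁻¹ * (u⁻¹ * (s * (u⁻¹ * (u⁻¹ * (u * x))))) = u⁻¹ * (u⁻¹ * (s * (u⁻¹ * x))) := by rw [r3 (x)]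
    exact ea.symm.trans (e₀.symm.trans eb)
  have r63 : ∀ x : H, s * (u * (u * (s⁻¹ * x))) = u⁻¹ * (u⁻¹ * (s * x)) := fun x => by
    have e₀ : u⁻¹ * (u⁻¹ * (s * (u⁻¹ * (u * x)))) = s * (u * (u * (s⁻¹ * x))) := (r61 (u * x)).symm.trans (by rw [r3 x])
    have ea : s * (u * (u * (s⁻¹ * x))) = s * (u * (u * (s⁻¹ * x))) := rfl
    have eb : u⁻¹ * (u⁻¹ * (s * (u⁻¹ * (u * x)))) = u⁻¹ * (u⁻¹ * (s * x)) := by rw [r3 (x)]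
    exact ea.symm.trans (e₀.symm.trans eb)
  have r64 : ∀ x : H, u⁻¹ * (s * (u * x)) = s * (u * (u * x)) := fun x => by
    have e₀ : u⁻¹ * (u⁻¹ * (s * (s * x))) = s * (u * (u * x)) := (r63 (s * x)).symm.trans (by rw [r1 x])
    have ea : u⁻¹ * (u⁻¹ * (s * (s * x))) = u⁻¹ * (s * (u * x)) := by rw [r6 (x)]
    have eb : s * (u * (u * x)) = s * (u * (u * x)) := rfl
    exact ea.symm.trans (e₀.trans eb)
  have r65 : ∀ x : H, u⁻¹ * (s * x) = s * (u * x) := fun x => by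
    have e₀ : s * (u * (u * (u⁻¹ * x))) = u⁻¹ * (s * x) := (r64 (u⁻¹ * x)).symm.trans (by rw [r2 x])
    have ea : u⁻¹ * (s * x) = u⁻¹ * (s * x) := rfl
    have eb : s * (u * (u * (u⁻¹ * x))) = s * (u * x) := by rw [r2 (x)]
    exact ea.symm.trans (e₀.symm.trans eb)
  have r66 : ∀ x : H, s * (u * x) = u⁻¹ * x := fun x => by
    have e₀ : s * (u * (s⁻¹ * x)) = u⁻¹ * x := (r65 (s⁻¹ * x)).symm.trans (by rw [r0 x])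
    have ea : s * (u * (s⁻¹ * x)) = s * (u * x) := by rw [r8 (x), r65 (x)]
    have eb : u⁻¹ * x = u⁻¹ * x := rfl
    exact ea.symm.trans (e₀.trans eb)
  have r67 : ∀ x : H, s⁻¹ * (u⁻¹ * x) = u * x := fun x => by
    have e₀ : u * x = s⁻¹ * (u⁻¹ * x) := (r1 (u * x)).symm.trans (by rw [r66 x])
    have ea : s⁻¹ * (u⁻¹ * x) = s⁻¹ * (u⁻¹ * x) := rfl
    have eb : u * x = u * x := rfl
    exact ea.symm.trans (e₀.symm.trans eb)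
  have r68 : ∀ x : H, u⁻¹ * (u⁻¹ * x) = s * x := fun x => by
    have e₀ : u⁻¹ * (u⁻¹ * x) = s * x := (r66 (u⁻¹ * x)).symm.trans (by rw [r2 x])
    have ea : u⁻¹ * (u⁻¹ * x) = u⁻¹ * (u⁻¹ * x) := rfl
    have eb : s * x = s * x := rfl
    exact ea.symm.trans (e₀.trans eb)
  have r69 : ∀ x : H, u * (u * x) = s⁻¹ * x := fun x => by
    have e₀ : u * (u * x) = s⁻¹ * x := (r67 (u * x)).symm.trans (by rw [r3 x])
    have ea : u * (u * x) = u * (u * x) := rfl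
    have eb : s⁻¹ * x = s⁻¹ * x := rfl
    exact ea.symm.trans (e₀.trans eb)
  have r70 : ∀ x : H, u * (s * x) = u⁻¹ * x := fun x => by
    have e₀ : u⁻¹ * x = u * (s * x) := (r2 (u⁻¹ * x)).symm.trans (by rw [r68 x])
    have ea : u * (s * x) = u * (s * x) := rfl
    have eb : u⁻¹ * x = u⁻¹ * x := rfl
    exact ea.symm.trans (e₀.symm.trans eb)
  have r72 : ∀ x : H, s * x = x := fun x => by
    have e₀ : s * x = u * (s * (u * x)) := (r2 (s * x)).symm.trans (by rw [r65 x])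
    have ea : s * x = s * x := rfl
    have eb : u * (s * (u * x)) = x := by rw [r70 (u * x), r3 (x)]
    exact ea.symm.trans (e₀.trans eb)
  have r73 : ∀ x : H, s⁻¹ * x = x := fun x => by
    have e₀ : s * (s⁻¹ * x) = x := r0 x
    have ea : s * (s⁻¹ * x) = s⁻¹ * x := by rw [r72 (s⁻¹ * x)]
    have eb : x = x := rfl
    exact ea.symm.trans (e₀.trans eb)
  have r74 : ∀ x : H, u⁻¹ * x = u * x := fun x => by
    have e₀ : s * (u * x) = u⁻¹ * x := r66 x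
    have ea : u⁻¹ * x = u⁻¹ * x := rfl
    have eb : s * (u * x) = u * x := by rw [r72 (u * x)]
    exact ea.symm.trans (e₀.symm.trans eb)
  have r75 : ∀ x : H, u * x = x := fun x => by
    have e₀ : u⁻¹ * (s * (u⁻¹ * (u⁻¹ * (u⁻¹ * (u⁻¹ * x))))) = u * (s⁻¹ * (u⁻¹ * (u⁻¹ * (u⁻¹ * (s * x))))) := (r58 (u⁻¹ * x)).symm.trans (by rw [r2 x])
    have ea : u⁻¹ * (s * (u⁻¹ * (u⁻¹ * (u⁻¹ * (u⁻¹ * x))))) = u * x := by rw [r74 (s * (u⁻¹ * (u⁻¹ * (u⁻¹ * (u⁻¹ * x))))), r72 (u⁻¹ * (u⁻¹ * (u⁻¹ * (u⁻¹ * x)))), r74 (u⁻¹ * (u⁻¹ * (u⁻¹ * x))), r69 (u⁻¹ * (u⁻¹ * (u⁻¹ * x))), r73 (u⁻¹ * (u⁻¹ * (u⁻¹ * x))), r74 (u⁻¹ * (u⁻¹ * x)), r74 (u⁻¹ * x), r69 (u⁻¹ * x), r73 (u⁻¹ * x), r74 (x)]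
    have eb : u * (s⁻¹ * (u⁻¹ * (u⁻¹ * (u⁻¹ * (s * x))))) = x := by rw [r73 (u⁻¹ * (u⁻¹ * (u⁻¹ * (s * x)))), r74 (u⁻¹ * (u⁻¹ * (s * x))), r69 (u⁻¹ * (u⁻¹ * (s * x))), r73 (u⁻¹ * (u⁻¹ * (s * x))), r74 (u⁻¹ * (s * x)), r74 (s * x), r69 (s * x), r73 (s * x), r72 (x)]
    exact ea.symm.trans (e₀.trans eb)
  exact ⟨by simpa using r72 1, by simpa using r75 1⟩

theorem alg {H : Type} [Group H] (s u : H)
    (h : ((s ^ 3)⁻¹ * (1 * s ^ 2 * 1⁻¹)) ^ 2 * (1 * s ^ 2 * 1⁻¹ * ((s ^ 3) ^ 2)⁻¹ * (1 * s ^ 2 * 1⁻¹)⁻¹ *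
      (1 * s ^ 2 * 1⁻¹) ^ 3 * (1 * (s ^ 3 * (u ^ 3)⁻¹) * 1⁻¹)⁻¹ *
      (1 * s ^ 2 * 1⁻¹ * (1 * (s ^ 3 * (u ^ 3)⁻¹) * 1⁻¹)⁻¹ * (1 * s ^ 2 * 1⁻¹)⁻¹) *
      (s ^ 3 * (1 * (s ^ 3 * (u ^ 3)⁻¹) * 1⁻¹) * (s ^ 3)⁻¹))⁻¹ = 1) :
    s * u⁻¹ * u⁻¹ * u⁻¹ * s = u * u * u * s * u⁻¹ * u⁻¹ * u⁻¹ := by
  have h' : s * u ^ 3 * s⁻¹ * u⁻¹ ^ 3 * s * u⁻¹ ^ 3 = 1 := by
    rw [← h]
    group
  have h3 : s * u ^ 3 * s⁻¹ * u⁻¹ ^ 3 * s = u ^ 3 := by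
    rw [inv_pow] at h'
    rw [inv_pow]
    exact mul_inv_eq_one.mp h'
  calc s * u⁻¹ * u⁻¹ * u⁻¹ * s = s * (u ^ 3)⁻¹ * s := by group
    _ = s * (s * u ^ 3 * s⁻¹ * u⁻¹ ^ 3 * s)⁻¹ * s := by rw [h3]
    _ = u ^ 3 * s * u⁻¹ * u⁻¹ * u⁻¹ := by group
    _ = u * u * u * s * u⁻¹ * u⁻¹ * u⁻¹ := by rw [pow_succ, pow_two]

/-- the relators `v`, `w` of `L` and `t` -/
def relK : Option (Fin 2) → Word (Fin 3) := addRel ![v.toWord, w.toWord] t.toWord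

theorem subsingleton_K : Subsingleton (Grp relK) := by
  let π : F →* Grp relK := PresentedGroup.mk _
  have hrel : ∀ i, π (FreeGroup.mk (relK i)) = 1 := fun i =>
    PresentedGroup.one_of_mem ⟨i, rfl⟩
  have ht : π t = 1 := by
    have := hrel none
    rwa [show relK none = t.toWord from rfl, FreeGroup.mk_toWord] at this
  have hv : π v = 1 := by
    have := hrel (some 0)
    rwa [show relK (some 0) = v.toWord from rfl, FreeGroup.mk_toWord] at this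
  have hw : π w = 1 := by
    have := hrel (some 1)
    rwa [show relK (some 1) = w.toWord from rfl, FreeGroup.mk_toWord] at this
  have h₁ : π u * π s * π u = π s * π s := by
    have h : (π s * π u) ^ 2 * (π s ^ 3)⁻¹ = 1 := by
      simpa only [v, z, map_mul, map_pow, map_inv] using hv
    have h' : (π s * π u) ^ 2 = π s ^ 3 := by rwa [mul_inv_eq_one] at h
    apply mul_left_cancel (a := π s)
    calc π s * (π u * π s * π u) = (π s * π u) ^ 2 := by rw [pow_two]; simp only [mul_assoc]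
      _ = π s ^ 3 := h'
      _ = π s * (π s * π s) := by rw [pow_succ, pow_two, mul_assoc]
  simp only [w, y, d, f, z, e, map_mul, map_pow, map_inv, ht] at hw
  have h₂ := alg (π s) (π u) hw
  obtain ⟨hs, hu⟩ := kill (π s) (π u) h₁ h₂
  have h1 : π = 1 := by
    refine FreeGroup.ext_hom _ _ fun i => ?_
    fin_cases i
    · exact hs
    · exact hu
    · exact ht
  refine ⟨fun a b => ?_⟩
  obtain ⟨a, rfl⟩ := PresentedGroup.mk_surjective _ a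
  obtain ⟨b, rfl⟩ := PresentedGroup.mk_surjective _ b
  have ha : π a = 1 := by rw [h1]; rfl
  have hb : π b = 1 := by rw [h1]; rfl
  exact ha.trans hb.symm

open Contr in
theorem ex_letters (x : Fin 3) : (ex x s).toAdd = (if 0 = x then 1 else 0) ∧
    (ex x u).toAdd = (if 1 = x then 1 else 0) ∧ (ex x t).toAdd = (if 2 = x then 1 else 0) := by
  refine ⟨?_, ?_, ?_⟩
  · have := ex_true x (0 : Fin 3)
    rw [show (FreeGroup.mk [((0 : Fin 3), true)] : F) = s from rfl] at this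
    rw [this]
    by_cases h : (0 : Fin 3) = x <;> simp [h]
  · have := ex_true x (1 : Fin 3)
    rw [show (FreeGroup.mk [((1 : Fin 3), true)] : F) = u from rfl] at this
    rw [this]
    by_cases h : (1 : Fin 3) = x <;> simp [h]
  · have := ex_true x (2 : Fin 3)
    rw [show (FreeGroup.mk [((2 : Fin 3), true)] : F) = t from rfl] at this
    rw [this]
    by_cases h : (2 : Fin 3) = x <;> simp [h]

/-- The complex `K` of `⟨s, u, t ∣ v, w, t⟩` is contractible. -/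
theorem contractible_K : Contractible relK := by
  refine ⟨subsingleton_K, fun a ha => ?_⟩
  have hN : ∀ x, fox relK x (relK none) = (((Contr.ex x t).toAdd : ℤ) : MonoidAlgebra ℤ (Grp relK)) := by
    intro x
    rw [Contr.fox_eq relK subsingleton_K, show relK none = t.toWord from rfl, FreeGroup.mk_toWord]
  have h0 : ∀ x, fox relK x (relK (some 0)) =
      (((Contr.ex x v).toAdd : ℤ) : MonoidAlgebra ℤ (Grp relK)) := by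
    intro x
    rw [Contr.fox_eq relK subsingleton_K, show relK (some 0) = v.toWord from rfl, FreeGroup.mk_toWord]
  have h1 : ∀ x, fox relK x (relK (some 1)) =
      (((Contr.ex x w).toAdd : ℤ) : MonoidAlgebra ℤ (Grp relK)) := by
    intro x
    rw [Contr.fox_eq relK subsingleton_K, show relK (some 1) = w.toWord from rfl, FreeGroup.mk_toWord]
  have key : ∀ x, a none * (((Contr.ex x t).toAdd : ℤ) : MonoidAlgebra ℤ (Grp relK)) +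
      (a (some 0) * (((Contr.ex x v).toAdd : ℤ) : MonoidAlgebra ℤ (Grp relK)) +
       a (some 1) * (((Contr.ex x w).toAdd : ℤ) : MonoidAlgebra ℤ (Grp relK))) = 0 := by
    intro x
    have := ha x
    rwa [Fintype.sum_option, Fin.sum_univ_two, hN, h0, h1] at this
  have ev : ∀ x, (Contr.ex x v).toAdd = 2 * (Contr.ex x u).toAdd - (Contr.ex x s).toAdd := by
    intro x
    simp only [v, z, map_mul, map_pow, map_inv, toAdd_mul, toAdd_pow, toAdd_inv, nsmul_eq_mul]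
    push_cast
    ring
  have ew : ∀ x, (Contr.ex x w).toAdd = (Contr.ex x s).toAdd - 3 * (Contr.ex x u).toAdd := by
    intro x
    simp only [w, y, d, f, z, e, map_mul, map_pow, map_inv, toAdd_mul, toAdd_pow, toAdd_inv,
      nsmul_eq_mul]
    push_cast
    ring
  have k0 := key 0
  have k1 := key 1
  have k2 := key 2
  rw [ev, ew, (ex_letters _).1, (ex_letters _).2.1, (ex_letters _).2.2] at k0 k1 k2
  rw [if_pos rfl, if_neg (by decide), if_neg (by decide)] at k0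
  rw [if_neg (by decide), if_pos rfl, if_neg (by decide)] at k1
  rw [if_pos rfl, if_neg (by decide), if_neg (by decide)] at k2
  push_cast at k0 k1 k2
  have e2 : a none = 0 := by
    have h : a none * 1 + (a (some 0) * 0 + a (some 1) * 0) = a none := by
      noncomm_ring
    rw [← h]; exact k2
  have e1 : a (some 1) = a (some 0) := by
    have h : a none * 0 + (a (some 0) * -1 + a (some 1) * 1) =
      a (some 1) - a (some 0) := by noncomm_ring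
    rw [h] at k0; exact sub_eq_zero.mp k0
  have e3 : a (some 0) = 0 := by
    have h : a none * 0 + (a (some 0) * 2 + a (some 0) * -3) = - a (some 0) := by
      noncomm_ring
    rw [e1, h] at k1; exact neg_eq_zero.mp k1
  funext i
  rcases i with _ | i
  · exact e2
  · fin_cases i
    · exact e3
    · exact e1.trans e3

end Pool.Agent.RelGap
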