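import Mathlib

/-!
# The linear computation, and the braid identity
-/

set_option autoImplicit false

namespace Pool.Agent.RelGap

/-- the computation in the relation module -/
theorem linear {A : Type*} [AddCommGroup A] (z d t s g : A →+ A) (e η ζ σ : A)
    (hz2 : ∀ x, z (z x) = x) (hd3 : ∀ x, d (d (d x)) = x) (hzd : ∀ x, z (d x) = d (d (z x)))
    (hdt : ∀ x, d (t x) = t (s (s x))) (hs3 : ∀ x, s (s (s x)) = z x) (hze : z e = e)
    (hζ : ζ = e + s (s e) + s e + g e) (hσ : σ = t ζ) (hzζ : z ζ = ζ) (hη : z (d η) = η)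
    (hσd : d σ = σ)
    (h5 : σ + z σ = (ζ + η) + d (ζ + η) + d (d (ζ + η)))
    (h6 : η = - d ζ + σ - t e - d (t e) + z (t e)) : t (g e) = 0 := by
  have hdf : t (s (s e)) = d (t e) := (hdt e).symm
  have hddf : t (s e) = d (d (t e)) := by
    rw [hdt, hdt, hs3 e, hze]
  have hσ' : σ = t e + d (t e) + d (d (t e)) + t (g e) := by
    rw [hσ, hζ]; simp only [map_add]; rw [hdf, hddf]
  generalize t (g e) = f4 at *
  generalize t e = f at *
  have hd4 : d f4 = f4 := by
    have h := hσd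
    rw [hσ'] at h
    simp only [map_add, hd3] at h
    have h2 : d f4 - f4 = 0 := by
      rw [← sub_eq_zero.mpr h]; abel
    exact sub_eq_zero.mp h2
  have hη' : η = - d ζ + d (d f) + f4 + z f := by
    rw [h6, hσ']; abel
  have hzd2 : ∀ x, z (d (d x)) = d (z x) := by
    intro x; rw [hzd, hzd, hd3]
  have h4 : z f4 = f4 := by
    have h := hη
    rw [hη'] at h
    simp only [map_add, map_neg, hd3, hd4, hzd, hz2] at h
    rw [hzζ] at h
    have h2 : z f4 - f4 = 0 := by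
      rw [← sub_eq_zero.mpr h]; abel
    exact sub_eq_zero.mp h2
  have h7 : z f4 = f4 + f4 := by
    have h := h5
    rw [hη', hσ'] at h
    simp only [map_add, map_neg, hd3, hd4, hzd] at h
    have h2 : z f4 - (f4 + f4) = 0 := by
      rw [← sub_eq_zero.mpr h]; abel
    exact sub_eq_zero.mp h2
  rw [h4] at h7
  simpa using h7

/-- identity in the braid group on three strands -/
theorem braid {Γ : Type*} [Group Γ] (s u : Γ) (h : (s * u) ^ 2 = s ^ 3) :
    (s ^ 3) ^ 2 = (s ^ 3 * (u ^ 3)⁻¹) * (s ^ 2 * (s ^ 3 * (u ^ 3)⁻¹) * (s ^ 2)⁻¹) *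
      (s * (s ^ 3 * (u ^ 3)⁻¹) * s⁻¹) *
      ((s * u * s⁻¹) * (s ^ 3 * (u ^ 3)⁻¹) * (s * u * s⁻¹)⁻¹) := by
  have e1 : s * (u * s * u) = s * (s * s) := by
    have : (s * u) ^ 2 = s * (u * s * u) := by rw [pow_two]; simp only [mul_assoc]
    rw [← this, h, pow_succ, pow_two]
    simp only [mul_assoc]
  have h1 : u * s * u = s * s := mul_left_cancel e1
  obtain ⟨z, hz⟩ : ∃ z, z = s ^ 3 := ⟨_, rfl⟩
  have hz' : z = s * (s * s) := by rw [hz, pow_succ, pow_two, mul_assoc]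
  rw [← hz]
  have hs : ∀ x, s * (s * (s * x)) = z * x := by intro x; rw [hz']; simp only [mul_assoc]
  have husu : ∀ x, u * (s * (u * x)) = s * (s * x) := by
    intro x
    have := congrArg (· * x) h1
    simpa only [mul_assoc] using this
  have hzs : ∀ x, s * (z * x) = z * (s * x) := by intro x; rw [hz']; simp only [mul_assoc]
  have hzu : ∀ x, u * (z * x) = z * (u * x) := by
    intro x
    rw [← hs x, ← husu x, husu (s * (u * x)), hs]
  have hZs : ∀ x, s * (z⁻¹ * x) = z⁻¹ * (s * x) := by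
    intro x
    have := hzs (z⁻¹ * x)
    rw [mul_inv_cancel_left] at this
    rw [this, inv_mul_cancel_left]
  have hZu : ∀ x, u * (z⁻¹ * x) = z⁻¹ * (u * x) := by
    intro x
    have := hzu (z⁻¹ * x)
    rw [mul_inv_cancel_left] at this
    rw [this, inv_mul_cancel_left]
  have hsi : ∀ x, s⁻¹ * x = z⁻¹ * (s * (s * x)) := by
    intro x
    rw [inv_mul_eq_iff_eq_mul, hZs, hs, inv_mul_cancel_left]
  have hui : ∀ x, u⁻¹ * x = z⁻¹ * (s * (u * (s * x))) := by
    intro x
    rw [inv_mul_eq_iff_eq_mul, hZu, husu, hs, inv_mul_cancel_left]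
  have key : ∀ x, z ^ 2 * x = (z * (u ^ 3)⁻¹) * (s ^ 2 * (z * (u ^ 3)⁻¹) * (s ^ 2)⁻¹) *
      (s * (z * (u ^ 3)⁻¹) * s⁻¹) * ((s * u * s⁻¹) * (z * (u ^ 3)⁻¹) * (s * u * s⁻¹)⁻¹) * x := by
    intro x
    simp only [pow_succ, pow_zero, one_mul, mul_inv_rev, inv_inv, mul_assoc, hsi, hui, hZs, hZu, hzs,
      hzu, husu, hs, mul_inv_cancel_left, inv_mul_cancel_left]
  simpa using key 1

end Pool.Agent.RelGap
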