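import Mathlib

/-!
# Solvable models of the relators

Solvable groups with `s i`, `u i` such that `(s i)³ = (u i)³ = (s i u i)²` for all `i`,
`((s (i+1))⁻³ (s i)²)² = 1` for all `i < m`, and `(s 0)³ ≠ 1`: iterated regular wreath products of
the binary tetrahedral group (inside `Q₈ ≀ ℤ/3`).
-/

set_option autoImplicit false

namespace Pool.Agent.RelGap.Mod

open RegularWreathProduct

/-- a power of a solvable group is solvable -/
theorem solvable_pi (ι D : Type) [Group D] [Group.IsSolvable D] : Group.IsSolvable (ι → D) := by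
  obtain ⟨n, hn⟩ := Group.IsSolvable.solvable (G := D)
  refine ⟨⟨n, ?_⟩⟩
  rw [eq_bot_iff]
  intro f hf
  have h1 : ∀ i, f i = 1 := fun i => by
    have h := map_derivedSeries_le_derivedSeries (Pi.evalMonoidHom (fun _ : ι => D) i) n
    have h2 := h (Subgroup.mem_map_of_mem _ hf)
    rw [hn] at h2
    exact Subgroup.mem_bot.1 h2
  exact Subgroup.mem_bot.2 (funext h1)

/-- the base group of a regular wreath product -/
def base (D Q : Type) [Group D] [Group Q] : (Q → D) →* RegularWreathProduct D Q where
  toFun f := ⟨f, 1⟩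
  map_one' := rfl
  map_mul' f g := by
    refine RegularWreathProduct.ext ?_ ?_
    · funext x
      simp
    · simp

theorem base_left {D Q : Type} [Group D] [Group Q] (f : Q → D) : (base D Q f).left = f := rfl

theorem base_inj {D Q : Type} [Group D] [Group Q] {f g : Q → D} (h : base D Q f = base D Q g) :
    f = g := congrArg RegularWreathProduct.left h

/-- conjugation of the base group by the top group -/
theorem inl_base {D Q : Type} [Group D] [Group Q] (q : Q) (f : Q → D) :
    (inl q : RegularWreathProduct D Q) * base D Q f = base D Q (fun x => f (q⁻¹ * x)) * inl q := by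
  refine RegularWreathProduct.ext ?_ ?_
  · funext x
    simp [base, inl]
  · simp [base, inl]

/-- a regular wreath product of solvable groups is solvable -/
theorem solvable_wreath (D Q : Type) [Group D] [Group Q] [Group.IsSolvable D] [Group.IsSolvable Q] :
    Group.IsSolvable (RegularWreathProduct D Q) := by
  have := solvable_pi Q D
  refine Group.isSolvable_of_ker_le_range (base D Q) (rightHom : RegularWreathProduct D Q →* Q) ?_
  intro w hw
  refine ⟨w.left, ?_⟩
  refine RegularWreathProduct.ext rfl ?_
  exact (MonoidHom.mem_ker.1 hw).symm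

/-- A group with two elements `a, b`, `a³ = b³ = (a b)²` of order two. -/
structure Tet (T : Type) [Group T] (a b : T) : Prop where
  h1 : a ^ 3 = b ^ 3
  h2 : b ^ 3 = (a * b) ^ 2
  h3 : a ^ 6 = 1
  h4 : a ^ 3 ≠ 1

/-- the cube roots in `Q₈ ≀ ℤ/3` -/
abbrev Qe : Type := RegularWreathProduct (QuaternionGroup 2) (Multiplicative (ZMod 3))

/-- the function with the values `1, 1, -1` -/
def fa : Multiplicative (ZMod 3) → QuaternionGroup 2 :=
  fun x => if x.toAdd = 2 then .a 2 else 1

/-- the function with the values `i, j, k` -/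
def fb : Multiplicative (ZMod 3) → QuaternionGroup 2 :=
  fun x => if x.toAdd = 0 then .a 1 else if x.toAdd = 1 then .xa 0 else .xa 3

/-- the element of order 6 -/
def ta : Qe := ⟨fa, Multiplicative.ofAdd 1⟩

/-- the element of order 6 -/
def tb : Qe := ⟨fb, Multiplicative.ofAdd 2⟩

theorem solvable_Q8 : Group.IsSolvable (QuaternionGroup 2) := by
  have h : IsPGroup 2 (QuaternionGroup 2) := by
    refine IsPGroup.of_card (n := 3) ?_
    rw [Nat.card_eq_fintype_card, QuaternionGroup.card]
    norm_num
  have : Finite (QuaternionGroup 2) := inferInstance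
  have : Fact (Nat.Prime 2) := ⟨Nat.prime_two⟩
  have := h.isNilpotent
  infer_instance

theorem solvable_Qe : Group.IsSolvable Qe := by
  have := solvable_Q8
  exact solvable_wreath _ _

theorem tet : Tet Qe ta tb := by
  have e3 : ∀ x : Qe, x ^ 3 = x * x * x := fun x => by rw [pow_succ, pow_two]
  have hta : ta ^ 3 = (⟨fun _ => .a 2, 1⟩ : RegularWreathProduct _ _) := by
    rw [e3]
    refine RegularWreathProduct.ext ?_ ?_
    · funext x
      revert x
      decide
    · decide
  have htb : tb ^ 3 = (⟨fun _ => .a 2, 1⟩ : RegularWreathProduct _ _) := by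
    rw [e3]
    refine RegularWreathProduct.ext ?_ ?_
    · funext x
      revert x
      decide
    · decide
  have htab : (ta * tb) ^ 2 = (⟨fun _ => .a 2, 1⟩ : RegularWreathProduct _ _) := by
    rw [pow_two]
    refine RegularWreathProduct.ext ?_ ?_
    · funext x
      revert x
      decide
    · decide
  refine ⟨hta.trans htb.symm, htb.trans htab.symm, ?_, ?_⟩
  · rw [show 6 = 3 * 2 from rfl, pow_mul, hta]
    refine RegularWreathProduct.ext ?_ ?_
    · funext x
      revert x
      decide
    · decide
  · rw [hta]
    intro h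
    have h2 := congrFun (congrArg RegularWreathProduct.left h) 1
    revert h2
    decide

/-- `m + 1` copies of the binary tetrahedral group with the relations between neighbours. -/
structure Chain (m : ℕ) (S : Type) [Group S] (s u : ℕ → S) : Prop where
  tet1 : ∀ i, s i ^ 3 = u i ^ 3
  tet2 : ∀ i, u i ^ 3 = (s i * u i) ^ 2
  six : s 0 ^ 6 = 1
  next : ∀ i, i < m → ((s (i + 1) ^ 3)⁻¹ * s i ^ 2) ^ 2 = 1
  out : ∀ i, m < i → s i = 1 ∧ u i = 1
  ne : s 0 ^ 3 ≠ 1

theorem chain_zero : Chain 0 Qe (fun i => if i = 0 then ta else 1) (fun i => if i = 0 then tb else 1) where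
  tet1 i := by
    by_cases h : i = 0
    · simpa [h] using tet.h1
    · simp [h]
  tet2 i := by
    by_cases h : i = 0
    · simpa [h] using tet.h2
    · simp [h]
  six := by simpa using tet.h3
  next i hi := by omega
  out i hi := by
    have h : i ≠ 0 := by omega
    simp [h]
  ne := by simpa using tet.h4

open Classical in
/-- the value `x` at `1`, its inverse at `z` -/
noncomputable def two {D Q : Type} [Group D] [Group Q] (z : Q) (x : D) : Q → D :=
  fun q => if q = 1 then x else if q = z then x⁻¹ else 1

theorem two_one {D Q : Type} [Group D] [Group Q] (z : Q) (x : D) : two z x 1 = x := by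
  simp [two]

theorem two_z {D Q : Type} [Group D] [Group Q] {z : Q} (hz : z ≠ 1) (x : D) :
    two z x z = x⁻¹ := by
  simp [two, hz]

theorem two_out {D Q : Type} [Group D] [Group Q] {z q : Q} (h1 : q ≠ 1) (h2 : q ≠ z) (x : D) :
    two z x q = 1 := by
  simp [two, h1, h2]

/-- an identity of the base group holds if it holds at `1` and at `z`, and is trivial elsewhere -/
theorem two_ext {D Q : Type} [Group D] [Group Q] {z : Q} {f g : Q → D} (h1 : f 1 = g 1)
    (h2 : f z = g z) (h3 : ∀ q, q ≠ 1 → q ≠ z → f q = g q) : f = g := by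
  funext q
  by_cases h4 : q = 1
  · rw [h4, h1]
  · by_cases h5 : q = z
    · rw [h5, h2]
    · exact h3 q h4 h5

/-- One more copy at the beginning. -/
theorem chain_succ {m : ℕ} {S : Type} [Group S] {s u : ℕ → S} (h : Chain m S s u) {T : Type}
    [Group T] {a b : T} (t : Tet T a b) :
    Chain (m + 1) (RegularWreathProduct T S)
      (fun i => if i = 0 then base T S (two (s 0 ^ 3) a) else inl (s (i - 1)))
      (fun i => if i = 0 then base T S (two (s 0 ^ 3) b) else inl (u (i - 1))) where
  tet1 i := by
    by_cases hi : i = 0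
    · simp only [hi, if_true]
      rw [← map_pow, ← map_pow]
      congr 1
      refine two_ext (z := s 0 ^ 3) ?_ ?_ fun q h1 h2 => ?_
      · simp only [Pi.pow_apply, two_one, t.h1]
      · simp only [Pi.pow_apply, two_z h.ne, inv_pow, t.h1]
      · simp only [Pi.pow_apply, two_out h1 h2]
    · simp only [hi, if_false]
      rw [← map_pow, ← map_pow, h.tet1]
  tet2 i := by
    by_cases hi : i = 0
    · simp only [hi, if_true]
      rw [← map_mul, ← map_pow, ← map_pow]
      congr 1
      refine two_ext (z := s 0 ^ 3) ?_ ?_ fun q h1 h2 => ?_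
      · simp only [Pi.pow_apply, Pi.mul_apply, two_one, t.h2]
      · simp only [Pi.pow_apply, Pi.mul_apply, two_z h.ne]
        rw [← mul_inv_rev, inv_pow, inv_pow]
        congr 1
        have e3 : (b * a) ^ 2 = b * (a * b) ^ 2 * b⁻¹ := by
          simp only [pow_two]; group
        rw [e3, ← t.h2, pow_succ, pow_two]
        group
      · simp only [Pi.pow_apply, Pi.mul_apply, two_out h1 h2, one_pow, mul_one]
    · simp only [hi, if_false]
      rw [← map_mul, ← map_pow, ← map_pow, h.tet2]
  six := by
    simp only [if_true]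
    rw [← map_pow, ← map_one (base T S)]
    congr 1
    refine two_ext (z := s 0 ^ 3) ?_ ?_ fun q h1 h2 => ?_
    · simp only [Pi.pow_apply, two_one, t.h3, Pi.one_apply]
    · simp only [Pi.pow_apply, two_z h.ne, inv_pow, t.h3, inv_one, Pi.one_apply]
    · simp only [Pi.pow_apply, two_out h1 h2, one_pow, Pi.one_apply]
  next i hi := by
    by_cases h0 : i = 0
    · subst h0
      simp only [if_true, Nat.zero_add, one_ne_zero, if_false, Nat.sub_self]
      have hz : s 0 ^ 3 * s 0 ^ 3 = 1 := by rw [← pow_add]; exact h.six
      have hz' : (s 0 ^ 3)⁻¹ = s 0 ^ 3 := inv_eq_of_mul_eq_one_right hz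
      rw [← map_pow, ← map_pow, ← map_inv, hz', inl_base, hz', pow_two]
      rw [mul_assoc, ← mul_assoc (inl _) (base T S _) (inl _)]
      rw [inl_base, hz', mul_assoc, ← map_mul, hz, map_one, mul_one, ← map_mul, ← map_one (base T S)]
      congr 1
      refine two_ext (z := s 0 ^ 3) ?_ ?_ fun q h1 h2 => ?_
      · simp only [Pi.pow_apply, Pi.mul_apply, Pi.one_apply, mul_one, hz, two_one, two_z h.ne]
        group
      · simp only [Pi.pow_apply, Pi.mul_apply, Pi.one_apply, hz, mul_one, two_one, two_z h.ne]
        group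
      · have h3 : s 0 ^ 3 * q ≠ 1 := fun h4 => h2 (by rw [← hz'] ; exact (inv_eq_of_mul_eq_one_right h4).symm)
        have h4 : s 0 ^ 3 * q ≠ s 0 ^ 3 := fun h5 => h1 (mul_left_cancel (h5.trans (mul_one _).symm))
        have h5 : s 0 ^ 3 * (s 0 ^ 3 * q) = q := by rw [← mul_assoc, hz, one_mul]
        simp only [Pi.pow_apply, Pi.mul_apply, Pi.one_apply, h5, two_out h1 h2, two_out h3 h4,
          one_pow, mul_one]
    · obtain ⟨j, rfl⟩ : ∃ j, i = j + 1 := ⟨i - 1, by omega⟩
      have h1 := h.next j (by omega)
      simp only [Nat.add_eq_zero_iff, one_ne_zero, and_false, if_false, Nat.add_sub_cancel]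
      rw [← map_pow, ← map_pow, ← map_inv, ← map_mul, ← map_pow, h1, map_one]
  out i hi := by
    have h0 : i ≠ 0 := by omega
    have h1 := h.out (i - 1) (by omega)
    simp only [h0, if_false, h1.1, h1.2, map_one, and_self]
  ne := by
    simp only [if_true]
    rw [← map_pow, ← map_one (base T S)]
    intro h1
    have h2 := congrFun (base_inj h1) 1
    simp only [Pi.pow_apply, two_one, Pi.one_apply] at h2
    exact t.h4 h2

/-- **Solvable models.** -/
theorem exists_chain (m : ℕ) : ∃ (S : Type) (_ : Group S) (s u : ℕ → S),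
    Group.IsSolvable S ∧ Chain m S s u := by
  induction m with
  | zero => exact ⟨Qe, inferInstance, _, _, solvable_Qe, chain_zero⟩
  | succ m ih =>
    obtain ⟨S, hS, s, u, hs, hc⟩ := ih
    have := hs
    have := solvable_Qe
    exact ⟨RegularWreathProduct Qe S, inferInstance, _, _, solvable_wreath Qe S, chain_succ hc tet⟩

end Pool.Agent.RelGap.Mod
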