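import Pool.Agent.RelGap.Linear
import Pool.Agent.RelGap.Defs

/-!
# The relation module of `G` is generated by two elements
-/

set_option autoImplicit false

open scoped commutatorElement

namespace Pool.Agent.RelGap

theorem comm_of {Γ : Type*} [Group Γ] (s u : Γ) (h : (s * u) ^ 2 = s ^ 3) :
    s ^ 3 * u = u * s ^ 3 := by
  have e1 : s * (u * s * u) = s * (s * s) := by
    have : (s * u) ^ 2 = s * (u * s * u) := by rw [pow_two]; simp only [mul_assoc]
    rw [← this, h, pow_succ, pow_two]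
    simp only [mul_assoc]
  have h1 : u * s * u = s * s := mul_left_cancel e1
  have h2 : s ^ 3 = u * s * u * s := by rw [h1, pow_succ, pow_two]
  have h3 : s ^ 3 = s * (u * s * u) := by rw [h1, pow_succ, pow_two, mul_assoc]
  calc s ^ 3 * u = u * s * u * s * u := by rw [← h2]
    _ = u * (s * (u * s * u)) := by simp only [mul_assoc]
    _ = u * s ^ 3 := by rw [← h3]

section
variable {Γ : Type*} [Group Γ] (M : Subgroup Γ) [M.Normal] (s u t : Γ)

theorem z_sq_mem (hv : (s * u) ^ 2 = s ^ 3) (he : s ^ 3 * (u ^ 3)⁻¹ ∈ M) : (s ^ 3) ^ 2 ∈ M := by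
  rw [braid s u hv]
  have hn : ∀ g : Γ, g * (s ^ 3 * (u ^ 3)⁻¹) * g⁻¹ ∈ M := fun g =>
    Subgroup.Normal.conj_mem inferInstance _ he g
  exact M.mul_mem (M.mul_mem (M.mul_mem he (hn _)) (hn _)) (hn _)

theorem e_eq_one (hM : ∀ a ∈ M, ∀ b ∈ M, a * b = b * a) (hv : (s * u) ^ 2 = s ^ 3) (he : s ^ 3 * (u ^ 3)⁻¹ ∈ M)
    (hy : ((s ^ 3)⁻¹ * (t * s ^ 2 * t⁻¹)) ^ 2 ∈ M)
    (hw : ((s ^ 3)⁻¹ * (t * s ^ 2 * t⁻¹)) ^ 2 =
      (t * s ^ 2 * t⁻¹) * ((s ^ 3) ^ 2)⁻¹ * (t * s ^ 2 * t⁻¹)⁻¹ * (t * s ^ 2 * t⁻¹) ^ 3 *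
        (t * (s ^ 3 * (u ^ 3)⁻¹) * t⁻¹)⁻¹ *
        ((t * s ^ 2 * t⁻¹) * (t * (s ^ 3 * (u ^ 3)⁻¹) * t⁻¹)⁻¹ * (t * s ^ 2 * t⁻¹)⁻¹) *
        (s ^ 3 * (t * (s ^ 3 * (u ^ 3)⁻¹) * t⁻¹) * (s ^ 3)⁻¹)) :
    s ^ 3 * (u ^ 3)⁻¹ = 1 := by
  classical
  let _ : CommGroup M := { (inferInstance : Group M) with
    mul_comm := fun a b => Subtype.ext (hM a a.2 b b.2) }
  have hconj : ∀ (g a : Γ), a ∈ M → g * a * g⁻¹ ∈ M := fun g a ha =>
    Subgroup.Normal.conj_mem inferInstance _ ha g
  let c : Γ → (Additive M →+ Additive M) := fun g =>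
    { toFun := fun x => Additive.ofMul ⟨g * (x.toMul : Γ) * g⁻¹, hconj g _ x.toMul.2⟩
      map_zero' := by
        apply Additive.toMul.injective
        apply Subtype.ext
        show g * 1 * g⁻¹ = 1
        group
      map_add' := by
        intro x y
        apply Additive.toMul.injective
        apply Subtype.ext
        show g * ((x.toMul : Γ) * (y.toMul : Γ)) * g⁻¹ =
          (g * (x.toMul : Γ) * g⁻¹) * (g * (y.toMul : Γ) * g⁻¹)
        group }
  let v : Additive M → Γ := fun x => (x.toMul : Γ)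
  have hv_inj : ∀ x y, v x = v y → x = y := fun x y h =>
    Additive.toMul.injective (Subtype.ext h)
  have v_add : ∀ x y, v (x + y) = v x * v y := fun x y => rfl
  have v_neg : ∀ x, v (-x) = (v x)⁻¹ := fun x => rfl
  have v_sub : ∀ x y, v (x - y) = v x * (v y)⁻¹ := by
    intro x y; rw [sub_eq_add_neg, v_add, v_neg]
  have v_zero : v 0 = 1 := rfl
  have v_c : ∀ g x, v (c g x) = g * v x * g⁻¹ := fun g x => rfl
  have v_mem : ∀ x, v x ∈ M := fun x => x.toMul.2
  have c_mul : ∀ g h x, c g (c h x) = c (g * h) x := by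
    intro g h x
    apply hv_inj
    rw [v_c, v_c, v_c]
    group
  have c_mem : ∀ g, g ∈ M → ∀ x, c g x = x := by
    intro g hg x
    apply hv_inj
    rw [v_c, hM g hg (v x) (v_mem x)]
    group
  have hmk : ∀ a, a ∈ M → ∃ x, v x = a := fun a ha => ⟨Additive.ofMul ⟨a, ha⟩, rfl⟩
  -- names
  obtain ⟨z, hz⟩ : ∃ z, z = s ^ 3 := ⟨_, rfl⟩
  have hzz : z ^ 2 ∈ M := by rw [hz]; exact z_sq_mem M s u hv he
  have hbraid := braid s u hv
  have hzu : z * u = u * z := by rw [hz]; exact comm_of s u hv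
  rw [← hz] at he hy hw hbraid ⊢
  obtain ⟨e, he'⟩ : ∃ e, e = z * (u ^ 3)⁻¹ := ⟨_, rfl⟩
  rw [← he'] at he hw hbraid ⊢
  obtain ⟨d, hd⟩ : ∃ d, d = t * s ^ 2 * t⁻¹ := ⟨_, rfl⟩
  rw [← hd] at hy hw
  have hd3 : d ^ 3 = t * z ^ 2 * t⁻¹ := by
    rw [hd, hz]
    simp only [pow_succ, pow_zero, one_mul, mul_assoc, inv_mul_cancel_left]
  have hd3M : d ^ 3 ∈ M := by rw [hd3]; exact hconj _ _ hzz
  obtain ⟨E, hE⟩ := hmk e he
  obtain ⟨η, hη⟩ := hmk _ hy
  obtain ⟨ζ, hζ⟩ := hmk _ hzz
  obtain ⟨σ, hσ⟩ := hmk _ hd3M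
  have hze : z * e * z⁻¹ = e := by
    have h1 : z * u ^ 3 = u ^ 3 * z := (Commute.pow_right (show Commute z u from hzu) 3)
    rw [he']
    have h2 : z * (u ^ 3)⁻¹ = (u ^ 3)⁻¹ * z := (Commute.inv_right (show Commute z (u ^ 3) from h1))
    rw [h2, ← mul_assoc, h2]
    group
  have hn : z * d * z⁻¹ = z ^ 2 * (z⁻¹ * d) ^ 2 * d⁻¹ := by
    simp only [pow_two]; group
  have cdinv : ∀ x, c d⁻¹ x = c d (c d x) := by
    intro x
    have : c d (c d (c d (c d⁻¹ x))) = c d⁻¹ x := by
      rw [c_mul, c_mul, c_mul]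
      have := c_mem (d ^ 3) hd3M (c d⁻¹ x)
      rw [c_mul] at this
      rw [← this]
      congr 1
      simp only [pow_succ, pow_zero, one_mul, mul_assoc]
    rw [← this, c_mul d d⁻¹, mul_inv_cancel]
    have h1 : ∀ x, c 1 x = x := c_mem 1 M.one_mem
    rw [h1]
  have czinv : ∀ x, c z⁻¹ x = c z x := by
    intro x
    have : c z (c z (c z⁻¹ x)) = c z⁻¹ x := by
      rw [c_mul, c_mul]
      have := c_mem (z ^ 2) hzz (c z⁻¹ x)
      rw [c_mul] at this
      rw [← this]
      congr 1
      simp only [pow_two, mul_assoc]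
    rw [← this, c_mul z z⁻¹, mul_inv_cancel]
    have h1 : ∀ x, c 1 x = x := c_mem 1 M.one_mem
    rw [h1]
  have hfin := linear (c z) (c d) (c t) (c s) (c (s * u * s⁻¹)) E η ζ σ
    (by
      intro x
      rw [c_mul, ← pow_two]
      exact c_mem _ hzz x)
    (by
      intro x
      rw [c_mul, c_mul]
      have := c_mem _ hd3M x
      rw [pow_succ, pow_two] at this
      exact this)
    (by
      intro x
      rw [c_mul, c_mul, c_mul]
      have h1 : z * d = (z ^ 2 * (z⁻¹ * d) ^ 2 * (d ^ 3)⁻¹) * (d * (d * z)) := by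
        have : z * d = z ^ 2 * (z⁻¹ * d) ^ 2 * d⁻¹ * z := by rw [← hn]; group
        rw [this]
        simp only [pow_succ, pow_zero, one_mul, mul_inv_rev, mul_assoc, inv_mul_cancel_left]
      rw [h1, ← c_mul, c_mem _ (M.mul_mem (M.mul_mem hzz hy) (M.inv_mem hd3M)), mul_assoc d d z])
    (by
      intro x
      rw [c_mul, c_mul, c_mul, hd]
      congr 1
      simp only [pow_two, mul_assoc, inv_mul_cancel, mul_one])
    (by
      intro x
      rw [c_mul, c_mul, hz]
      congr 1
      simp only [pow_succ, pow_zero, one_mul, mul_assoc])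
    (by
      apply hv_inj
      rw [v_c, hE, hze])
    (by
      apply hv_inj
      rw [v_add, v_add, v_add, v_c, v_c, v_c, hE, hζ, hbraid]
      simp only [pow_two, mul_assoc, mul_inv_rev])
    (by
      apply hv_inj
      rw [v_c, hσ, hζ, hd3])
    (by
      apply hv_inj
      rw [v_c, hζ]
      simp only [pow_two]; group)
    (by
      rw [← czinv, c_mul]
      apply hv_inj
      rw [v_c, hη]
      simp only [pow_two]; group)
    (by
      apply hv_inj
      rw [v_c, hσ]
      simp only [pow_succ, pow_zero, one_mul]; group)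
    (by
      have h1 : c z σ = (ζ + η) + c d⁻¹ (ζ + η) + c d⁻¹ (c d⁻¹ (ζ + η)) - σ := by
        apply hv_inj
        rw [v_sub, v_add, v_add, v_c, v_c, v_c, v_c, v_add, hζ, hη, hσ]
        have : z * d ^ 3 * z⁻¹ = (z * d * z⁻¹) ^ 3 := by
          simp only [pow_succ, pow_zero, one_mul]; group
        rw [this, hn]
        generalize z ^ 2 * (z⁻¹ * d) ^ 2 = n
        simp only [pow_succ, pow_zero, one_mul]; group
      have h2 : ∀ x, c d⁻¹ (c d⁻¹ x) = c d x := by
        intro x
        rw [cdinv, cdinv]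
        rw [c_mul d d, c_mul, c_mul]
        have := c_mem _ hd3M (c d x)
        rw [c_mul] at this
        rw [← this]
        congr 1
        simp only [pow_succ, pow_zero, one_mul, mul_assoc]
      rw [h1, h2, cdinv]
      abel)
    (by
      apply hv_inj
      simp only [v_add, v_sub, v_neg, v_c, hE, hζ, hη, hσ]
      rw [hw]
      simp only [mul_inv_rev, mul_assoc, inv_inv])
  have h0 : v (c t (c (s * u * s⁻¹) E)) = 1 := by rw [hfin]; exact v_zero
  rw [v_c, v_c, hE] at h0
  have h1 : (s * u * s⁻¹) * e * (s * u * s⁻¹)⁻¹ = 1 := by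
    have := h0
    rw [mul_inv_eq_one] at this
    exact mul_left_cancel (this.trans (mul_one t).symm)
  rw [mul_inv_eq_one] at h1
  exact mul_left_cancel (h1.trans (mul_one _).symm)

end

theorem e_mem : e ∈ N := Subgroup.subset_normalClosure (by simp)
theorem v_mem : v ∈ N := Subgroup.subset_normalClosure (by simp)
theorem y_mem : y ^ 2 ∈ N := Subgroup.subset_normalClosure (by simp)

theorem w_mem : w ∈ N := by
  have hq : ∀ x : F, x ∈ N ↔ (QuotientGroup.mk' N) x = 1 := by
    intro x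
    rw [← MonoidHom.mem_ker, QuotientGroup.ker_mk']
  set q := QuotientGroup.mk' N with hqd
  have he : q e = 1 := (hq e).mp e_mem
  have hv : q v = 1 := (hq v).mp v_mem
  have hy : q (y ^ 2) = 1 := (hq _).mp y_mem
  have hv' : (q s * q u) ^ 2 = q s ^ 3 := by
    have h := hv
    unfold v z at h
    rw [map_mul, map_inv, mul_inv_eq_one, map_pow, map_mul, map_pow] at h
    exact h
  have he' : q s ^ 3 * (q u ^ 3)⁻¹ = 1 := by
    have h := he
    unfold e z at h
    rw [map_mul, map_inv, map_pow, map_pow] at h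
    exact h
  have hz2 : q z ^ 2 = 1 := by
    have h := z_sq_mem (⊥ : Subgroup G) (q s) (q u) hv' (by rw [he']; exact Subgroup.mem_bot.mpr rfl)
    unfold z
    rw [map_pow]
    exact Subgroup.mem_bot.mp h
  have hf : q f = 1 := by
    unfold f
    rw [map_mul, map_mul, he, map_inv]
    group
  have hd : q d ^ 3 = 1 := by
    have : d ^ 3 = t * z ^ 2 * t⁻¹ := by
      unfold d z
      simp only [pow_succ, pow_zero, one_mul, mul_assoc, inv_mul_cancel_left]
    rw [← map_pow, this, map_mul, map_mul, map_pow, hz2, map_inv]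
    group
  rw [hq]
  unfold w
  simp only [map_mul, map_inv, map_pow, hf, hd, hz2, inv_one, mul_one, mul_inv_cancel]
  rw [← map_pow, hy]

theorem two_generated : Subgroup.normalClosure {v, w} ⊔ ⁅N, N⁆ = N := by
  apply le_antisymm
  · apply sup_le
    · apply Subgroup.normalClosure_le_normal
      intro x hx
      rcases hx with h | h
      · rw [h]; exact v_mem
      · rw [Set.mem_singleton_iff.mp h]; exact w_mem
    · exact Subgroup.commutator_le_left N N
  · set K := Subgroup.normalClosure {v, w} ⊔ ⁅N, N⁆ with hK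
    have hq : ∀ x : F, x ∈ K ↔ (QuotientGroup.mk' K) x = 1 := by
      intro x
      rw [← MonoidHom.mem_ker, QuotientGroup.ker_mk']
    set q := QuotientGroup.mk' K with hqd
    have hqs : Function.Surjective q := QuotientGroup.mk'_surjective K
    have hvK : q v = 1 := (hq v).mp (Subgroup.mem_sup_left (Subgroup.subset_normalClosure (by simp)))
    have hwK : q w = 1 := (hq w).mp (Subgroup.mem_sup_left (Subgroup.subset_normalClosure (by simp)))
    have hNn : (N.map q).Normal := Subgroup.Normal.map inferInstance q hqs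
    have hcomm : ∀ a ∈ N.map q, ∀ b ∈ N.map q, a * b = b * a := by
      rintro _ ⟨a, ha, rfl⟩ _ ⟨b, hb, rfl⟩
      have h : q ⁅a, b⁆ = 1 := (hq _).mp (Subgroup.mem_sup_right (Subgroup.commutator_mem_commutator ha hb))
      rw [map_commutatorElement, commutatorElement_eq_one_iff_mul_comm] at h
      exact h
    have hv' : (q s * q u) ^ 2 = q s ^ 3 := by
      have h := hvK
      unfold v z at h
      rw [map_mul, map_inv, mul_inv_eq_one, map_pow, map_mul, map_pow] at h
      exact h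
    have heM : q s ^ 3 * (q u ^ 3)⁻¹ ∈ N.map q := by
      refine ⟨e, e_mem, ?_⟩
      unfold e z
      rw [map_mul, map_inv, map_pow, map_pow]
    have hyM : ((q s ^ 3)⁻¹ * (q t * q s ^ 2 * (q t)⁻¹)) ^ 2 ∈ N.map q := by
      refine ⟨y ^ 2, y_mem, ?_⟩
      unfold y d z
      simp only [map_mul, map_inv, map_pow]
    have hw' := hwK
    unfold w at hw'
    rw [map_mul, map_inv, mul_inv_eq_one] at hw'
    unfold y f e d z at hw'
    simp only [map_mul, map_inv, map_pow] at hw'
    have he1 := e_eq_one (N.map q) (q s) (q u) (q t) hcomm hv' heM hyM hw'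
    have heK : q e = 1 := by
      unfold e z
      rw [map_mul, map_inv, map_pow, map_pow]
      exact he1
    have hz2 : q z ^ 2 = 1 := by
      have h := z_sq_mem (⊥ : Subgroup (F ⧸ K)) (q s) (q u) hv'
        (by rw [he1]; exact Subgroup.mem_bot.mpr rfl)
      unfold z
      rw [map_pow]
      exact Subgroup.mem_bot.mp h
    have hf : q f = 1 := by
      unfold f
      rw [map_mul, map_mul, heK, map_inv]
      group
    have hd : q d ^ 3 = 1 := by
      have : d ^ 3 = t * z ^ 2 * t⁻¹ := by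
        unfold d z
        simp only [pow_succ, pow_zero, one_mul, mul_assoc, inv_mul_cancel_left]
      rw [← map_pow, this, map_mul, map_mul, map_pow, hz2, map_inv]
      group
    have hyK : q (y ^ 2) = 1 := by
      have h := hwK
      unfold w at h
      simp only [map_mul, map_inv, map_pow, hf, hd, hz2, inv_one, mul_one, mul_inv_cancel] at h
      rw [map_pow]
      exact h
    unfold N
    apply Subgroup.normalClosure_le_normal
    intro x hx
    rcases hx with h | h | h
    · rw [h]; exact (hq _).mpr heK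
    · rw [h]; exact (hq _).mpr hvK
    · rw [Set.mem_singleton_iff.mp h]; exact (hq _).mpr hyK

/-- weight one -/
theorem weight_one : Subgroup.normalClosure ((N : Set F) ∪ {t}) = ⊤ := by
  set K := Subgroup.normalClosure ((N : Set F) ∪ {t}) with hK
  have hq : ∀ x : F, x ∈ K ↔ (QuotientGroup.mk' K) x = 1 := by
    intro x
    rw [← MonoidHom.mem_ker, QuotientGroup.ker_mk']
  set q := QuotientGroup.mk' K with hqd
  have hN : ∀ x ∈ N, q x = 1 := fun x hx =>
    (hq x).mp (Subgroup.subset_normalClosure (Or.inl hx))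
  have ht : q t = 1 := (hq t).mp (Subgroup.subset_normalClosure (Or.inr rfl))
  have h1 := hN _ e_mem
  have h2 := hN _ v_mem
  have h3 := hN _ y_mem
  unfold e z at h1
  unfold v z at h2
  unfold y d z at h3
  simp only [map_mul, map_inv, map_pow, ht, one_mul, inv_one, mul_one] at h1 h2 h3
  have hgen : ∀ {Q : Type} [Group Q] (a b : Q), a ^ 3 * (b ^ 3)⁻¹ = 1 → (a * b) ^ 2 * (a ^ 3)⁻¹ = 1 →
      ((a ^ 3)⁻¹ * a ^ 2) ^ 2 = 1 → a = 1 ∧ b = 1 := by
    intro Q _ a b h1 h2 h3
    have ha : a ^ 2 = 1 := by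
      have : (a ^ 3)⁻¹ * a ^ 2 = a⁻¹ := by
        rw [pow_succ]; group
      rw [this, inv_pow, inv_eq_one] at h3
      exact h3
    have ha3 : a ^ 3 = a := by rw [pow_succ, ha, one_mul]
    rw [mul_inv_eq_one, ha3] at h1 h2
    have hab : (a * b) ^ 2 = b ^ 8 := by
      rw [h1]
      simp only [pow_succ, pow_zero, one_mul, mul_assoc]
    have h5 : b ^ 5 = 1 := by
      have : b ^ 8 = b ^ 3 := by rw [← hab, h2, h1]
      have h : b ^ 5 * b ^ 3 = 1 * b ^ 3 := by rw [← pow_add, one_mul]; exact this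
      exact mul_right_cancel h
    have h6 : b ^ 6 = 1 := by
      rw [← ha, h1, ← pow_mul]
    have hb : b = 1 := by
      have : b ^ 6 = b ^ 5 * b := pow_succ b 5
      rw [h6, h5, one_mul] at this
      exact this.symm
    refine ⟨?_, hb⟩
    rw [h1, hb, one_pow]
  obtain ⟨hs, hu⟩ := hgen (q s) (q u) h1 h2 h3
  have hq1 : q = 1 := by
    apply FreeGroup.ext_hom
    intro i
    fin_cases i
    · exact hs
    · exact hu
    · exact ht
  rw [eq_top_iff]
  intro x _
  rw [hq, hq1]
  rfl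

end Pool.Agent.RelGap
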