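import Pool.Agent.RelGap.Contr
import Pool.Agent.RelGap.GapFinal

/-!
# Connected subcomplexes of finite contractible 2-complexes
-/

set_option autoImplicit false

namespace Pool.Agent.RelGap

open Pool.Agent.FoxAsph

/-- The presentation with generators `X` and `Y`, the relators `rel` (words in `X`) and the further
relators `extra`: the presentation complex `K` of this presentation contains the presentation complex
`L` of `rel` as a connected subcomplex. -/
def extend {X Y ι κ : Type} (rel : ι → Word X) (extra : κ → Word (X ⊕ Y)) : ι ⊕ κ → Word (X ⊕ Y) :=
  Sum.elim (fun i => (rel i).map (Prod.map Sum.inl id)) extra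

theorem sub_indep {m n a b : ℕ} (rel : Fin n → Word (Fin m)) (extra : Fin b → Word (Fin m ⊕ Fin a))
    (h : Contractible (extend rel extra)) : Gap.Indep rel :=
  fun p _ c hc => Contr.rows_independent rel extra h p c hc

end Pool.Agent.RelGap
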